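import Pool.Agent.Lib.Pf720ae.Aff.GoodPoly
import Pool.Agent.Lib.Pf720ae.Alg.Lines

/-!
# The line property for exponential polynomials in several variables
-/

set_option autoImplicit false
set_option linter.unusedSectionVars false

open Finset
open Pool.Agent.Lib.Pf720ae.Alg (HasCube Inj Nil CoPrim LP cz)

namespace Pool.Agent.Lib.Pf720ae.Aff

variable {Λ : Type*} [AddCommGroup Λ] [Module.Finite ℤ Λ] {R : Type*} [CommRing R]
  {N : Type*} [AddCommGroup N] [Module R N] {κ : Type} [Fintype κ] [DecidableEq κ]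

/-- polynomial maps of degree less than `k` with the integer coefficient property -/
structure Nice {V : Type*} [AddCommGroup V] (k : ℕ) (P : V → Λ) : Prop where
  pd : PD k P
  dvd : ∀ (q : ℕ) (n r : V), ∃ b : Λ, P (q • n + r) - P r = q • b

lemma Nice.mono {V : Type*} [AddCommGroup V] {k k' : ℕ} {P : V → Λ} (h : Nice k P) (hk : k ≤ k') :
    Nice k' P := ⟨h.pd.mono hk, h.dvd⟩

lemma Nice.comp_affine {V W : Type*} [AddCommGroup V] [AddCommGroup W] {k : ℕ} {P : V → Λ}
    (h : Nice k P) (ι : W →+ V) (a : V) : Nice k (fun w => P (ι w + a)) := by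
  refine ⟨h.pd.comp_affine ι a, fun q n r => ?_⟩
  obtain ⟨b, hb⟩ := h.dvd q (ι n) (ι r + a)
  refine ⟨b, ?_⟩
  rw [← hb, map_add, map_nsmul, add_assoc]

lemma Nice.zero {V : Type*} [AddCommGroup V] (k : ℕ) : Nice k (0 : V → Λ) :=
  ⟨PD.zero k, fun q n r => ⟨0, by simp⟩⟩

/-- the line property of the zero sets of exponential polynomials -/
theorem LP_poly (htf : ∀ (n : ℕ) (a : Λ), 0 < n → n • a = 0 → a = 0)
    {u : Multiplicative Λ →* Rˣ} {I : Type*} [Fintype I] {k D q : ℕ} (hq0 : 0 < q)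
    (hq : GoodP N u I k D q) (P : I → (κ → ℤ) → Λ) (hP : ∀ i, Nice k (P i)) (χ : I → N)
    (r : κ → ℤ) :
    LP D {n | ∑ i, u (Multiplicative.ofAdd (P i ((q : ℤ) • n + r))) • χ i = 0} := by
  intro n l hc t
  -- the line as an affine map
  set ι : ℤ →+ (κ → ℤ) := AddMonoidHom.single (fun _ : κ => ℤ) l with hι
  set n₀ : κ → ℤ := Function.update n l 0 with hn₀
  have hline : ∀ t : ℤ, Function.update n l t = ι t + n₀ := by
    intro t
    funext l'
    by_cases h : l' = l
    · subst h; simp [hι, hn₀]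
    · simp [hι, hn₀, Function.update_of_ne h, Pi.single_eq_of_ne h]
  have hdvd : ∀ (i : I) (t : ℤ), ∃ b : Λ,
      P i ((q : ℤ) • Function.update n l t + r) - P i ((q : ℤ) • n₀ + r) = q • b := by
    intro i t
    obtain ⟨b, hb⟩ := (hP i).dvd q (ι t) ((q : ℤ) • n₀ + r)
    refine ⟨b, ?_⟩
    rw [← hb, hline, smul_add, ← natCast_zsmul (ι t), add_assoc]
  choose b hb using hdvd
  have hinj : ∀ a b : Λ, q • a = q • b → a = b := fun a b h => by
    have := htf q (a - b) hq0 (by rw [smul_sub, h, sub_self])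
    exact sub_eq_zero.1 this
  have hbPD : ∀ i, PD k (b i) := by
    intro i
    rcases Nat.eq_zero_or_pos k with hk | hk
    · subst hk
      funext t
      refine hinj _ _ ?_
      have h0 : P i = 0 := (hP i).pd
      rw [← hb, h0]
      simp
    · refine PD.of_comp_hom (DistribSMul.toAddMonoidHom Λ q) (fun a b h => hinj a b h) ?_
      have h1 : (fun t => DistribSMul.toAddMonoidHom Λ q (b i t)) =
          (fun t => P i ((q • ι) t + ((q : ℤ) • n₀ + r))) -
            fun _ => P i ((q : ℤ) • n₀ + r) := by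
        funext t
        rw [Pi.sub_apply, AddMonoidHom.nsmul_apply, DistribSMul.toAddMonoidHom_apply, ← hb i t,
          hline, smul_add, ← natCast_zsmul (ι t), add_assoc]
      rw [h1]
      exact ((hP i).pd.comp_affine (q • ι) _).sub ((PD.const (V := ℤ) _).mono hk)
  have hb0 : ∀ i, b i 0 = 0 := by
    intro i
    refine hinj _ _ ?_
    rw [← hb, hline, map_zero, zero_add, sub_self, smul_zero]
  have hev : ∀ t : ℤ, ∑ i, u (Multiplicative.ofAdd
      (P i ((q : ℤ) • Function.update n l t + r))) • χ i =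
      ∑ i, u (Multiplicative.ofAdd (q • b i t)) •
        (u (Multiplicative.ofAdd (P i ((q : ℤ) • n₀ + r))) • χ i) := by
    intro t
    refine Finset.sum_congr rfl fun i _ => ?_
    rw [smul_smul, ← map_mul, ← ofAdd_add, ← hb i t, sub_add_cancel]
  have h2 := hq b hbPD hb0 (fun i => u (Multiplicative.ofAdd (P i ((q : ℤ) • n₀ + r))) • χ i)
    (hc.mono fun t ht => by
      simp only [Set.mem_ofPred_eq] at ht ⊢
      rw [← hev, ht]) t
  simp only [Set.mem_ofPred_eq]
  rw [hev, h2]

variable {J : Type*} [Fintype J]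

/-- the exponential polynomial sequence -/
def Fp (u : Multiplicative Λ →* Rˣ) (P : J → (κ → ℤ) → Λ) (χ : J → N) (n : κ → ℤ) : N :=
  ∑ j, u (Multiplicative.ofAdd (P j n)) • χ j

lemma LP_val (htf : ∀ (n : ℕ) (a : Λ), 0 < n → n • a = 0 → a = 0)
    {u : Multiplicative Λ →* Rˣ} {k D q : ℕ} (hq0 : 0 < q)
    (hq : GoodP N u (Option J) k D q) (P : J → (κ → ℤ) → Λ) (hP : ∀ i, Nice k (P i)) (χ : J → N)
    (r : κ → ℤ) (ψ : N) : LP D {n | Fp u P χ ((q : ℤ) • n + r) = ψ} := by
  have h1 := LP_poly htf hq0 hq (fun i : Option J => Option.elim i 0 P)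
    (fun i => by cases i <;> [exact Nice.zero k; exact hP _])
    (fun i : Option J => Option.elim i (-ψ) χ) r
  have h2 : {n | Fp u P χ ((q : ℤ) • n + r) = ψ} = {n | ∑ i : Option J, u (Multiplicative.ofAdd
      ((fun i : Option J => Option.elim i 0 P) i ((q : ℤ) • n + r))) •
        (fun i : Option J => Option.elim i (-ψ) χ) i = 0} := by
    ext n
    simp only [Set.mem_ofPred_eq, Fintype.sum_option, Option.elim_none, Option.elim_some,
      Pi.zero_apply, ofAdd_zero, map_one, one_smul]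
    rw [neg_add_eq_zero, eq_comm]
    rfl
  rw [h2]
  exact h1

lemma LP_dif (htf : ∀ (n : ℕ) (a : Λ), 0 < n → n • a = 0 → a = 0)
    {u : Multiplicative Λ →* Rˣ} {k D q : ℕ} (hq0 : 0 < q)
    (hq : GoodP N u (J ⊕ J) k D q) (P : J → (κ → ℤ) → Λ) (hP : ∀ i, Nice k (P i)) (χ : J → N)
    (r : κ → ℤ) (l₀ : κ) (t₀ : ℤ) :
    LP D {n | Fp u P χ ((q : ℤ) • Function.update n l₀ (n l₀ + t₀) + r) =
      Fp u P χ ((q : ℤ) • n + r)} := by
  set v : κ → ℤ := (q : ℤ) • (t₀ • Pi.single l₀ 1) with hv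
  have h0 : ∀ n : κ → ℤ, (q : ℤ) • Function.update n l₀ (n l₀ + t₀) + r =
      ((q : ℤ) • n + r) + v := by
    intro n
    have : Function.update n l₀ (n l₀ + t₀) = n + t₀ • Pi.single l₀ 1 := by
      funext l'
      by_cases h : l' = l₀
      · subst h; simp
      · simp [Function.update_of_ne h, Pi.single_eq_of_ne h]
    rw [this, smul_add, hv]
    abel
  have h1 := LP_poly htf hq0 hq (Sum.elim (fun j n => P j (n + v)) P)
    (fun i => by
      cases i with
      | inl j => exact (hP j).comp_affine (AddMonoidHom.id _) v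
      | inr j => exact hP j)
    (Sum.elim χ fun j => -χ j) r
  have h2 : {n | Fp u P χ ((q : ℤ) • Function.update n l₀ (n l₀ + t₀) + r) =
      Fp u P χ ((q : ℤ) • n + r)} = {n | ∑ i : J ⊕ J, u (Multiplicative.ofAdd
      ((Sum.elim (fun j n => P j (n + v)) P : J ⊕ J → (κ → ℤ) → Λ) i ((q : ℤ) • n + r))) •
        (Sum.elim χ fun j => -χ j : J ⊕ J → N) i = 0} := by
    ext n
    simp only [Set.mem_ofPred_eq, Fintype.sum_sum_type, Sum.elim_inl, Sum.elim_inr, smul_neg,
      Finset.sum_neg_distrib]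
    rw [h0, ← sub_eq_add_neg, sub_eq_zero]
    rfl
  rw [h2]
  exact h1

end Pool.Agent.Lib.Pf720ae.Aff
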