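import Pool.Agent.Lib.Pf720ae.Alg.L2

/-!
# Mean squares of averages of orthogonal functions, labelled version
-/

set_option autoImplicit false
set_option linter.unusedSectionVars false

open Finset MeasureTheory Filter Topology
open scoped ENNReal ComplexConjugate

namespace Pool.Agent.Lib.Pf720ae.Aff

open Pool.Agent.Lib.Pf720ae.Alg

variable {κ : Type} [Fintype κ] [DecidableEq κ] {X : Type*} [MeasurableSpace X] {μ : Measure X}
  [IsProbabilityMeasure μ]

open Classical in
theorem l2_bound' {N : Type*} {e : (κ → ℤ) → X → ℂ} (he : ∀ n, Measurable (e n))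
    (he1 : ∀ n x, ‖e n x‖ ≤ 1) (G : (κ → ℤ) → N)
    (horth : ∀ n n', G n ≠ G n' → ∫ x, e n x * conj (e n' x) ∂μ = 0)
    (B : Set (κ → ℤ)) (M : κ → ℕ) (hM : ∀ l, 0 < M l) {β : ℝ}
    (hβ : ∀ ψ, avg M (fun m => if cz m ∉ B ∧ G (cz m) = ψ then (1 : ℝ) else 0) ≤ β)
    {T : ℂ → ℝ} (hT : T = Complex.re ∨ T = Complex.im) :
    ∫ x, (avg M fun m => if cz m ∈ B then 0 else T (e (cz m) x)) ^ 2 ∂μ ≤ β := by
  set w : (κ → ℕ) → ℂ := fun m => if cz m ∈ B then 0 else 1 with hw
  set Pm : ℝ := ∏ l, (M l : ℝ) with hPm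
  have hP : 0 < Pm := prod_cast_pos hM
  set S : X → ℂ := fun x => ∑ m ∈ box M, w m * e (cz m) x with hS
  have hw1 : ∀ m, ‖w m‖ ≤ 1 := fun m => by
    simp only [hw]; split_ifs <;> simp
  have hSm : Measurable S := Finset.measurable_fun_sum _ fun m _ => (he _).const_mul _
  have hSb : ∀ x, ‖S x‖ ≤ Pm := by
    intro x
    refine (norm_sum_le _ _).trans ((Finset.sum_le_sum (g := fun _ => (1 : ℝ)) fun m _ => ?_).trans ?_)
    · rw [norm_mul]
      exact mul_le_one₀ (hw1 m) (norm_nonneg _) (he1 _ _)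
    · rw [Finset.sum_const, nsmul_eq_mul, mul_one, card_box]
      push_cast
      exact le_rfl
  have hT' : ∀ (z : ℂ), (T z) ^ 2 ≤ ‖z‖ ^ 2 := by
    intro z
    rw [Complex.sq_norm, Complex.normSq_apply]
    rcases hT with rfl | rfl
    · nlinarith [mul_self_nonneg z.im]
    · nlinarith [mul_self_nonneg z.re]
  have hTadd : ∀ (s : Finset (κ → ℕ)) (f : (κ → ℕ) → ℂ), T (∑ m ∈ s, f m) = ∑ m ∈ s, T (f m) := by
    intro s f
    rcases hT with rfl | rfl
    · exact Complex.re_sum _ _
    · exact Complex.im_sum _ _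
  have hT0 : T 0 = 0 := by rcases hT with rfl | rfl <;> rfl
  -- the average in terms of `S`
  have h1 : ∀ x, (avg M fun m => if cz m ∈ B then 0 else T (e (cz m) x)) ^ 2 ≤
      Pm⁻¹ ^ 2 * ‖S x‖ ^ 2 := by
    intro x
    unfold avg
    rw [← hPm, mul_pow]
    refine mul_le_mul_of_nonneg_left ?_ (by positivity)
    have h2 : ∑ m ∈ box M, (if cz m ∈ B then 0 else T (e (cz m) x)) = T (S x) := by
      rw [hS, hTadd]
      refine Finset.sum_congr rfl fun m _ => ?_
      simp only [hw]
      split_ifs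
      · rw [zero_mul, hT0]
      · rw [one_mul]
    rw [h2]
    exact hT' _
  -- the mean square of `S`
  have h2 : ∫ x, ‖S x‖ ^ 2 ∂μ ≤ Pm * (Pm * β) := by
    have h3 : ((∫ x, ‖S x‖ ^ 2 ∂μ : ℝ) : ℂ) = ∫ x, S x * conj (S x) ∂μ := by
      rw [← integral_complex_ofReal]
      refine integral_congr_ae (Eventually.of_forall fun x => ?_)
      simp only
      rw [Complex.mul_conj, Complex.normSq_eq_norm_sq]
    have hint : ∀ m m' : κ → ℕ, Integrable (fun x => w m * e (cz m) x *
        conj (w m' * e (cz m') x)) μ := by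
      intro m m'
      refine Integrable.of_bound ?_ 1 (Eventually.of_forall fun x => ?_)
      · exact (((he _).const_mul _).mul
          (Complex.continuous_conj.measurable.comp ((he _).const_mul _))).aestronglyMeasurable
      · rw [norm_mul, RCLike.norm_conj, norm_mul, norm_mul]
        have a1 := hw1 m
        have a2 := he1 (cz m) x
        have a3 := hw1 m'
        have a4 := he1 (cz m') x
        exact mul_le_one₀ (mul_le_one₀ a1 (norm_nonneg _) a2) (by positivity)
          (mul_le_one₀ a3 (norm_nonneg _) a4)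
    have h4 : ∫ x, S x * conj (S x) ∂μ = ∑ m ∈ box M, ∑ m' ∈ box M,
        ∫ x, w m * e (cz m) x * conj (w m' * e (cz m') x) ∂μ := by
      simp only [hS, map_sum]
      simp_rw [Finset.sum_mul_sum]
      rw [integral_finsetSum _ fun m _ => integrable_finsetSum _ fun m' _ => hint m m']
      refine Finset.sum_congr rfl fun m _ => ?_
      rw [integral_finsetSum _ fun m' _ => hint m m']
    have h5 : ∀ m m' : κ → ℕ, ‖∫ x, w m * e (cz m) x * conj (w m' * e (cz m') x) ∂μ‖ ≤
        if cz m' ∉ B ∧ G (cz m') = G (cz m) then 1 else 0 := by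
      intro m m'
      by_cases hm' : cz m' ∈ B
      · have : w m' = 0 := by simp [hw, hm']
        simp [this, hm']
      · by_cases hG : G (cz m') = G (cz m)
        · rw [if_pos ⟨hm', hG⟩]
          refine (norm_integral_le_integral_norm _).trans ?_
          have : ∫ x, ‖w m * e (cz m) x * conj (w m' * e (cz m') x)‖ ∂μ ≤ ∫ _x, (1 : ℝ) ∂μ := by
            refine integral_mono (hint m m').norm (integrable_const _) fun x => ?_
            simp only
            rw [norm_mul, RCLike.norm_conj, norm_mul, norm_mul]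
            exact mul_le_one₀ (mul_le_one₀ (hw1 m) (norm_nonneg _) (he1 _ _)) (by positivity)
              (mul_le_one₀ (hw1 m') (norm_nonneg _) (he1 _ _))
          simpa using this
        · rw [if_neg fun h => hG h.2]
          have h6 : ∀ x, w m * e (cz m) x * conj (w m' * e (cz m') x) =
              (w m * conj (w m')) * (e (cz m) x * conj (e (cz m') x)) := by
            intro x
            rw [map_mul]
            ring
          simp_rw [h6]
          rw [integral_const_mul, horth _ _ fun h => hG h.symm, mul_zero, norm_zero]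
    have h6 : ‖∫ x, S x * conj (S x) ∂μ‖ ≤ Pm * (Pm * β) := by
      rw [h4]
      refine (norm_sum_le _ _).trans ?_
      have h7 : ∀ m ∈ box M, ‖∑ m' ∈ box M,
          ∫ x, w m * e (cz m) x * conj (w m' * e (cz m') x) ∂μ‖ ≤ Pm * β := by
        intro m _
        refine (norm_sum_le _ _).trans ((Finset.sum_le_sum fun m' _ => h5 m m').trans ?_)
        have h8 := hβ (G (cz m))
        unfold avg at h8
        rw [← hPm, inv_mul_le_iff₀ hP] at h8
        exact h8
      refine (Finset.sum_le_sum h7).trans ?_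
      rw [Finset.sum_const, nsmul_eq_mul, card_box]
      push_cast
      exact le_rfl
    rw [← h3, Complex.norm_real, Real.norm_eq_abs] at h6
    exact (le_abs_self _).trans h6
  have hintS : Integrable (fun x => ‖S x‖ ^ 2) μ := by
    refine Integrable.of_bound (hSm.norm.pow_const 2).aestronglyMeasurable (Pm ^ 2)
      (Eventually.of_forall fun x => ?_)
    rw [norm_pow, norm_norm]
    exact pow_le_pow_left₀ (norm_nonneg _) (hSb x) 2
  calc ∫ x, (avg M fun m => if cz m ∈ B then 0 else T (e (cz m) x)) ^ 2 ∂μ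
      ≤ ∫ x, Pm⁻¹ ^ 2 * ‖S x‖ ^ 2 ∂μ := by
        refine integral_mono_of_nonneg (Eventually.of_forall fun x => sq_nonneg _)
          (hintS.const_mul _) (Eventually.of_forall h1)
    _ = Pm⁻¹ ^ 2 * ∫ x, ‖S x‖ ^ 2 ∂μ := integral_const_mul _ _
    _ ≤ Pm⁻¹ ^ 2 * (Pm * (Pm * β)) := by gcongr
    _ = β := by field_simp

/-- Almost everywhere convergence of averages of orthogonal functions along a map with few
coincidences. -/
theorem orth_ae' [Nonempty κ] {N : Type*} {e : (κ → ℤ) → X → ℂ} (he : ∀ n, Measurable (e n))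
    (he1 : ∀ n x, ‖e n x‖ ≤ 1) (G : (κ → ℤ) → N)
    (horth : ∀ n n', G n ≠ G n' → ∫ x, e n x * conj (e n' x) ∂μ = 0) (D : ℕ) (h1 : ∀ ψ, LP (D + 1) {n | G n = ψ})
    (t₀ : κ → ℤ) (h2 : ∀ l, LP (D + 1) {n | G (Function.update n l (n l + t₀ l)) = G n})
    (h3 : ∀ l, ∃ n, G (Function.update n l (n l + t₀ l)) ≠ G n)
    {T : ℂ → ℝ} (hT : T = Complex.re ∨ T = Complex.im) :
    ∀ᵐ x ∂μ, Tendsto (fun M : κ → ℕ => avg M fun m => T (e (cz m) x)) atTop (𝓝 0) := by
  classical
  obtain ⟨B, hB⟩ : ∃ B : Set (κ → ℤ), B = {n | ∃ l, G (Function.update n l (n l + t₀ l)) = G n} :=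
    ⟨_, rfl⟩
  have hTm : Measurable T := by
    rcases hT with rfl | rfl
    · exact Complex.measurable_re
    · exact Complex.measurable_im
  have hT1 : ∀ z : ℂ, |T z| ≤ ‖z‖ := by
    rcases hT with rfl | rfl
    · exact Complex.abs_re_le_norm
    · exact Complex.abs_im_le_norm
  set u : (κ → ℕ) → X → ℝ := fun m x => if cz m ∈ B then 0 else T (e (cz m) x) with hu
  have hum : ∀ m, Measurable (u m) := by
    intro m
    by_cases h : cz m ∈ B
    · have : u m = fun _ => 0 := by funext x; simp [hu, h]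
      rw [this]
      exact measurable_const
    · have : u m = fun x => T (e (cz m) x) := by funext x; simp [hu, h]
      rw [this]
      exact hTm.comp (he _)
  have hu1 : ∀ m x, |u m x| ≤ 1 := by
    intro m x
    simp only [hu]
    split_ifs
    · simp
    · exact (hT1 _).trans (he1 _ _)
  have hul2 : ∀ M : κ → ℕ, (∀ l, 0 < M l) → ∀ l,
      ∫ x, (avg M fun m => u m x) ^ 2 ∂μ ≤ bt D (M l) := by
    intro M hM l
    have hBn : ∀ n : κ → ℤ, n ∉ B → ∃ t : ℤ, G (Function.update n l t) ≠ G n := by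
      intro n hn
      refine ⟨n l + t₀ l, fun h => hn ?_⟩
      rw [hB]
      exact ⟨l, h⟩
    have hfd := fun ψ => fibre_density h1 l hBn ψ M hM
    exact l2_bound' he he1 G horth B M hM hfd hT
  have hae := ae_tendsto hum hu1 D hul2
  -- the exceptional part
  have hbt : ∀ l : κ, Tendsto (fun M : κ → ℕ => bt D (M l)) atTop (𝓝 0) := by
    intro l
    unfold bt
    have h4 : Tendsto (fun N : ℕ => (N : ℝ) ^ (-(1 / 2 : ℝ) ^ D)) atTop (𝓝 0) :=
      (tendsto_rpow_neg_atTop (by positivity)).comp tendsto_natCast_atTop_atTop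
    have h5 := (h4.comp (tendsto_coord l)).const_mul 4
    rwa [mul_zero] at h5
  have hbad : Tendsto (fun M : κ → ℕ => avg M fun m => if cz m ∈ B then (1 : ℝ) else 0) atTop
      (𝓝 0) := by
    have h4 : Tendsto (fun M : κ → ℕ => ∑ _l : κ, ∑ l' : κ, bt D (M l')) atTop (𝓝 0) := by
      have h5 := tendsto_finsetSum (Finset.univ : Finset κ) fun l' _ => hbt l'
      rw [Finset.sum_const_zero] at h5
      have h6 := tendsto_finsetSum (Finset.univ : Finset κ) fun _ _ => h5
      rwa [Finset.sum_const_zero] at h6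
    refine squeeze_zero' (Eventually.of_forall fun M => avg_nonneg M fun m => by
      split_ifs <;> norm_num) ?_ h4
    filter_upwards [eventually_ge_atTop (fun _ => 1)] with M hM
    obtain ⟨Bl, hBl⟩ : ∃ Bl : κ → Set (κ → ℤ), Bl = fun l => {n | G (Function.update n l (n l + t₀ l)) =
      G n} := ⟨_, rfl⟩
    have h5 : ∀ l, avg M (fun m => if cz m ∈ Bl l then (1 : ℝ) else 0) ≤ ∑ l', bt D (M l') := by
      intro l
      obtain ⟨p, hp⟩ := h3 l
      refine density (Z := Bl l) (by rw [hBl]; exact h2 l) (p := p) (by rw [hBl]; exact hp) M hM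
    refine le_trans ?_ (Finset.sum_le_sum fun l _ => h5 l)
    unfold avg
    rw [← Finset.mul_sum, Finset.sum_comm]
    refine mul_le_mul_of_nonneg_left (Finset.sum_le_sum fun m _ => ?_) (inv_prod_nonneg M)
    split_ifs with h
    · rw [hB] at h
      obtain ⟨l, hl⟩ := h
      refine le_trans (le_of_eq ?_) (Finset.single_le_sum (f := fun l =>
        if cz m ∈ Bl l then (1 : ℝ) else 0)
        (fun l _ => by split_ifs <;> norm_num) (Finset.mem_univ l))
      have hl' : cz m ∈ Bl l := by rw [hBl]; exact hl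
      exact (if_pos hl').symm
    · exact Finset.sum_nonneg fun l _ => by split_ifs <;> norm_num
  filter_upwards [hae] with x hx
  have h4 : Tendsto (fun M : κ → ℕ => avg M fun m =>
      if cz m ∈ B then T (e (cz m) x) else 0) atTop (𝓝 0) := by
    refine squeeze_zero_norm (fun M => ?_) hbad
    rw [Real.norm_eq_abs]
    refine (abs_avg_le M _).trans (avg_mono M fun m => ?_)
    split_ifs
    · exact (hT1 _).trans (he1 _ _)
    · simp
  have h5 := hx.add h4
  rw [add_zero] at h5
  refine h5.congr fun M => ?_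
  rw [← avg_add]
  congr 1
  funext m
  simp only [hu]
  split_ifs <;> simp

end Pool.Agent.Lib.Pf720ae.Aff
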