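import Pool.Agent.Lib.Pf720ae.Aff.Phase
import Pool.Agent.Lib.Pf720ae.Aff.Orth
import Pool.Agent.Lib.Pf720ae.Aff.LinesPoly
import Pool.Agent.Lib.Pf720ae.Alg.Seq

/-!
# Averages of affine characters along exponential polynomial sequences
-/

set_option autoImplicit false
set_option linter.unusedSectionVars false

open Finset MeasureTheory Filter Topology
open scoped ENNReal ComplexConjugate
open Pool.Agent.Lib.Pf720ae.Alg (HasCube LP cz Cvg.of_restrict)

namespace Pool.Agent.Lib.Pf720ae.Aff

section module

variable {Λ : Type*} [AddCommGroup Λ] [Module.Finite ℤ Λ] {R : Type*} [CommRing R]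
  [IsNoetherianRing R] {N : Type*} [AddCommGroup N] [Module R N] [IsNoetherian R N]
  {J : Type*} [Fintype J]

/-- the values in a trivial submodule of exponential polynomial sequences are polynomial -/
theorem poly_of_trivial (u : Multiplicative Λ →* Rˣ) (C : Submodule R N)
    (hC : ∀ g, ∀ c ∈ C, u g • c = c) {V : Type*} [AddCommGroup V] {k : ℕ} :
    ∃ e' : ℕ, ∀ P : J → V → Λ, (∀ j, PD k (P j)) → ∀ χ : J → N, ∀ (ex : V →+ V)
      (h : ∀ n, ∑ j, u (Multiplicative.ofAdd (P j n)) • χ j -
        ∑ j, u (Multiplicative.ofAdd (P j (ex n))) • χ j ∈ C),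
      PD e' (fun n => (⟨_, h n⟩ : C)) := by
  set I : Ideal R := Ideal.span (Set.range fun g => ((u g : R) - 1)) with hI
  have hIC : ∀ r ∈ I, ∀ c ∈ C, r • c = 0 := by
    intro r hr c hc
    induction hr using Submodule.span_induction with
    | mem r hr =>
      obtain ⟨g, rfl⟩ := hr
      rw [sub_smul, one_smul, sub_eq_zero]
      exact hC g c hc
    | zero => rw [zero_smul]
    | add a b _ _ ha hb => rw [add_smul, ha, hb, add_zero]
    | smul a b _ hb => rw [smul_assoc, hb, smul_zero]
  obtain ⟨E, hE⟩ := Ideal.exists_pow_inf_eq_pow_smul I C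
  set S : Submodule R N := I ^ (E + 1) • ⊤ with hS
  have hSC : S ⊓ C = ⊥ := by
    rw [hS, hE (E + 1) (Nat.le_succ E), eq_bot_iff, Nat.add_sub_cancel_left, pow_one,
      Submodule.smul_le]
    intro r hr c hc
    rw [hIC r hr c hc.2]
    exact Submodule.zero_mem _
  have hM : I ^ (E + 1) • (⊤ : Submodule R (N ⧸ S)) = ⊥ := by
    rw [eq_bot_iff, Submodule.smul_le]
    intro r hr x _
    obtain ⟨x, rfl⟩ := Submodule.Quotient.mk_surjective _ x
    rw [Submodule.mem_bot, ← Submodule.Quotient.mk_smul, Submodule.Quotient.mk_eq_zero]
    exact Submodule.smul_mem_smul hr Submodule.mem_top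
  obtain ⟨e', he'⟩ := unip' (V := V) (M := N ⧸ S) u (I := I)
    (fun b => Ideal.subset_span ⟨_, rfl⟩) hM k
  refine ⟨e', fun P hP χ ex h => ?_⟩
  let φ : C →+ N ⧸ S := (S.mkQ.comp C.subtype).toAddMonoidHom
  have hφ : Function.Injective φ := by
    rw [injective_iff_map_eq_zero]
    intro c hc
    have h1 : (c : N) ∈ S := (Submodule.Quotient.mk_eq_zero S).1 hc
    have h2 : (c : N) ∈ S ⊓ C := ⟨h1, c.2⟩
    rw [hSC] at h2
    exact Subtype.ext h2
  refine PD.of_comp_hom φ hφ ?_
  have h1 : (fun n => φ (⟨_, h n⟩ : C)) =
      (∑ j, fun n => u (Multiplicative.ofAdd (P j n)) • S.mkQ (χ j)) -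
        ∑ j, fun n => u (Multiplicative.ofAdd (P j (ex n))) • S.mkQ (χ j) := by
    funext n
    change S.mkQ (∑ j, u (Multiplicative.ofAdd (P j n)) • χ j -
        ∑ j, u (Multiplicative.ofAdd (P j (ex n))) • χ j) = _
    rw [map_sub, map_sum, map_sum, Pi.sub_apply, Finset.sum_apply, Finset.sum_apply]
    rfl
  rw [h1]
  refine PD.sub (PD.sum _ fun j _ => he' _ (hP j) _) (PD.sum _ fun j _ => ?_)
  have h2 := (hP j).comp_affine ex 0
  simp only [add_zero] at h2
  exact he' _ h2 _

lemma Fp_mkQ {κ : Type} (u : Multiplicative Λ →* Rˣ) (C : Submodule R N)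
    (P : J → (κ → ℤ) → Λ) (χ : J → N) (n : κ → ℤ) :
    C.mkQ (Fp u P χ n) = Fp u P (fun j => C.mkQ (χ j)) n := by
  unfold Fp
  rw [map_sum]
  rfl

variable {X : Type*} [MeasurableSpace X] {μ : Measure X} [IsProbabilityMeasure μ]

/-- the averages of affine characters along exponential polynomial sequences converge -/
theorem aff_ae (htf : ∀ (n : ℕ) (a : Λ), 0 < n → n • a = 0 → a = 0)
    (u : Multiplicative Λ →* Rˣ) (C : Submodule R N)
    (hC : ∀ g, ∀ c ∈ C, u g • c = c) (κc : C →+ Additive Circle) {e : N → X → ℂ}
    (he : ∀ ψ, Measurable (e ψ)) (he1 : ∀ ψ x, ‖e ψ x‖ ≤ 1)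
    (heC : ∀ (ψ : N) (c : C) (x : X), e (ψ + c) x = cv (κc c) * e ψ x)
    (horth : ∀ ψ ψ', ψ - ψ' ∉ C → ∫ x, e ψ x * conj (e ψ' x) ∂μ = 0)
    {T : ℂ → ℝ} (hT : T = Complex.re ∨ T = Complex.im) (k : ℕ) (χ : J → N) (c : ℕ) :
    ∀ (κ : Type) [Fintype κ] [DecidableEq κ], Fintype.card κ = c →
      ∀ P : J → (κ → ℤ) → Λ, (∀ j, Nice k (P j)) →
        ∀ᵐ x ∂μ, Cvg fun m : κ → ℕ => T (e (Fp u P χ (cz m)) x) := by
  induction c using Nat.strong_induction_on with
  | _ c ih =>
    intro κ _ _ hcard P hP
    classical
    have hTc : Continuous T := by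
      rcases hT with rfl | rfl
      · exact Complex.continuous_re
      · exact Complex.continuous_im
    have hT0 : T 0 = 0 := by rcases hT with rfl | rfl <;> rfl
    have hTavg : ∀ (M : κ → ℕ) (Ψ : (κ → ℕ) → ℂ), T (cavg M Ψ) = avg M fun m => T (Ψ m) := by
      intro M Ψ
      rcases hT with rfl | rfl
      · exact cavg_re M Ψ
      · exact cavg_im M Ψ
    obtain ⟨D1, q1, hq10, hq1⟩ := exists_goodP (N := N ⧸ C) u (Option J) k
    obtain ⟨D2, q2, hq20, hq2⟩ := exists_goodP (N := N ⧸ C) u (J ⊕ J) k
    set q := q1 * q2 with hq
    have hq0 : 0 < q := Nat.mul_pos hq10 hq20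
    set D := max D1 D2 with hD
    have hg1 : GoodP (N ⧸ C) u (Option J) k (D + 1) q :=
      (hq1.mul q2).mono ((le_max_left _ _).trans (Nat.le_succ _))
    have hg2 : GoodP (N ⧸ C) u (J ⊕ J) k (D + 1) q := by
      rw [hq, mul_comm]
      exact (hq2.mul q1).mono ((le_max_right _ _).trans (Nat.le_succ _))
    have hmain : ∀ r : κ → ℕ, ∀ᵐ x ∂μ, Cvg fun m : κ → ℕ =>
        T (e (Fp u P χ ((q : ℤ) • cz m + cz r)) x) := by
      intro r
      set G : (κ → ℤ) → N := fun n => Fp u P χ ((q : ℤ) • n + cz r) with hG
      set Gb : (κ → ℤ) → N ⧸ C := fun n => Fp u P (fun j => C.mkQ (χ j)) ((q : ℤ) • n + cz r)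
        with hGb
      have hGGb : ∀ n, C.mkQ (G n) = Gb n := fun n => Fp_mkQ u C P χ _
      have hLP1 : ∀ ψ, LP (D + 1) {n | Gb n = ψ} := fun ψ =>
        LP_val htf hq0 hg1 P hP _ (cz r) ψ
      have hLP2 : ∀ l t₀, LP (D + 1) {n | Gb (Function.update n l (n l + t₀)) = Gb n} := fun l t₀ =>
        LP_dif htf hq0 hg2 P hP _ (cz r) l t₀
      by_cases hact : ∀ l : κ, ∃ (n : κ → ℤ) (t : ℤ), Gb (Function.update n l t) ≠ Gb n
      · -- all coordinates are active
        by_cases hne : Nonempty κ
        · choose n₀ t₀ ht₀ using hact
          have h1 := orth_ae' (μ := μ) (e := fun n x => e (G n) x) (fun n => he _)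
            (fun n x => he1 _ x) Gb (fun n n' hnn => horth _ _ fun hmem => hnn (by
              rw [← hGGb, ← hGGb, ← sub_eq_zero, ← map_sub]
              exact (Submodule.Quotient.mk_eq_zero C).2 hmem)) D hLP1
            (fun l => t₀ l - n₀ l l) (fun l => hLP2 l _) (fun l => ⟨n₀ l, by
              rw [add_sub_cancel]; exact ht₀ l⟩) hT
          filter_upwards [h1] with x hx
          exact ⟨0, hx⟩
        · rw [not_nonempty_iff] at hne
          refine Eventually.of_forall fun x => ?_
          refine (Cvg.const (T (e (G 0) x))).congr fun m => ?_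
          have : cz m = (0 : κ → ℤ) := Subsingleton.elim _ _
          rw [this]
      · push Not at hact
        obtain ⟨l₀, hl₀⟩ := hact
        set L : Finset κ := Finset.univ.filter fun l => ∃ (n : κ → ℤ) (t : ℤ),
          Gb (Function.update n l t) ≠ Gb n with hL
        have hl₀L : l₀ ∉ L := by
          intro h
          obtain ⟨n, t, hnt⟩ := (Finset.mem_filter.1 h).2
          exact hnt (hl₀ n t)
        have hinact : ∀ l ∉ L, ∀ n t, Gb (Function.update n l t) = Gb n := by
          intro l hl n t
          by_contra hne
          exact hl (Finset.mem_filter.2 ⟨Finset.mem_univ _, n, t, hne⟩)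
        let ex : (κ → ℤ) →+ (κ → ℤ) :=
          { toFun := fun n => mix L n 0
            map_zero' := by funext l; simp [mix]
            map_add' := by
              intro a b
              funext l
              simp only [mix, Pi.add_apply, Pi.zero_apply]
              split_ifs <;> simp }
        have hex : ∀ n, ex n = mix L n 0 := fun _ => rfl
        have hred : ∀ n : κ → ℤ, Gb (ex n) = Gb n := by
          intro n
          have key : ∀ s : Finset κ, (∀ l ∈ s, l ∉ L) →
              Gb (fun l => if l ∈ s then 0 else n l) = Gb n := by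
            intro s
            induction s using Finset.induction_on with
            | empty => intro _; simp
            | insert a s ha ih =>
              intro hs
              rw [← ih fun l hl => hs l (Finset.mem_insert_of_mem hl)]
              rw [← hinact a (hs a (Finset.mem_insert_self _ _))
                (fun l => if l ∈ s then 0 else n l) 0]
              congr 1
              funext l
              by_cases hl : l = a
              · subst hl; simp
              · simp [hl]
          rw [← key Lᶜ fun l hl => Finset.mem_compl.1 hl]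
          congr 1
          funext l
          simp only [hex, mix, Finset.mem_compl, Pi.zero_apply]
          by_cases hl : l ∈ L
          · simp [hl]
          · simp [hl]
        have hmem : ∀ n, G n - G (ex n) ∈ C := by
          intro n
          rw [← Submodule.Quotient.mk_eq_zero, Submodule.Quotient.mk_sub, sub_eq_zero]
          exact (hGGb n).trans ((hred n).symm.trans (hGGb _).symm)
        -- the phase
        obtain ⟨e', he'⟩ := poly_of_trivial (J := J) (V := κ → ℤ) (k := k) u C hC
        let ιq : (κ → ℤ) →+ (κ → ℤ) := (q : ℤ) • AddMonoidHom.id _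
        have hPD1 : PD e' (fun n => (⟨_, hmem n⟩ : C)) := by
          refine he' (fun j n => P j ((q : ℤ) • n + cz r)) (fun j => ?_) χ ex hmem
          exact (hP j).pd.comp_affine ιq (cz r)
        set θ : (κ → ℤ) → Additive Circle := fun n => κc (⟨_, hmem n⟩ : C) with hθ
        have hPD : PD e' θ := hPD1.comp_hom κc
        have heG : ∀ n x, e (G n) x = cv (θ n) * e (G (ex n)) x := by
          intro n x
          rw [← heC]
          congr 1
          change G n = G (ex n) + (G n - G (ex n))
          abel
        rcases phase_dichotomy L hPD with ⟨q', hq'0, hper⟩ | hB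
        · -- the phase is periodic in the inactive coordinates
          have hcos : ∀ s : κ → ℕ, ∀ᵐ x ∂μ, Cvg fun m : κ → ℕ => T (e (G (cz (q' • m + s))) x) := by
            intro s
            let ιL : ({l // l ∈ L} → ℤ) →+ (κ → ℤ) :=
              { toFun := fun v l => if h : l ∈ L then (q : ℤ) * (q' * v ⟨l, h⟩) else 0
                map_zero' := by funext l; simp
                map_add' := by
                  intro a b
                  funext l
                  simp only [Pi.add_apply]
                  split_ifs <;> ring }
            have hcardL : Fintype.card {l // l ∈ L} < c := by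
              rw [← hcard, Fintype.card_coe, ← Finset.card_univ]
              exact Finset.card_lt_card (Finset.ssubset_univ_iff.2 fun h =>
                hl₀L (h ▸ Finset.mem_univ l₀))
            have h1 := ih _ hcardL {l // l ∈ L} rfl
              (fun j v => P j (ιL v + ((q : ℤ) • cz s + cz r)))
              (fun j => (hP j).comp_affine ιL _)
            filter_upwards [h1] with x hx
            refine (Cvg.of_restrict L hx).congr fun m => ?_
            congr 1
            -- the point in the fixed class
            set n' : κ → ℤ := mix L (cz (q' • m + s)) (cz s) with hn'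
            have h2 : e (G (cz (q' • m + s))) x = e (G n') x := by
              rw [heG, heG n']
              have h3 : ex n' = ex (cz (q' • m + s)) := by
                rw [hex, hex]
                funext l
                simp only [hn', mix]
                split_ifs <;> rfl
              have h4 : θ (cz (q' • m + s)) = θ n' := by
                have h5 := hper n' (mix L 0 (cz m)) (fun l hl => by simp [mix, hl])
                rw [← h5]
                congr 1
                funext l
                simp only [hn', mix, cz, Pi.add_apply, Pi.smul_apply, Pi.zero_apply]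
                by_cases hl : l ∈ L
                · simp [hl]
                · simp [hl]; ring
              rw [h3, h4]
            rw [h2]
            have h3 : (q : ℤ) • n' + cz r =
                ιL (cz fun l : {l // l ∈ L} => m l) + ((q : ℤ) • cz s + cz r) := by
              funext l
              change (q : ℤ) • (mix L (cz (q' • m + s)) (cz s)) l + cz r l =
                (if h : l ∈ L then (q : ℤ) * (q' * (cz (fun l : {l // l ∈ L} => m l)) ⟨l, h⟩) else 0)
                  + ((q : ℤ) • cz s l + cz r l)
              simp only [mix, cz]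
              by_cases hl : l ∈ L
              · simp [hl]; ring
              · simp [hl]
            simp only [hG]
            rw [h3]
            rfl
          filter_upwards [ae_all_iff.2 hcos] with x hx
          have h1 : Cvg fun m : κ → ℕ => T (e (G (cz m)) x) := Cvg.of_cosets hq'0 hx
          exact h1
        · -- the phase averages out
          refine Eventually.of_forall fun x => ?_
          have h1 := hB (fun m => e (G (ex (cz m))) x) (fun m => he1 _ _) (fun m m' => by
            simp only [hex]
            congr 2
            rw [cz_mix]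
            funext l
            simp only [mix]
            split_ifs <;> rfl)
          have h2 := (hTc.tendsto 0).comp h1
          rw [hT0] at h2
          refine ⟨0, h2.congr fun M => ?_⟩
          rw [Function.comp_apply, hTavg]
          congr 1
          funext m
          rw [← heG]
    filter_upwards [ae_all_iff.2 hmain] with x hx
    refine Cvg.of_cosets hq0 fun c => (hx c).congr fun m => ?_
    have h2 : (q : ℤ) • cz m + cz c = cz (q • m + c) := by
      funext l
      simp [cz]
    rw [h2]

end module

end Pool.Agent.Lib.Pf720ae.Aff
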