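import Pool.Agent.Lib.Pf720ae.Aff.AffSeq

/-!
# Averages of affine characters, abstract version

The values `w j p` replace `u p • χ j`; the group generated need not be commutative.
-/

set_option autoImplicit false
set_option linter.unusedSectionVars false

open Finset MeasureTheory Filter Topology
open scoped ENNReal ComplexConjugate
open Pool.Agent.Lib.Pf720ae.Alg (HasCube LP cz Cvg.of_restrict)

namespace Pool.Agent.Lib.Pf720ae.Aff

section module

variable {Λ : Type*} [AddCommGroup Λ] [Module.Finite ℤ Λ] {R : Type*} [CommRing R]
  [IsNoetherianRing R] {N : Type*} [AddCommGroup N] [Module R N] [IsNoetherian R N]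
  {J : Type*} [Fintype J] {Γ Γ' : Type*} [AddCommGroup Γ] [AddCommGroup Γ']

/-- the sequence -/
def Fw {V : Type*} (w : J → Λ → Γ) (P : J → V → Λ) (n : V) : Γ := ∑ j, w j (P j n)

variable {X : Type*} [MeasurableSpace X] {μ : Measure X} [IsProbabilityMeasure μ]

/-- the averages of affine characters along exponential polynomial sequences converge -/
theorem aff_ae2 (htf : ∀ (n : ℕ) (a : Λ), 0 < n → n • a = 0 → a = 0)
    (u : Multiplicative Λ →* Rˣ) (χ : J → N) (w : J → Λ → Γ) (π : Γ →+ Γ') (ι : N →+ Γ')
    (hι : Function.Injective ι) (hw : ∀ j p, π (w j p) = ι (u (Multiplicative.ofAdd p) • χ j))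
    (κc : π.ker →+ Additive Circle) {e : Γ → X → ℂ}
    (he : ∀ ψ, Measurable (e ψ)) (he1 : ∀ ψ x, ‖e ψ x‖ ≤ 1)
    (heC : ∀ (ψ : Γ) (c : π.ker) (x : X), e (ψ + c) x = cv (κc c) * e ψ x)
    (horth : ∀ ψ ψ', π ψ ≠ π ψ' → ∫ x, e ψ x * conj (e ψ' x) ∂μ = 0)
    (hpoly : ∀ (V : Type) [AddCommGroup V] (k : ℕ), ∃ e' : ℕ, ∀ P : J → V → Λ,
      (∀ j, PD k (P j)) → ∀ (ex : V →+ V) (h : ∀ n, Fw w P n - Fw w P (ex n) ∈ π.ker),
      PD e' (fun n => (⟨_, h n⟩ : π.ker)))
    {T : ℂ → ℝ} (hT : T = Complex.re ∨ T = Complex.im) (k : ℕ) (c : ℕ) :
    ∀ (κ : Type) [Fintype κ] [DecidableEq κ], Fintype.card κ = c →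
      ∀ P : J → (κ → ℤ) → Λ, (∀ j, Nice k (P j)) →
        ∀ᵐ x ∂μ, Cvg fun m : κ → ℕ => T (e (Fw w P (cz m)) x) := by
  induction c using Nat.strong_induction_on with
  | _ c ih =>
    intro κ _ _ hcard P hP
    classical
    have hTc : Continuous T := by
      rcases hT with rfl | rfl
      · exact Complex.continuous_re
      · exact Complex.continuous_im
    have hT0 : T 0 = 0 := by rcases hT with rfl | rfl <;> rfl
    have hTavg : ∀ (M : κ → ℕ) (Ψ : (κ → ℕ) → ℂ), T (cavg M Ψ) = avg M fun m => T (Ψ m) := by
      intro M Ψ
      rcases hT with rfl | rfl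
      · exact cavg_re M Ψ
      · exact cavg_im M Ψ
    obtain ⟨D1, q1, hq10, hq1⟩ := exists_goodP (N := N) u (Option J) k
    obtain ⟨D2, q2, hq20, hq2⟩ := exists_goodP (N := N) u (J ⊕ J) k
    set q := q1 * q2 with hq
    have hq0 : 0 < q := Nat.mul_pos hq10 hq20
    set D := max D1 D2 with hD
    have hg1 : GoodP N u (Option J) k (D + 1) q :=
      (hq1.mul q2).mono ((le_max_left _ _).trans (Nat.le_succ _))
    have hg2 : GoodP N u (J ⊕ J) k (D + 1) q := by
      rw [hq, mul_comm]
      exact (hq2.mul q1).mono ((le_max_right _ _).trans (Nat.le_succ _))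
    have hmain : ∀ r : κ → ℕ, ∀ᵐ x ∂μ, Cvg fun m : κ → ℕ =>
        T (e (Fw w P ((q : ℤ) • cz m + cz r)) x) := by
      intro r
      set G : (κ → ℤ) → Γ := fun n => Fw w P ((q : ℤ) • n + cz r) with hG
      set Gb : (κ → ℤ) → N := fun n => Fp u P χ ((q : ℤ) • n + cz r) with hGb
      have hGGb : ∀ n, π (G n) = ι (Gb n) := by
        intro n
        simp only [hG, hGb, Fw, Fp, map_sum, hw]
      have hLP1 : ∀ ψ, LP (D + 1) {n | Gb n = ψ} := fun ψ =>
        LP_val htf hq0 hg1 P hP _ (cz r) ψ
      have hLP2 : ∀ l t₀, LP (D + 1) {n | Gb (Function.update n l (n l + t₀)) = Gb n} := fun l t₀ =>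
        LP_dif htf hq0 hg2 P hP _ (cz r) l t₀
      by_cases hact : ∀ l : κ, ∃ (n : κ → ℤ) (t : ℤ), Gb (Function.update n l t) ≠ Gb n
      · -- all coordinates are active
        by_cases hne : Nonempty κ
        · choose n₀ t₀ ht₀ using hact
          have h1 := orth_ae' (μ := μ) (e := fun n x => e (G n) x) (fun n => he _)
            (fun n x => he1 _ x) Gb (fun n n' hnn => horth _ _ fun heq => hnn (by
              rw [hGGb, hGGb] at heq
              exact hι heq)) D hLP1
            (fun l => t₀ l - n₀ l l) (fun l => hLP2 l _) (fun l => ⟨n₀ l, by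
              rw [add_sub_cancel]; exact ht₀ l⟩) hT
          filter_upwards [h1] with x hx
          exact ⟨0, hx⟩
        · rw [not_nonempty_iff] at hne
          refine Eventually.of_forall fun x => ?_
          refine (Cvg.const (T (e (G 0) x))).congr fun m => ?_
          have : cz m = (0 : κ → ℤ) := Subsingleton.elim _ _
          rw [this]
      · push Not at hact
        obtain ⟨l₀, hl₀⟩ := hact
        set L : Finset κ := Finset.univ.filter fun l => ∃ (n : κ → ℤ) (t : ℤ),
          Gb (Function.update n l t) ≠ Gb n with hL
        have hl₀L : l₀ ∉ L := by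
          intro h
          obtain ⟨n, t, hnt⟩ := (Finset.mem_filter.1 h).2
          exact hnt (hl₀ n t)
        have hinact : ∀ l ∉ L, ∀ n t, Gb (Function.update n l t) = Gb n := by
          intro l hl n t
          by_contra hne
          exact hl (Finset.mem_filter.2 ⟨Finset.mem_univ _, n, t, hne⟩)
        let ex : (κ → ℤ) →+ (κ → ℤ) :=
          { toFun := fun n => mix L n 0
            map_zero' := by funext l; simp [mix]
            map_add' := by
              intro a b
              funext l
              simp only [mix, Pi.add_apply, Pi.zero_apply]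
              split_ifs <;> simp }
        have hex : ∀ n, ex n = mix L n 0 := fun _ => rfl
        have hred : ∀ n : κ → ℤ, Gb (ex n) = Gb n := by
          intro n
          have key : ∀ s : Finset κ, (∀ l ∈ s, l ∉ L) →
              Gb (fun l => if l ∈ s then 0 else n l) = Gb n := by
            intro s
            induction s using Finset.induction_on with
            | empty => intro _; simp
            | insert a s ha ih =>
              intro hs
              rw [← ih fun l hl => hs l (Finset.mem_insert_of_mem hl)]
              rw [← hinact a (hs a (Finset.mem_insert_self _ _))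
                (fun l => if l ∈ s then 0 else n l) 0]
              congr 1
              funext l
              by_cases hl : l = a
              · subst hl; simp
              · simp [hl]
          rw [← key Lᶜ fun l hl => Finset.mem_compl.1 hl]
          congr 1
          funext l
          simp only [hex, mix, Finset.mem_compl, Pi.zero_apply]
          by_cases hl : l ∈ L
          · simp [hl]
          · simp [hl]
        have hmem : ∀ n, G n - G (ex n) ∈ π.ker := by
          intro n
          rw [AddMonoidHom.mem_ker, map_sub, hGGb, hGGb, hred, sub_self]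
        -- the phase
        obtain ⟨e', he'⟩ := hpoly (κ → ℤ) k
        let ιq : (κ → ℤ) →+ (κ → ℤ) := (q : ℤ) • AddMonoidHom.id _
        have hPD1 : PD e' (fun n => (⟨_, hmem n⟩ : π.ker)) := by
          refine he' (fun j n => P j ((q : ℤ) • n + cz r)) (fun j => ?_) ex hmem
          exact (hP j).pd.comp_affine ιq (cz r)
        set θ : (κ → ℤ) → Additive Circle := fun n => κc (⟨_, hmem n⟩ : π.ker) with hθ
        have hPD : PD e' θ := hPD1.comp_hom κc
        have heG : ∀ n x, e (G n) x = cv (θ n) * e (G (ex n)) x := by
          intro n x
          rw [← heC]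
          congr 1
          change G n = G (ex n) + (G n - G (ex n))
          abel
        rcases phase_dichotomy L hPD with ⟨q', hq'0, hper⟩ | hB
        · -- the phase is periodic in the inactive coordinates
          have hcos : ∀ s : κ → ℕ, ∀ᵐ x ∂μ, Cvg fun m : κ → ℕ => T (e (G (cz (q' • m + s))) x) := by
            intro s
            let ιL : ({l // l ∈ L} → ℤ) →+ (κ → ℤ) :=
              { toFun := fun v l => if h : l ∈ L then (q : ℤ) * (q' * v ⟨l, h⟩) else 0
                map_zero' := by funext l; simp
                map_add' := by
                  intro a b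
                  funext l
                  simp only [Pi.add_apply]
                  split_ifs <;> ring }
            have hcardL : Fintype.card {l // l ∈ L} < c := by
              rw [← hcard, Fintype.card_coe, ← Finset.card_univ]
              exact Finset.card_lt_card (Finset.ssubset_univ_iff.2 fun h =>
                hl₀L (h ▸ Finset.mem_univ l₀))
            have h1 := ih _ hcardL {l // l ∈ L} rfl
              (fun j v => P j (ιL v + ((q : ℤ) • cz s + cz r)))
              (fun j => (hP j).comp_affine ιL _)
            filter_upwards [h1] with x hx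
            refine (Cvg.of_restrict L hx).congr fun m => ?_
            congr 1
            -- the point in the fixed class
            set n' : κ → ℤ := mix L (cz (q' • m + s)) (cz s) with hn'
            have h2 : e (G (cz (q' • m + s))) x = e (G n') x := by
              rw [heG, heG n']
              have h3 : ex n' = ex (cz (q' • m + s)) := by
                rw [hex, hex]
                funext l
                simp only [hn', mix]
                split_ifs <;> rfl
              have h4 : θ (cz (q' • m + s)) = θ n' := by
                have h5 := hper n' (mix L 0 (cz m)) (fun l hl => by simp [mix, hl])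
                rw [← h5]
                congr 1
                funext l
                simp only [hn', mix, cz, Pi.add_apply, Pi.smul_apply, Pi.zero_apply]
                by_cases hl : l ∈ L
                · simp [hl]
                · simp [hl]; ring
              rw [h3, h4]
            rw [h2]
            have h3 : (q : ℤ) • n' + cz r =
                ιL (cz fun l : {l // l ∈ L} => m l) + ((q : ℤ) • cz s + cz r) := by
              funext l
              change (q : ℤ) • (mix L (cz (q' • m + s)) (cz s)) l + cz r l =
                (if h : l ∈ L then (q : ℤ) * (q' * (cz (fun l : {l // l ∈ L} => m l)) ⟨l, h⟩) else 0)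
                  + ((q : ℤ) • cz s l + cz r l)
              simp only [mix, cz]
              by_cases hl : l ∈ L
              · simp [hl]; ring
              · simp [hl]
            simp only [hG]
            rw [h3]
            rfl
          filter_upwards [ae_all_iff.2 hcos] with x hx
          have h1 : Cvg fun m : κ → ℕ => T (e (G (cz m)) x) := Cvg.of_cosets hq'0 hx
          exact h1
        · -- the phase averages out
          refine Eventually.of_forall fun x => ?_
          have h1 := hB (fun m => e (G (ex (cz m))) x) (fun m => he1 _ _) (fun m m' => by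
            simp only [hex]
            congr 2
            rw [cz_mix]
            funext l
            simp only [mix]
            split_ifs <;> rfl)
          have h2 := (hTc.tendsto 0).comp h1
          rw [hT0] at h2
          refine ⟨0, h2.congr fun M => ?_⟩
          rw [Function.comp_apply, hTavg]
          congr 1
          funext m
          rw [← heG]
    filter_upwards [ae_all_iff.2 hmain] with x hx
    refine Cvg.of_cosets hq0 fun c => (hx c).congr fun m => ?_
    have h2 : (q : ℤ) • cz m + cz c = cz (q • m + c) := by
      funext l
      simp [cz]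
    rw [h2]

end module

/-- filtered version of the unipotent lemma -/
theorem unipF {B M V : Type*} [AddCommGroup B] [AddCommGroup M] [AddCommGroup V]
    (β : B → M →+ M) (hβ0 : ∀ x, β 0 x = x) (hβ : ∀ b b' x, β (b + b') x = β b (β b' x))
    (Φ : ℕ → AddSubgroup M)
    (hβΦ : ∀ b i, ∀ x ∈ Φ i, β b x - x ∈ Φ (i + 1)) {E : ℕ} (hE : Φ E = ⊥) :
    ∀ (j i K e : ℕ), i + j = E → ∃ e' : ℕ, ∀ Q : V → B, PD K Q → ∀ y : V → M, PD e y →
      (∀ n, y n ∈ Φ i) → PD e' fun n => β (Q n) (y n) := by
  intro j
  induction j with
  | zero =>
    intro i K e hij
    refine ⟨0, fun Q _ y _ hy => ?_⟩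
    funext n
    have := hy n
    rw [show i = E by omega, hE, AddSubgroup.mem_bot] at this
    simp [this]
  | succ j ihj =>
    intro i K
    induction K with
    | zero =>
      intro e _
      refine ⟨e, fun Q hQ y hy _ => ?_⟩
      have h1 : (fun n => β (Q n) (y n)) = y := by
        funext n
        rw [show Q = 0 from hQ]
        exact hβ0 _
      rw [h1]
      exact hy
    | succ K ihK =>
      intro e
      induction e with
      | zero =>
        intro _
        refine ⟨0, fun Q _ y hy _ => ?_⟩
        funext n
        rw [show y = 0 from hy]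
        simp
      | succ e ihe =>
        intro hij
        obtain ⟨e₁, he₁⟩ := ihK (e + 1) hij
        obtain ⟨e₂, he₂⟩ := ihj (i + 1) (K + 1) (max e₁ (e + 1)) (by omega)
        obtain ⟨e₃, he₃⟩ := ihe hij
        refine ⟨max e₂ e₃ + 1, fun Q hQ y hy hyI h => ?_⟩
        have hyI' : ∀ n, y (n + h) ∈ Φ i := fun n => hyI _
        set z : V → M := fun n => β (df h Q n) (y (n + h)) - y (n + h) with hz
        have hz1 : PD (max e₁ (e + 1)) z :=
          ((he₁ (df h Q) (hQ h) (fun n => y (n + h)) (hy.shift h) hyI').mono
            (le_max_left _ _)).sub ((hy.shift h).mono (le_max_right _ _))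
        have hz2 : ∀ n, z n ∈ Φ (i + 1) := fun n => hβΦ _ _ _ (hyI' n)
        have h2 : df h (fun n => β (Q n) (y n)) =
            (fun n => β (Q n) (z n)) + fun n => β (Q n) (df h y n) := by
          funext n
          have h3 : Q (n + h) = Q n + df h Q n := by rw [df_apply]; abel
          simp only [Pi.add_apply, hz]
          rw [df_apply, h3, hβ, map_sub, df_apply h y, map_sub]
          abel
        rw [h2]
        refine PD.add ?_ ?_
        · exact (he₂ Q hQ z hz1 hz2).mono (le_max_left _ _)
        · refine (he₃ Q hQ (df h y) (hy h) fun n => ?_).mono (le_max_right _ _)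
          rw [df_apply]
          exact AddSubgroup.sub_mem _ (hyI _) (hyI _)

end Pool.Agent.Lib.Pf720ae.Aff
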