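import Pool.Agent.Lib.Pf720ae.Coset
import Pool.Agent.Lib.Pf720ae.Alg.AE

/-!
# Complex box averages and van der Corput's lemma
-/

set_option autoImplicit false
set_option linter.unusedSectionVars false

open Finset Filter Topology
open scoped ComplexConjugate

namespace Pool.Agent.Lib.Pf720ae.Aff

variable {κ : Type} [Fintype κ] [DecidableEq κ]

/-- complex box average -/
noncomputable def cavg (M : κ → ℕ) (Ψ : (κ → ℕ) → ℂ) : ℂ :=
  (∏ l, (M l : ℂ))⁻¹ * ∑ m ∈ box M, Ψ m

lemma cavg_eq (M : κ → ℕ) (Ψ : (κ → ℕ) → ℂ) :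
    cavg M Ψ = (((∏ l, (M l : ℝ))⁻¹ : ℝ) : ℂ) * ∑ m ∈ box M, Ψ m := by
  unfold cavg
  push_cast
  rfl

lemma cavg_re (M : κ → ℕ) (Ψ : (κ → ℕ) → ℂ) : (cavg M Ψ).re = avg M fun m => (Ψ m).re := by
  rw [cavg_eq, Complex.re_ofReal_mul, Complex.re_sum]
  rfl

lemma cavg_im (M : κ → ℕ) (Ψ : (κ → ℕ) → ℂ) : (cavg M Ψ).im = avg M fun m => (Ψ m).im := by
  rw [cavg_eq, Complex.im_ofReal_mul, Complex.im_sum]
  rfl

lemma cavg_add (M : κ → ℕ) (Φ Ψ : (κ → ℕ) → ℂ) :
    cavg M (fun m => Φ m + Ψ m) = cavg M Φ + cavg M Ψ := by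
  simp only [cavg, Finset.sum_add_distrib, mul_add]

lemma cavg_sub (M : κ → ℕ) (Φ Ψ : (κ → ℕ) → ℂ) :
    cavg M (fun m => Φ m - Ψ m) = cavg M Φ - cavg M Ψ := by
  simp only [cavg, Finset.sum_sub_distrib, mul_sub]

lemma cavg_smul (M : κ → ℕ) (c : ℂ) (Φ : (κ → ℕ) → ℂ) :
    cavg M (fun m => c * Φ m) = c * cavg M Φ := by
  simp only [cavg, ← Finset.mul_sum]; ring

lemma cavg_sum {ι : Type*} (s : Finset ι) (M : κ → ℕ) (Φ : ι → (κ → ℕ) → ℂ) :
    cavg M (fun m => ∑ i ∈ s, Φ i m) = ∑ i ∈ s, cavg M (Φ i) := by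
  simp only [cavg]
  rw [Finset.sum_comm, Finset.mul_sum]

lemma cavg_const {M : κ → ℕ} (hM : ∀ l, 0 < M l) (c : ℂ) : cavg M (fun _ => c) = c := by
  rw [cavg_eq, Finset.sum_const, card_box, nsmul_eq_mul, ← mul_assoc]
  have h := (prod_cast_pos hM).ne'
  have : (((∏ l, (M l : ℝ))⁻¹ : ℝ) : ℂ) * ((∏ l, M l : ℕ) : ℂ) = 1 := by
    rw [← Complex.ofReal_natCast, ← Complex.ofReal_mul]
    push_cast
    rw [inv_mul_cancel₀]
    exact_mod_cast h
  rw [this, one_mul]

lemma cavg_conj (M : κ → ℕ) (Ψ : (κ → ℕ) → ℂ) :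
    cavg M (fun m => conj (Ψ m)) = conj (cavg M Ψ) := by
  rw [cavg_eq, cavg_eq, map_mul, map_sum, Complex.conj_ofReal]

lemma norm_cavg_le (M : κ → ℕ) (Ψ : (κ → ℕ) → ℂ) : ‖cavg M Ψ‖ ≤ avg M fun m => ‖Ψ m‖ := by
  rw [cavg_eq, norm_mul, Complex.norm_real, Real.norm_eq_abs, abs_of_nonneg (inv_prod_nonneg M)]
  exact mul_le_mul_of_nonneg_left (norm_sum_le _ _) (inv_prod_nonneg M)

lemma avg_sq_le {M : κ → ℕ} (hM : ∀ l, 0 < M l) (g : (κ → ℕ) → ℝ) :
    (avg M g) ^ 2 ≤ avg M fun m => g m ^ 2 := by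
  have hP := prod_cast_pos hM
  unfold avg
  have h1 : (∑ m ∈ box M, g m) ^ 2 ≤ (∏ l, (M l : ℝ)) * ∑ m ∈ box M, g m ^ 2 := by
    have := sq_sum_le_card_mul_sum_sq (s := box M) (f := g)
    rw [card_box] at this
    push_cast at this
    exact this
  rw [mul_pow]
  calc ((∏ l, (M l : ℝ))⁻¹) ^ 2 * (∑ m ∈ box M, g m) ^ 2
      ≤ ((∏ l, (M l : ℝ))⁻¹) ^ 2 * ((∏ l, (M l : ℝ)) * ∑ m ∈ box M, g m ^ 2) := by gcongr
    _ = _ := by field_simp

lemma norm_cavg_sq_le {M : κ → ℕ} (hM : ∀ l, 0 < M l) (Ψ : (κ → ℕ) → ℂ) :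
    ‖cavg M Ψ‖ ^ 2 ≤ avg M fun m => ‖Ψ m‖ ^ 2 :=
  (pow_le_pow_left₀ (norm_nonneg _) (norm_cavg_le M Ψ) 2).trans (avg_sq_le hM _)

lemma tendsto_shift_err (R : ℝ) (h : κ → ℕ) :
    Tendsto (fun M : κ → ℕ => ∑ l, 2 * R * h l / M l) atTop (𝓝 0) := by
  have h1 : ∀ l : κ, Tendsto (fun M : κ → ℕ => 2 * R * h l / M l) atTop (𝓝 0) := by
    intro l
    have h2 : Tendsto (fun M : κ → ℕ => M l) atTop atTop := by
      rw [tendsto_atTop]
      intro b
      filter_upwards [eventually_ge_atTop (fun _ => b)] with M hM using hM l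
    exact (tendsto_const_div_atTop_nhds_zero_nat (2 * R * h l)).comp h2
  have h3 := tendsto_finsetSum (Finset.univ : Finset κ) fun l _ => h1 l
  rwa [Finset.sum_const_zero] at h3

/-- shifts do not change the averages of bounded functions in the limit -/
lemma cavg_shift {Ψ : (κ → ℕ) → ℂ} {R : ℝ} (hR : ∀ m, ‖Ψ m‖ ≤ R) (h : κ → ℕ) :
    Tendsto (fun M : κ → ℕ => cavg M (fun m => Ψ (m + h)) - cavg M Ψ) atTop (𝓝 0) := by
  have h1 := (tendsto_shift_err R h).add (tendsto_shift_err R h)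
  rw [add_zero] at h1
  refine squeeze_zero_norm' ?_ h1
  filter_upwards [eventually_pos] with M hM
  refine (Complex.norm_le_abs_re_add_abs_im _).trans (add_le_add ?_ ?_)
  · rw [Complex.sub_re, cavg_re, cavg_re]
    exact avg_shift M h (fun m => (Ψ m).re) (fun m => (Complex.abs_re_le_norm _).trans (hR m)) hM
  · rw [Complex.sub_im, cavg_im, cavg_im]
    exact avg_shift M h (fun m => (Ψ m).im) (fun m => (Complex.abs_im_le_norm _).trans (hR m)) hM

/-- van der Corput's lemma for boxes -/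
theorem vdc {a : (κ → ℕ) → ℂ} (ha : ∀ n, ‖a n‖ = 1) (l : κ)
    (h : ∀ i : ℕ, 0 < i → Tendsto (fun M : κ → ℕ => cavg M fun n =>
      a (n + Pi.single l i) * conj (a n)) atTop (𝓝 0)) :
    Tendsto (fun M : κ → ℕ => cavg M a) atTop (𝓝 0) := by
  -- correlations
  have hcor : ∀ i j : ℕ, i ≠ j → Tendsto (fun M : κ → ℕ => cavg M fun n =>
      a (n + Pi.single l i) * conj (a (n + Pi.single l j))) atTop (𝓝 0) := by
    have h1 : ∀ i j : ℕ, j < i → Tendsto (fun M : κ → ℕ => cavg M fun n =>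
        a (n + Pi.single l i) * conj (a (n + Pi.single l j))) atTop (𝓝 0) := by
      intro i j hij
      obtain ⟨t, rfl⟩ : ∃ t, i = t + 1 + j := ⟨i - j - 1, by omega⟩
      have h2 := cavg_shift (Ψ := fun n => a (n + Pi.single l (t + 1)) * conj (a n)) (R := 1)
        (fun m => by rw [norm_mul, RCLike.norm_conj, ha, ha, mul_one]) (Pi.single l j)
      have h3 := h2.add (h (t + 1) (Nat.succ_pos t))
      rw [add_zero] at h3
      refine h3.congr fun M => ?_
      rw [sub_add_cancel]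
      congr 1
      funext n
      rw [add_assoc n, ← Pi.single_add, add_comm j]
    intro i j hij
    rcases lt_or_gt_of_ne hij with hlt | hlt
    · have h2 := (Complex.continuous_conj.tendsto 0).comp (h1 j i hlt)
      rw [map_zero] at h2
      refine h2.congr fun M => ?_
      rw [Function.comp_apply, ← cavg_conj]
      congr 1
      funext n
      rw [map_mul, Complex.conj_conj, mul_comm]
    · exact h1 i j hlt
  rw [Metric.tendsto_nhds]
  intro ε hε
  obtain ⟨H, hH⟩ := exists_nat_one_div_lt (show 0 < (ε / 2) ^ 2 by positivity)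
  have hH0 : (0 : ℝ) < (H : ℝ) + 1 := by positivity
  set K : ℕ := H + 1 with hK
  have hKR : (K : ℝ) = H + 1 := by rw [hK]; push_cast; ring
  have hKC : (K : ℂ) ≠ 0 := by
    rw [hK]; exact_mod_cast Nat.succ_ne_zero H
  set b : (κ → ℕ) → ℂ := fun n => (K : ℂ)⁻¹ * ∑ i ∈ range K, a (n + Pi.single l i) with hb
  -- comparison of the averages of `a` and `b`
  have h1 : Tendsto (fun M : κ → ℕ => cavg M b - cavg M a) atTop (𝓝 0) := by
    have h2 := tendsto_finsetSum (range K) fun i _ =>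
      cavg_shift (Ψ := a) (R := 1) (fun m => (ha m).le) (Pi.single l i)
    rw [Finset.sum_const_zero] at h2
    have h3 := h2.const_mul ((K : ℂ)⁻¹)
    rw [mul_zero] at h3
    refine h3.congr fun M => ?_
    rw [hb, cavg_smul, cavg_sum, Finset.sum_sub_distrib, Finset.sum_const, card_range,
      nsmul_eq_mul, mul_sub, ← mul_assoc, inv_mul_cancel₀ hKC, one_mul]
  -- the mean square of `b`
  have h2 : Tendsto (fun M : κ → ℕ => avg M fun n => ‖b n‖ ^ 2) atTop (𝓝 ((K : ℝ)⁻¹)) := by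
    have h3 : Tendsto (fun M : κ → ℕ => cavg M fun n => b n * conj (b n)) atTop
        (𝓝 (((K : ℂ)⁻¹ * (K : ℂ)⁻¹) * ∑ i ∈ range K, ∑ j ∈ range K, if i = j then 1 else 0)) := by
      have h4 : ∀ i j : ℕ, Tendsto (fun M : κ → ℕ => cavg M fun n =>
          a (n + Pi.single l i) * conj (a (n + Pi.single l j))) atTop
            (𝓝 (if i = j then 1 else 0)) := by
        intro i j
        split_ifs with hij
        · subst hij
          refine tendsto_const_nhds.congr' ?_
          filter_upwards [eventually_pos] with M hM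
          have : (fun n : κ → ℕ => a (n + Pi.single l i) * conj (a (n + Pi.single l i))) =
              fun _ => 1 := by
            funext n
            rw [Complex.mul_conj, Complex.normSq_eq_norm_sq, ha]
            simp
          rw [this, cavg_const hM]
        · exact hcor i j hij
      have h5 := (tendsto_finsetSum (range K) fun i _ => tendsto_finsetSum (range K) fun j _ =>
        h4 i j).const_mul ((K : ℂ)⁻¹ * (K : ℂ)⁻¹)
      refine h5.congr fun M => ?_
      have h6 : (fun n => b n * conj (b n)) = fun n => ((K : ℂ)⁻¹ * (K : ℂ)⁻¹) *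
          ∑ i ∈ range K, ∑ j ∈ range K, a (n + Pi.single l i) * conj (a (n + Pi.single l j)) := by
        funext n
        simp only [hb]
        rw [map_mul, map_sum, ← Finset.sum_mul_sum, map_inv₀, Complex.conj_natCast]
        ring
      rw [h6, cavg_smul, cavg_sum]
      congr 1
      refine Finset.sum_congr rfl fun i _ => ?_
      rw [cavg_sum]
    have h4 := (Complex.continuous_re.tendsto _).comp h3
    have h5 : (((K : ℂ)⁻¹ * (K : ℂ)⁻¹) * ∑ i ∈ range K, ∑ j ∈ range K, if i = j then 1 else 0).re =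
        (K : ℝ)⁻¹ := by
      simp only [Finset.sum_ite_eq, Finset.mem_range]
      rw [Finset.sum_congr rfl fun i hi => if_pos (Finset.mem_range.1 hi), Finset.sum_const,
        card_range, nsmul_eq_mul, mul_one, mul_assoc, inv_mul_cancel₀ hKC, mul_one]
      rw [← Complex.ofReal_natCast, ← Complex.ofReal_inv, Complex.ofReal_re]
    rw [h5] at h4
    refine h4.congr fun M => ?_
    rw [Function.comp_apply, cavg_re]
    congr 1
    funext n
    rw [Complex.mul_conj, Complex.normSq_eq_norm_sq, Complex.ofReal_re]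
  have h3 : (K : ℝ)⁻¹ < (ε / 2) ^ 2 := by
    rw [hKR, ← one_div]; exact hH
  have h4 := h2.eventually_lt_const h3
  have h5 := (Metric.tendsto_nhds.1 h1) (ε / 2) (by positivity)
  filter_upwards [h4, h5, eventually_pos] with M hM1 hM2 hM3
  rw [dist_zero_right] at hM2 ⊢
  have h6 : ‖cavg M b‖ < ε / 2 :=
    lt_of_pow_lt_pow_left₀ 2 (by positivity) ((norm_cavg_sq_le hM3 b).trans_lt hM1)
  calc ‖cavg M a‖ = ‖cavg M b - (cavg M b - cavg M a)‖ := by congr 1; ring
    _ ≤ ‖cavg M b‖ + ‖cavg M b - cavg M a‖ := norm_sub_le _ _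
    _ < ε / 2 + ε / 2 := add_lt_add h6 hM2
    _ = ε := by ring

/-- averages tend to zero if they do so along all cosets -/
lemma cavg_zero_of_cosets {N : ℕ} (hN : 0 < N) {u : (κ → ℕ) → ℂ}
    (h : ∀ c : κ → ℕ, Tendsto (fun M : κ → ℕ => cavg M fun p => u (N • p + c)) atTop (𝓝 0)) :
    Tendsto (fun M : κ → ℕ => cavg M u) atTop (𝓝 0) := by
  have hreal : ∀ v : (κ → ℕ) → ℝ, (∀ c : κ → ℕ, Tendsto (fun M : κ → ℕ => avg M fun p =>
      v (N • p + c)) atTop (𝓝 0)) → Tendsto (fun M : κ → ℕ => avg M v) atTop (𝓝 0) := by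
    intro v hv
    have h1 : ∀ c : κ → ℕ, Tendsto (fun M : κ → ℕ => (∏ l, (cs N (c l) (M l) : ℝ) / M l) *
        avg (fun l => cs N (c l) (M l)) (fun p => v (N • p + c))) atTop
        (𝓝 ((∏ _l : κ, (N : ℝ)⁻¹) * 0)) := by
      intro c
      refine Tendsto.mul ?_ ((hv c).comp (cs_tendsto hN c))
      refine tendsto_finsetProd _ fun l _ => ?_
      have h2 : Tendsto (fun M : κ → ℕ => M l) atTop atTop := by
        rw [tendsto_atTop]
        intro b
        filter_upwards [eventually_ge_atTop (fun _ => b)] with M hM using hM l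
      exact (cs_ratio hN (c l)).comp h2
    have h2 := tendsto_finsetSum (box (fun _ : κ => N)) fun c _ => h1 c
    simp only [mul_zero, Finset.sum_const_zero] at h2
    refine h2.congr' ?_
    have h3 : ∀ c : κ → ℕ, ∀ᶠ M : κ → ℕ in atTop, ∀ l, 0 < cs N (c l) (M l) := fun c =>
      (cs_tendsto hN c).eventually eventually_pos
    have h4 : ∀ᶠ M : κ → ℕ in atTop, ∀ c ∈ box (fun _ : κ => N), ∀ l, 0 < cs N (c l) (M l) :=
      (Finset.eventually_all _).2 fun c _ => h3 c
    filter_upwards [h4] with M hM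
    have h6 : avg M v = ∑ c ∈ box (fun _ : κ => N), (∏ l, (M l : ℝ))⁻¹ *
        ∑ p ∈ box (fun l => cs N (c l) (M l)), v (N • p + c) := by
      unfold avg
      rw [sum_box_coset hN, Finset.mul_sum]
    rw [h6]
    refine Finset.sum_congr rfl fun c hc => ?_
    unfold avg
    have h5 : (∏ l, (cs N (c l) (M l) : ℝ)) ≠ 0 := by
      refine Finset.prod_ne_zero_iff.2 fun l _ => ?_
      exact_mod_cast (hM c hc l).ne'
    rw [Finset.prod_div_distrib, div_eq_mul_inv]
    field_simp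
  have hre := hreal (fun m => (u m).re) fun c => by
    have h1 := (Complex.continuous_re.tendsto _).comp (h c)
    rw [Complex.zero_re] at h1
    exact h1.congr fun M => by rw [Function.comp_apply, cavg_re]
  have him := hreal (fun m => (u m).im) fun c => by
    have h1 := (Complex.continuous_im.tendsto _).comp (h c)
    rw [Complex.zero_im] at h1
    exact h1.congr fun M => by rw [Function.comp_apply, cavg_im]
  refine squeeze_zero_norm (a := fun M => |avg M fun m => (u m).re| + |avg M fun m => (u m).im|)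
    (fun M => ?_) ?_
  · refine (Complex.norm_le_abs_re_add_abs_im _).trans ?_
    rw [cavg_re, cavg_im]
  · have := hre.abs.add him.abs
    simpa using this

end Pool.Agent.Lib.Pf720ae.Aff
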