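import Pool.Agent.Lib.Pf720ae.Aff.Nil
import Pool.Agent.Lib.Pf720ae.Alg.Main

/-!
# Affine characters and groups of affine homeomorphisms
-/

set_option autoImplicit false
set_option linter.unusedSectionVars false

open Finset MeasureTheory Filter Topology
open scoped ENNReal ComplexConjugate commutatorElement
open Pool.Agent.Lib.Pf720ae.Alg (LR dualHom dualHom_apply cz)

namespace Pool.Agent.Lib.Pf720ae.Aff

variable {X : Type} [CommGroup X] [TopologicalSpace X]

/-- the group of affine homeomorphisms -/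
def affc (X : Type) [CommGroup X] [TopologicalSpace X] : Subgroup (Equiv.Perm X) where
  carrier := {σ | Continuous σ ∧ Continuous σ.symm ∧ ∀ x y, σ (x * y) * σ 1 = σ x * σ y}
  mul_mem' := by
    rintro σ τ ⟨h1, h2, h3⟩ ⟨h4, h5, h6⟩
    refine ⟨h1.comp h4, h5.comp h2, fun x y => ?_⟩
    change σ (τ (x * y)) * σ (τ 1) = σ (τ x) * σ (τ y)
    rw [← h3, h6, h3]
  one_mem' := ⟨continuous_id, continuous_id, fun x y => mul_one _⟩
  inv_mem' := by
    rintro σ ⟨h1, h2, h3⟩
    refine ⟨h2, h1, fun x y => ?_⟩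
    change σ.symm (x * y) * σ.symm 1 = σ.symm x * σ.symm y
    apply σ.injective
    apply mul_right_cancel (b := σ 1)
    rw [h3, h3, σ.apply_symm_apply, σ.apply_symm_apply, σ.apply_symm_apply, σ.apply_symm_apply,
      mul_one]

lemma affc_mul (σ : affc X) (x y : X) : (σ : Equiv.Perm X) (x * y) * (σ : Equiv.Perm X) 1 =
    (σ : Equiv.Perm X) x * (σ : Equiv.Perm X) y := σ.2.2.2 x y

variable [IsTopologicalGroup X]

/-- the linear part -/
def linf (σ : affc X) : X →ₜ* X where
  toFun x := (σ : Equiv.Perm X) x / (σ : Equiv.Perm X) 1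
  map_one' := div_self' _
  map_mul' x y := by
    rw [div_mul_div_comm, ← affc_mul, mul_div_mul_right_eq_div]
  continuous_toFun := σ.2.1.div_const _

lemma linf_apply (σ : affc X) (x : X) :
    linf σ x = (σ : Equiv.Perm X) x / (σ : Equiv.Perm X) 1 := rfl

lemma linf_one (x : X) : linf (1 : affc X) x = x := by
  rw [linf_apply]
  exact div_one x

lemma linf_mul (σ τ : affc X) (x : X) : linf (σ * τ) x = linf σ (linf τ x) := by
  rw [linf_apply, linf_apply, linf_apply]
  change (σ : Equiv.Perm X) ((τ : Equiv.Perm X) x) / (σ : Equiv.Perm X) ((τ : Equiv.Perm X) 1) = _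
  rw [div_eq_div_iff_mul_eq_mul, ← affc_mul σ (_ / _), div_mul_cancel]

/-- linear parts as permutations -/
def linP : affc X →* Equiv.Perm X :=
  MonoidHom.toHomPerm
    { toFun := fun σ => (linf σ : X → X)
      map_one' := funext fun x => linf_one x
      map_mul' := fun σ τ => funext fun x => linf_mul σ τ x }

lemma linP_apply (σ : affc X) (x : X) : linP σ x = linf σ x := rfl

/-- affine characters -/
abbrev Gam (X : Type) [CommGroup X] [TopologicalSpace X] : Type := Additive (Circle × (X →ₜ* Circle))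

/-- evaluation -/
noncomputable def evg (ψ : Gam X) (x : X) : Circle := ψ.toMul.1 * ψ.toMul.2 x

/-- composition with an affine homeomorphism -/
noncomputable def pull (σ : affc X) : AddMonoid.End (Gam X) where
  toFun ψ := Additive.ofMul (ψ.toMul.1 * ψ.toMul.2 ((σ : Equiv.Perm X) 1),
    ψ.toMul.2.comp (linf σ))
  map_zero' := by
    apply Additive.toMul.injective
    refine Prod.ext ?_ rfl
    exact one_mul _
  map_add' a b := by
    apply Additive.toMul.injective
    refine Prod.ext ?_ rfl
    exact mul_mul_mul_comm _ _ _ _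

lemma evg_pull (σ : affc X) (ψ : Gam X) (x : X) :
    evg (pull σ ψ) x = evg ψ ((σ : Equiv.Perm X) x) := by
  change ψ.toMul.1 * ψ.toMul.2 ((σ : Equiv.Perm X) 1) * ψ.toMul.2 (linf σ x) = _
  rw [mul_assoc, ← map_mul, linf_apply, mul_div_cancel]
  rfl

lemma evg_ext {ψ ψ' : Gam X} (h : ∀ x, evg ψ x = evg ψ' x) : ψ = ψ' := by
  have h1 : ψ.toMul.1 = ψ'.toMul.1 := by
    have := h 1
    unfold evg at this
    rwa [map_one, map_one, mul_one, mul_one] at this
  apply Additive.toMul.injective
  refine Prod.ext h1 (ContinuousMonoidHom.ext fun x => ?_)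
  have := h x
  unfold evg at this
  rw [h1] at this
  exact mul_left_cancel this

/-- composition as a homomorphism -/
noncomputable def pullHom : (affc X)ᵐᵒᵖ →* AddMonoid.End (Gam X) where
  toFun σ := pull σ.unop
  map_one' := by
    refine AddMonoidHom.ext fun ψ => evg_ext fun x => ?_
    exact evg_pull _ _ _
  map_mul' a b := by
    refine AddMonoidHom.ext fun ψ => evg_ext fun x => ?_
    refine (evg_pull _ _ _).trans ?_
    change _ = evg (pull a.unop (pull b.unop ψ)) x
    rw [evg_pull, evg_pull]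
    rfl

lemma pull_mul (σ τ : affc X) (ψ : Gam X) : pull (σ * τ) ψ = pull τ (pull σ ψ) := by
  refine evg_ext fun x => ?_
  rw [evg_pull, evg_pull, evg_pull]
  rfl

lemma pull_one (ψ : Gam X) : pull 1 ψ = ψ := by
  refine evg_ext fun x => ?_
  rw [evg_pull]
  rfl

/-- composition as a unit -/
noncomputable def pullU (σ : affc X) : (AddMonoid.End (Gam X))ˣ :=
  pullHom.toHomUnits (MulOpposite.op σ)

lemma pullU_zpow (σ : affc X) (z : ℤ) :
    ((pullU σ ^ z : (AddMonoid.End (Gam X))ˣ) : AddMonoid.End (Gam X)) = pull (σ ^ z) := by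
  unfold pullU
  rw [← map_zpow, ← MulOpposite.op_zpow]
  rfl

lemma pullU_val (σ : affc X) : ((pullU σ : (AddMonoid.End (Gam X))ˣ) : AddMonoid.End (Gam X)) =
    pull σ := rfl

/-- the linear part of an affine character -/
noncomputable def prg : Gam X →+ Additive (X →ₜ* Circle) := MonoidHom.toAdditive (MonoidHom.snd _ _)

lemma prg_pull (σ : affc X) (ψ : Gam X) :
    prg (pull σ ψ) = Additive.ofMul ((prg ψ).toMul.comp (linf σ)) := rfl

variable {d : ℕ}

lemma wl_eq (T : Fin d → affc X) (p : Fin d → ℤ) (ψ : Gam X) :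
    wl (fun i => pullU (T i)) (List.finRange d) p ψ = pull (oprod T p) ψ := by
  have key : ∀ (l : List (Fin d)) (ψ : Gam X), wl (fun i => pullU (T i)) l p ψ =
      pull ((l.map fun i => T i ^ p i).prod) ψ := by
    intro l
    induction l with
    | nil =>
      intro ψ
      rw [List.map_nil, List.prod_nil, pull_one]
      rfl
    | cons i l ih =>
      intro ψ
      rw [List.map_cons, List.prod_cons, pull_mul, ← ih]
      rw [← pullU_zpow]
      rfl
  rw [key]
  unfold oprod
  rw [List.ofFn_eq_map]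

section nilp

/-- translations in the terms of the lower central series -/
def Bset (H : Subgroup (Equiv.Perm X)) (r : ℕ) : Set X :=
  {b | Equiv.mulLeft b ∈ H.lowerCentralSeries r}

lemma Bset_succ {H : Subgroup (Equiv.Perm X)} {r : ℕ} {b : X} (hb : b ∈ Bset H r) (t : affc X)
    (ht : (t : Equiv.Perm X) ∈ H) : linf t b / b ∈ Bset H (r + 1) := by
  have h1 : ⁅Equiv.mulLeft b, (t : Equiv.Perm X)⁆ = Equiv.mulLeft (b / linf t b) := by
    refine Equiv.ext fun x => ?_
    change b * (t : Equiv.Perm X) (b⁻¹ * ((t : Equiv.Perm X)⁻¹ x)) = b / linf t b * x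
    have h2 := affc_mul t b⁻¹ ((t : Equiv.Perm X)⁻¹ x)
    have h3 : (t : Equiv.Perm X) ((t : Equiv.Perm X)⁻¹ x) = x :=
      Equiv.apply_symm_apply (t : Equiv.Perm X) x
    rw [h3] at h2
    have h4 := affc_mul t b⁻¹ b
    rw [inv_mul_cancel] at h4
    rw [linf_apply]
    have h5 : (t : Equiv.Perm X) (b⁻¹ * ((t : Equiv.Perm X)⁻¹ x)) =
        (t : Equiv.Perm X) b⁻¹ * x / (t : Equiv.Perm X) 1 := eq_div_of_mul_eq' h2
    have h6 : (t : Equiv.Perm X) b⁻¹ =
        (t : Equiv.Perm X) 1 * (t : Equiv.Perm X) 1 / (t : Equiv.Perm X) b :=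
      eq_div_of_mul_eq' h4.symm
    rw [h5, h6]
    generalize (t : Equiv.Perm X) 1 = a
    generalize (t : Equiv.Perm X) b = c
    simp only [div_eq_mul_inv, mul_inv_rev, inv_inv]
    calc b * (a * a * c⁻¹ * x * a⁻¹) = b * (a * c⁻¹) * x * (a * a⁻¹) := by
          simp only [mul_assoc, mul_comm, mul_left_comm]
      _ = b * (a * c⁻¹) * x := by rw [mul_inv_cancel, mul_one]
  have h2 : (⁅Equiv.mulLeft b, (t : Equiv.Perm X)⁆)⁻¹ = Equiv.mulLeft (linf t b / b) := by
    rw [h1]
    refine Equiv.ext fun x => ?_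
    change (b / linf t b)⁻¹ * x = linf t b / b * x
    rw [inv_div]
  change Equiv.mulLeft (linf t b / b) ∈ H.lowerCentralSeries (r + 1)
  rw [← h2, Subgroup.lowerCentralSeries_succ]
  exact Subgroup.inv_mem _ (Subgroup.commutator_mem_commutator hb ht)

end nilp

end Pool.Agent.Lib.Pf720ae.Aff
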