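import Pool.Agent.Lib.Pf720ae.Aff.Mixed

/-!
# Multiple polynomial averages for affine maps of compact abelian groups
-/

set_option autoImplicit false
set_option linter.unusedSectionVars false

open Finset MeasureTheory Filter Topology
open scoped ENNReal ComplexConjugate
open Pool.Agent.Lib.Pf720ae.Alg (cz integral_char)

namespace Pool.Agent.Lib.Pf720ae.Aff

section lift

variable {κ : Type} [Fintype κ] [DecidableEq κ]
variable {X : Type} [MeasurableSpace X] {μ : Measure X} [IsProbabilityMeasure μ]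

/-- Lifting to complex functions. -/
theorem lift_gen {J : Type} [Fintype J] [DecidableEq J] (U : J → (κ → ℕ) → X → X)
    (hU : ∀ j m, MeasurePreserving (U j m) μ μ) (f : J → X → ℂ) (C : J → ℝ)
    (F : J → Fin 2 → X → ℝ)
    (hFe : ∀ j, ∀ᵐ x ∂μ, f j x = (C j : ℂ) * ((F j 0 x : ℂ) + (F j 1 x : ℂ) * Complex.I))
    (h : ∀ e : J → Fin 2, ∀ᵐ x ∂μ, Cvg fun m => ∏ j, F j (e j) (U j m x)) :
    ∀ᵐ x ∂μ, ∃ L : ℂ, Tendsto (fun M : κ → ℕ => (∏ l, (M l : ℂ))⁻¹ *
      ∑ m ∈ Fintype.piFinset (fun l => Finset.range (M l)), ∏ j, f j (U j m x)) atTop (𝓝 L) := by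
  have hall : ∀ᵐ x ∂μ, ∀ e : J → Fin 2, Cvg fun m => ∏ j, F j (e j) (U j m x) :=
    ae_all_iff.2 h
  have hrep : ∀ᵐ x ∂μ, ∀ j m, f j (U j m x)
      = (C j : ℂ) * ((F j 0 (U j m x) : ℂ) + (F j 1 (U j m x) : ℂ) * Complex.I) := by
    simp only [ae_all_iff]
    exact fun j m => (hU j m).quasiMeasurePreserving.ae (hFe j)
  filter_upwards [hall, hrep] with x hx hr
  choose L hL using hx
  set w : J → Fin 2 → ℂ := fun j i => (C j : ℂ) * ![1, Complex.I] i with hw
  have hprod : ∀ m, ∏ j, f j (U j m x)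
      = ∑ e : J → Fin 2, (∏ j, w j (e j)) * ((∏ j, F j (e j) (U j m x) : ℝ) : ℂ) := by
    intro m
    have h1 : ∀ j, f j (U j m x) = ∑ i : Fin 2, w j i * (F j i (U j m x) : ℂ) := by
      intro j
      rw [hr j m, Fin.sum_univ_two]
      simp only [hw, Matrix.cons_val_zero, Matrix.cons_val_one]
      ring
    simp_rw [h1]
    rw [Finset.prod_univ_sum]
    simp only [Finset.prod_mul_distrib, Complex.ofReal_prod, Fintype.piFinset_univ]
  refine ⟨∑ e : J → Fin 2, (∏ j, w j (e j)) * (L e : ℂ), ?_⟩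
  have h2 : ∀ e : J → Fin 2, Tendsto (fun M : κ → ℕ => (∏ j, w j (e j)) *
      ((avg M fun m => ∏ j, F j (e j) (U j m x) : ℝ) : ℂ)) atTop
      (𝓝 ((∏ j, w j (e j)) * (L e : ℂ))) := by
    intro e
    exact ((Complex.continuous_ofReal.tendsto _).comp (hL e)).const_mul _
  have h3 := tendsto_finsetSum (Finset.univ : Finset (J → Fin 2)) fun e _ => h2 e
  refine h3.congr fun M => ?_
  simp only [hprod]
  rw [Finset.sum_comm, Finset.mul_sum]
  refine Finset.sum_congr rfl fun e _ => ?_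
  unfold avg box
  push_cast
  rw [Finset.mul_sum, Finset.mul_sum, Finset.mul_sum]
  refine Finset.sum_congr rfl fun m _ => ?_
  ring

end lift

variable {X : Type} [CommGroup X] [TopologicalSpace X] [IsTopologicalGroup X] [CompactSpace X]
  [T2Space X] [MeasurableSpace X] [BorelSpace X] {μ : Measure X} [IsProbabilityMeasure μ]

/-- Riemann integrable complex functions -/
def RI (μ : Measure X) (f : X → ℂ) : Prop :=
  ∀ ε > 0, ∃ (g : C(X, ℂ)) (h : C(X, ℝ)), (∀ x, ‖f x - g x‖ ≤ h x) ∧ ∫ x, h x ∂μ < ε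

lemma RI.rep {f : X → ℂ} (hf : RI μ f) : ∃ (C : ℝ) (F : Fin 2 → X → ℝ),
    (∀ i x, |F i x| ≤ 1) ∧ (∀ i, Riem μ (F i)) ∧
      ∀ x, f x = (C : ℂ) * ((F 0 x : ℂ) + (F 1 x : ℂ) * Complex.I) := by
  obtain ⟨g, h, hgh, -⟩ := hf 1 one_pos
  set C : ℝ := max (‖g‖ + ‖h‖) 1 with hC
  have hCpos : 0 < C := lt_of_lt_of_le one_pos (le_max_right _ _)
  have hC1 : 1 ≤ C := le_max_right _ _
  have hfC : ∀ x, ‖f x‖ ≤ C := by
    intro x
    have h1 : ‖f x‖ ≤ ‖f x - g x‖ + ‖g x‖ := by
      have := norm_add_le (f x - g x) (g x)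
      rwa [sub_add_cancel] at this
    have h2 : h x ≤ ‖h‖ := (le_abs_self _).trans (h.norm_coe_le_norm x)
    have h3 : ‖g x‖ ≤ ‖g‖ := g.norm_coe_le_norm x
    have h4 := hgh x
    exact le_trans (by linarith) (le_max_left _ _)
  have hdiv : ∀ t : ℝ, |t| ≤ C → |t / C| ≤ 1 := by
    intro t ht
    rw [abs_div, abs_of_pos hCpos]
    exact (div_le_one hCpos).2 ht
  have hR : ∀ (p : ℂ → ℝ), Continuous p → (∀ z w, |p z - p w| ≤ ‖z - w‖) →
      Riem μ (fun x => p (f x) / C) := by
    intro p hp hp1 ε hε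
    obtain ⟨g', h', hgh', hh'⟩ := hf ε hε
    refine ⟨⟨fun x => p (g' x) / C, (hp.comp g'.continuous).div_const C⟩, h', fun x => ?_, hh'⟩
    change |p (f x) / C - p (g' x) / C| ≤ h' x
    rw [← sub_div, abs_div, abs_of_pos hCpos]
    refine (div_le_self (abs_nonneg _) hC1).trans ?_
    exact (hp1 _ _).trans (hgh' x)
  refine ⟨C, ![fun x => (f x).re / C, fun x => (f x).im / C], ?_, ?_, ?_⟩
  · intro i x
    fin_cases i
    · exact hdiv _ ((Complex.abs_re_le_norm _).trans (hfC x))
    · exact hdiv _ ((Complex.abs_im_le_norm _).trans (hfC x))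
  · intro i
    fin_cases i
    · exact hR Complex.re Complex.continuous_re fun z w => by
        rw [← Complex.sub_re]; exact Complex.abs_re_le_norm _
    · exact hR Complex.im Complex.continuous_im fun z w => by
        rw [← Complex.sub_im]; exact Complex.abs_im_le_norm _
  · intro x
    change f x = (C : ℂ) * ((((f x).re / C : ℝ) : ℂ) + (((f x).im / C : ℝ) : ℂ) * Complex.I)
    have hC0 : (C : ℂ) ≠ 0 := Complex.ofReal_ne_zero.2 hCpos.ne'
    rw [Complex.ofReal_div, Complex.ofReal_div, mul_add, mul_div_cancel₀ _ hC0, ← mul_assoc,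
      mul_div_cancel₀ _ hC0]
    exact (Complex.re_add_im _).symm

/-- The theorem on affine actions. -/
theorem thmAff (d k n : ℕ) [μ.IsHaarMeasure] [μ.Regular]
    (hsep : ∀ x : X, x ≠ 1 → ∃ χ : X →ₜ* Circle, χ x ≠ 1)
    (T : Fin d → Equiv.Perm X) (hTc : ∀ i, Continuous (T i)) (a : Fin d → X) (α : Fin d → X →* X)
    (hTα : ∀ i x, T i x = a i * α i x) (hα : ∀ i i' x, α i (α i' x) = α i' (α i x))
    (hnil : Group.IsNilpotent (Subgroup.closure (Set.range T)))
    (P : Fin d → Fin n → MvPolynomial (Fin k) ℤ) (f : Fin n → X → ℂ)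
    (hf : ∀ j, RI μ (f j) ∨ (MemLp (f j) ⊤ μ ∧ (∀ i, (P i j).totalDegree ≤ 1) ∧
      ∀ i i', P i j ≠ 0 → P i' j ≠ 0 → T i * T i' = T i' * T i)) :
    ∀ᵐ x ∂μ, ∃ L : ℂ, Tendsto (fun M : Fin k → ℕ => (∏ l, (M l : ℂ))⁻¹ *
      ∑ m ∈ Fintype.piFinset (fun l => Finset.Icc 1 (M l)), ∏ j, f j
        ((List.ofFn fun i => T i ^ (MvPolynomial.eval (fun l => (m l : ℤ)) (P i j))).prod x))
      atTop (𝓝 L) := by
  classical
  have hTaff : ∀ i, T i ∈ affc X := by
    intro i
    refine ⟨hTc i, ?_, fun x y => ?_⟩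
    · exact ((hTc i).homeoOfEquivCompactToT2).symm.continuous
    · rw [hTα, hTα, hTα, hTα, map_mul, map_one, mul_one]
      rw [mul_mul_mul_comm, mul_assoc, mul_comm]
      simp only [mul_assoc, mul_comm]
  set T' : Fin d → affc X := fun i => ⟨T i, hTaff i⟩ with hT'
  have hlinα : ∀ i x, linf (T' i) x = α i x := by
    intro i x
    rw [linf_apply]
    change T i x / T i 1 = α i x
    rw [hTα, hTα, map_one, mul_one, mul_div_cancel_left]
  have hlin : ∀ i j x, linf (T' i) (linf (T' j) x) = linf (T' j) (linf (T' i) x) := by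
    intro i j x
    rw [hlinα, hlinα, hlinα, hlinα, hα]
  set P' : Fin n → (Fin k → ℤ) → (Fin d → ℤ) := fun j v i => MvPolynomial.eval (v + 1) (P i j)
    with hP'
  have hnice : ∃ K, ∀ j, Nice K (P' j) := by
    choose K hK using fun j => mv_nice (fun i => P i j)
    refine ⟨∑ j, K j, fun j => ?_⟩
    have h1 := (hK j).comp_affine (AddMonoidHom.id _) 1
    exact h1.mono (Finset.single_le_sum (fun _ _ => Nat.zero_le _) (Finset.mem_univ j))
  obtain ⟨K, hK⟩ := hnice
  set S : Fin n → (Fin k → ℕ) → X → X := fun j m x =>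
    ((oprod T' (P' j (cz m)) : affc X) : Equiv.Perm X) x with hS
  have hSmp : ∀ j m, MeasurePreserving (S j m) μ μ := fun j m => affc_mp _
  have hSeq : ∀ j (m : Fin k → ℕ) x, S j m x =
      (List.ofFn fun i => T i ^ (MvPolynomial.eval (fun l => (((m + 1) l : ℕ) : ℤ)) (P i j))).prod x := by
    intro j m x
    have h1 : ((oprod T' (P' j (cz m)) : affc X) : Equiv.Perm X) = oprod T (P' j (cz m)) :=
      map_oprod (affc X).subtype T' _
    simp only [hS]
    rw [h1]
    unfold oprod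
    have h2 : (cz m + 1 : Fin k → ℤ) = fun l => (((m + 1) l : ℕ) : ℤ) := by
      funext l
      simp [cz]
    simp only [hP', h2]
  have hrep : ∀ j, ∃ (C : ℝ) (F : Fin 2 → X → ℝ), (∀ i x, |F i x| ≤ 1) ∧
      (∀ i, Riem μ (F i) ∨ (Measurable (F i) ∧
        LinFam μ (fun (m : Fin k → ℕ) x => ((oprod T' (P' j (cz m)) : affc X) : Equiv.Perm X) x))) ∧
      ∀ᵐ x ∂μ, f j x = (C : ℂ) * ((F 0 x : ℂ) + (F 1 x : ℂ) * Complex.I) := by
    intro j
    rcases hf j with h | ⟨h, hdeg, hcom⟩
    · obtain ⟨C, F, hF1, hF2, hF3⟩ := h.rep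
      exact ⟨C, F, hF1, fun i => Or.inl (hF2 i), Eventually.of_forall hF3⟩
    · obtain ⟨C, F, hFm, hF1, hF3⟩ := exists_rep h
      refine ⟨C, F, hF1, fun i => Or.inr ⟨hFm i, ?_⟩, hF3⟩
      set T'' : Fin d → affc X := fun i => if P i j = 0 then 1 else T' i with hT''
      have hcom'' : ∀ i i', T'' i * T'' i' = T'' i' * T'' i := by
        intro i i'
        simp only [hT'']
        split_ifs with h1 h2 h2
        · rfl
        · rw [one_mul, mul_one]
        · rw [one_mul, mul_one]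
        · exact Subtype.ext (hcom i i' h1 h2)
      have hop : ∀ p : Fin d → ℤ, (∀ i, P i j = 0 → p i = 0) → oprod T' p = oprod T'' p := by
        intro p hp
        unfold oprod
        congr 2
        funext i
        simp only [hT'']
        split_ifs with h1
        · rw [hp i h1, zpow_zero, zpow_zero]
        · rfl
      set A : (Fin k → ℤ) → (Fin d → ℤ) := fun v i =>
        MvPolynomial.eval v (P i j) - MvPolynomial.eval 0 (P i j) with hA
      have hA0 : A 0 = 0 := by
        funext i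
        simp [hA]
      have hAadd : ∀ v w, A (v + w) = A v + A w := by
        intro v w
        funext i
        have := mv_affine (P i j) (hdeg i) v w
        simp only [hA, Pi.add_apply]
        linarith
      have hPA : ∀ v, P' j v = P' j 0 + A v := by
        intro v
        funext i
        have := mv_affine (P i j) (hdeg i) v 1
        simp only [hA, hP', Pi.add_apply, zero_add]
        linarith
      have hcz0 : cz (0 : Fin k → ℕ) = 0 := by funext l; simp [cz]
      have hczadd : ∀ m m' : Fin k → ℕ, cz (m + m') = cz m + cz m' := by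
        intro m m'; funext l; simp [cz]
      refine ⟨fun m x => ((oprod T'' (A (cz m)) : affc X) : Equiv.Perm X) x, oprod T'' (P' j 0),
        fun x => ?_, fun m m' x => ?_, fun m => affc_mp _, fun m x => ?_⟩
      · change ((oprod T'' (A (cz 0)) : affc X) : Equiv.Perm X) x = x
        rw [hcz0, hA0, oprod_zero]
        rfl
      · change ((oprod T'' (A (cz (m + m'))) : affc X) : Equiv.Perm X) x =
          ((oprod T'' (A (cz m)) : affc X) : Equiv.Perm X)
            (((oprod T'' (A (cz m')) : affc X) : Equiv.Perm X) x)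
        rw [hczadd, hAadd, oprod_add T'' hcom'']
        rfl
      · change ((oprod T' (P' j (cz m)) : affc X) : Equiv.Perm X) x =
          ((oprod T'' (P' j 0) : affc X) : Equiv.Perm X)
            (((oprod T'' (A (cz m)) : affc X) : Equiv.Perm X) x)
        rw [hop _ (fun i hi => by simp [hP', hi]), hPA, oprod_add T'' hcom'']
        rfl
  choose C F hF1 hF2 hF3 using hrep
  have hmain : ∀ e : Fin n → Fin 2, ∀ᵐ x ∂μ, Cvg fun m => ∏ j, F j (e j) (S j m x) := by
    intro e
    have h1 := mixed_aff (μ := μ) hsep (fun χ hχ => integral_char χ hχ) T' hlin hnil P' hK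
      Finset.univ (fun j x => (F j (e j) x : ℂ))
      (fun j _ => ⟨F j (e j), hF1 j (e j), fun x => rfl, hF2 j (e j)⟩)
      (fun j hj => absurd (Finset.mem_univ j) hj)
    filter_upwards [h1] with x hx
    refine hx.1.congr fun m => ?_
    rw [← Complex.ofReal_prod, Complex.ofReal_re]
  have h1 := lift_gen S hSmp f C F hF3 hmain
  filter_upwards [h1] with x hx
  obtain ⟨L, hL⟩ := hx
  refine ⟨L, hL.congr fun M => ?_⟩
  rw [sum_Icc_eq]
  congr 1
  refine Finset.sum_congr rfl fun m _ => Finset.prod_congr rfl fun j _ => ?_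
  rw [hSeq]

end Pool.Agent.Lib.Pf720ae.Aff
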