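import Pool.Agent.Lib.Pf720ae.Aff.Unip
import Pool.Agent.Lib.Pf720ae.Alg.Good

/-!
# Zeros of exponential polynomials in Noetherian modules
-/

set_option autoImplicit false
set_option linter.unusedSectionVars false

open Finset
open Pool.Agent.Lib.Pf720ae.Alg (HasCube Inj Nil CoPrim)

namespace Pool.Agent.Lib.Pf720ae.Aff

variable {Λ : Type*} [AddCommGroup Λ] [Module.Finite ℤ Λ] {R : Type*} [CommRing R]
  {P : Type*} [AddCommGroup P] [Module R P]

/-- `q` is a good exponent: exponential polynomials with exponents divisible by `q` which vanish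
on a cube vanish. -/
def GoodP (P : Type*) [AddCommGroup P] [Module R P] (u : Multiplicative Λ →* Rˣ) (I : Type*)
    [Fintype I] (k D q : ℕ) : Prop :=
  ∀ Q : I → ℤ → Λ, (∀ i, PD k (Q i)) → (∀ i, Q i 0 = 0) → ∀ φ : I → P,
    HasCube D {t : ℤ | ∑ i, u (Multiplicative.ofAdd (q • Q i t)) • φ i = 0} →
      ∀ t : ℤ, ∑ i, u (Multiplicative.ofAdd (q • Q i t)) • φ i = 0

lemma GoodP.mul {u : Multiplicative Λ →* Rˣ} {I : Type*} [Fintype I] {k D q : ℕ}
    (h : GoodP P u I k D q) (q' : ℕ) : GoodP P u I k D (q * q') := by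
  intro Q hQ hQ0 φ hc t
  have h1 : ∀ (t : ℤ) (i : I), (q * q') • Q i t = q • (q' • Q i t) := by
    intro t i
    rw [mul_smul]
  simp only [h1] at hc ⊢
  refine h (fun i t => q' • Q i t) (fun i => ?_) (fun i => ?_) φ hc t
  · exact (hQ i).comp_hom (DistribSMul.toAddMonoidHom Λ q')
  · simp only [hQ0 i, smul_zero]

lemma GoodP.mono {u : Multiplicative Λ →* Rˣ} {I : Type*} [Fintype I] {k D D' q : ℕ}
    (h : GoodP P u I k D q) (hD : D ≤ D') : GoodP P u I k D' q :=
  fun Q hQ hQ0 φ hc t => h Q hQ hQ0 φ (hc.of_le hD) t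

/-- elements acting unipotently -/
def uni (u : Multiplicative Λ →* Rˣ) (p : Ideal R) : Submodule ℤ Λ :=
  AddSubgroup.toIntSubmodule
  { carrier := {a | (u (Multiplicative.ofAdd a) : R) - 1 ∈ p}
    add_mem' := by
      intro a b ha hb
      simp only [Set.mem_ofPred_eq] at ha hb ⊢
      rw [ofAdd_add, map_mul, Units.val_mul]
      have : (u (Multiplicative.ofAdd a) : R) * u (Multiplicative.ofAdd b) - 1 =
          (u (Multiplicative.ofAdd a) : R) * ((u (Multiplicative.ofAdd b) : R) - 1) +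
            ((u (Multiplicative.ofAdd a) : R) - 1) := by ring
      rw [this]
      exact p.add_mem (p.mul_mem_left _ hb) ha
    zero_mem' := by simp
    neg_mem' := by
      intro a ha
      simp only [Set.mem_ofPred_eq] at ha ⊢
      rw [ofAdd_neg, map_inv]
      have : (((u (Multiplicative.ofAdd a))⁻¹ : Rˣ) : R) - 1 =
          -(((u (Multiplicative.ofAdd a))⁻¹ : Rˣ) : R) * ((u (Multiplicative.ofAdd a) : R) - 1) := by
        rw [mul_sub, neg_mul, Units.inv_mul]
        ring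
      rw [this]
      exact p.mul_mem_left _ ha }

lemma mem_uni {u : Multiplicative Λ →* Rˣ} {p : Ideal R} {a : Λ} :
    a ∈ uni u p ↔ (u (Multiplicative.ofAdd a) : R) - 1 ∈ p := Iff.rfl

/-- the saturation of a submodule -/
def satu (S : Submodule ℤ Λ) : Submodule ℤ Λ :=
  AddSubgroup.toIntSubmodule
  { carrier := {a | ∃ n : ℕ, 0 < n ∧ n • a ∈ S}
    add_mem' := by
      rintro a b ⟨n, hn, ha⟩ ⟨m, hm, hb⟩
      refine ⟨n * m, Nat.mul_pos hn hm, ?_⟩
      rw [smul_add]
      refine S.add_mem ?_ ?_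
      · rw [mul_comm, mul_smul]
        exact S.nsmul_mem ha m
      · rw [mul_smul]
        exact S.nsmul_mem hb n
    zero_mem' := ⟨1, one_pos, by simp⟩
    neg_mem' := by
      rintro a ⟨n, hn, ha⟩
      exact ⟨n, hn, by rw [smul_neg]; exact S.neg_mem ha⟩ }

lemma mem_satu {S : Submodule ℤ Λ} {a : Λ} : a ∈ satu S ↔ ∃ n : ℕ, 0 < n ∧ n • a ∈ S := Iff.rfl

lemma exists_uniform {S S' : Submodule ℤ Λ} (h : ∀ a ∈ S, ∃ n : ℕ, 0 < n ∧ n • a ∈ S') :
    ∃ n : ℕ, 0 < n ∧ ∀ a ∈ S, n • a ∈ S' := by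
  classical
  obtain ⟨t, ht⟩ : S.FG := IsNoetherian.noetherian S
  have h1 : ∀ a : t, ∃ n : ℕ, 0 < n ∧ n • (a : Λ) ∈ S' := fun a =>
    h a (ht ▸ Submodule.subset_span a.2)
  choose n hn hnS using h1
  refine ⟨∏ a, n a, Finset.prod_pos fun a _ => hn a, fun a ha => ?_⟩
  rw [← ht] at ha
  induction ha using Submodule.span_induction with
  | mem x hx =>
    obtain ⟨c, hc⟩ := Finset.dvd_prod_of_mem n (Finset.mem_univ (⟨x, hx⟩ : t))
    rw [hc, mul_comm, mul_smul]
    exact S'.nsmul_mem (hnS ⟨x, hx⟩) c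
  | zero => simp
  | add x y _ _ hx hy => rw [smul_add]; exact S'.add_mem hx hy
  | smul a x _ hx =>
    rw [smul_comm]
    exact S'.smul_mem _ hx

lemma nil_iff {r : R} : Nil P r ↔ r ∈ (Module.annihilator R P).radical := by
  rw [Ideal.mem_radical_iff]
  constructor
  · rintro ⟨e, he⟩
    exact ⟨e, Module.mem_annihilator.2 he⟩
  · rintro ⟨e, he⟩
    exact ⟨e, Module.mem_annihilator.1 he⟩

/-- good exponents exist in coprimary modules -/
theorem exists_goodP_coprim [IsNoetherianRing R] (hP : CoPrim R P) (u : Multiplicative Λ →* Rˣ)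
    (I : Type*) [Fintype I] (k : ℕ) : ∃ D q : ℕ, 0 < q ∧ GoodP P u I k D q := by
  classical
  set p := (Module.annihilator R P).radical with hp
  obtain ⟨E, hE⟩ : ∃ E, p ^ E ≤ Module.annihilator R P :=
    Ideal.exists_radical_pow_le_of_fg _ (IsNoetherian.noetherian _)
  have hE' : p ^ E • (⊤ : Submodule R P) = ⊥ := by
    rw [eq_bot_iff, Submodule.smul_le]
    intro r hr x _
    exact (Submodule.mem_bot R).2 (Module.mem_annihilator.1 (hE hr) x)
  set S := satu (uni u p) with hS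
  -- a uniform exponent and a degree bound for the unipotent part
  obtain ⟨q, hq0, hqS, e, he, hpoly⟩ : ∃ q : ℕ, 0 < q ∧ (∀ a ∈ S, q • a ∈ uni u p) ∧ ∃ e : ℕ,
      (e ≤ 1 ∨ ∀ b : ℕ, 0 < b → Inj P (b : R)) ∧ ∀ b : ℤ → S, PD k b → ∀ x : P,
        PD e fun t => u (Multiplicative.ofAdd (q • (b t : Λ))) • x := by
    by_cases hchar : ∀ b : ℕ, 0 < b → Inj P (b : R)
    · obtain ⟨q, hq0, hq⟩ := exists_uniform (S := S) (S' := uni u p) fun a ha => mem_satu.1 ha
      refine ⟨q, hq0, hq, ?_⟩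
      let β : Multiplicative S →* Rˣ :=
        u.comp (AddMonoidHom.toMultiplicative ((DistribSMul.toAddMonoidHom Λ q).comp
          S.subtype.toAddMonoidHom))
      have hβ : ∀ b : S, ((β (Multiplicative.ofAdd b) : R) - 1) ∈ p := fun b => hq b b.2
      obtain ⟨e, he⟩ := unip' (V := ℤ) (M := P) β hβ hE' k
      exact ⟨e, Or.inr hchar, fun b hb x => he b hb x⟩
    · push Not at hchar
      obtain ⟨b₀, hb₀, hbn⟩ := hchar
      obtain ⟨e₁, he₁⟩ := (hP (b₀ : R)).resolve_left hbn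
      -- the elements acting trivially
      let A₁ : Submodule ℤ Λ := AddSubgroup.toIntSubmodule
        { carrier := {a | ∀ x : P, u (Multiplicative.ofAdd a) • x = x}
          add_mem' := by
            intro a b ha hb x
            rw [ofAdd_add, map_mul, mul_smul, hb, ha]
          zero_mem' := by intro x; simp
          neg_mem' := by
            intro a ha x
            rw [ofAdd_neg, map_inv, inv_smul_eq_iff, ha] }
      have hA₁ : ∀ a : Λ, a ∈ A₁ ↔ ∀ x : P, u (Multiplicative.ofAdd a) • x = x := fun a => Iff.rfl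
      obtain ⟨q, hq0, hq⟩ := exists_uniform (S := S) (S' := A₁) fun a ha => by
        obtain ⟨n, hn, hna⟩ := mem_satu.1 ha
        obtain ⟨e₂, he₂⟩ := nil_iff.2 (mem_uni.1 hna)
        have h1 := Alg.pow_eq_one_of_nil (P := P) hb₀ he₁ he₂
        refine ⟨b₀ ^ e₁ * e₂.factorial * n,
          Nat.mul_pos (Nat.mul_pos (pow_pos hb₀ _) (Nat.factorial_pos _)) hn, ?_⟩
        rw [hA₁]
        intro x
        have h2 := h1 x
        rw [add_sub_cancel, ← Units.val_pow_eq_pow_val, ← map_pow, ← ofAdd_nsmul] at h2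
        rw [mul_smul]
        exact h2
      refine ⟨q, hq0, fun a ha => ?_, 1, Or.inl le_rfl, fun b _ x => ?_⟩
      · rw [mem_uni]
        refine nil_iff.1 ⟨1, fun x => ?_⟩
        rw [pow_one, sub_smul, one_smul, sub_eq_zero]
        exact (hA₁ _).1 (hq a ha) x
      · have h1 : (fun t => u (Multiplicative.ofAdd (q • (b t : Λ))) • x) = fun _ => x := by
          funext t
          exact (hA₁ _).1 (hq _ (b t).2) x
        rw [h1]
        exact PD.const x
  -- the torsion free quotient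
  have htf : ∀ (n : ℕ) (a : Λ ⧸ S), 0 < n → n • a = 0 → a = 0 := by
    intro n a hn ha
    obtain ⟨a, rfl⟩ := Submodule.Quotient.mk_surjective _ a
    rw [← Submodule.Quotient.mk_smul, Submodule.Quotient.mk_eq_zero] at ha
    rw [Submodule.Quotient.mk_eq_zero]
    obtain ⟨m, hm, hma⟩ := mem_satu.1 ha
    refine mem_satu.2 ⟨m * n, Nat.mul_pos hm hn, ?_⟩
    rw [mul_smul]
    exact hma
  have : Module.IsTorsionFree ℤ (Λ ⧸ S) := by
    rw [Module.isTorsionFree_int_iff_isAddTorsionFree]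
    refine ⟨fun n hn a b hab => ?_⟩
    have h1 : n • (a - b) = 0 := by
      rw [smul_sub]
      exact sub_eq_zero.2 hab
    exact sub_eq_zero.1 (htf n _ (Nat.pos_of_ne_zero hn) h1)
  obtain ⟨σ, hσ⟩ := LinearMap.exists_rightInverse_of_surjective S.mkQ S.range_mkQ
  have hσ' : ∀ a : Λ ⧸ S, S.mkQ (σ a) = a := fun a => by
    have := LinearMap.congr_fun hσ a
    simpa using this
  let α : Multiplicative (Λ ⧸ S) →* Rˣ :=
    u.comp (AddMonoidHom.toMultiplicative ((DistribSMul.toAddMonoidHom Λ q).comp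
      σ.toAddMonoidHom))
  have hαapp : ∀ a : Λ ⧸ S, α (Multiplicative.ofAdd a) = u (Multiplicative.ofAdd (q • σ a)) :=
    fun a => rfl
  have hα : ∀ a : Λ ⧸ S, a ≠ 0 → Inj P ((α (Multiplicative.ofAdd a) : R) - 1) := by
    intro a ha
    refine (hP _).resolve_right fun hn => ha ?_
    have h1 : q • σ a ∈ uni u p := mem_uni.2 (nil_iff.1 hn)
    rw [← hσ' a, Submodule.mkQ_apply, Submodule.Quotient.mk_eq_zero]
    exact mem_satu.2 ⟨q, hq0, h1⟩
  obtain ⟨D, hD⟩ := indep (P := P) α htf hα he k (Fintype.card I)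
  refine ⟨D, q, hq0, fun Q hQ hQ0 φ hc t => ?_⟩
  let Q1 : I → PQ (Λ ⧸ S) := fun i => ⟨fun t => S.mkQ (Q i t), by simp [hQ0],
    k, (hQ i).comp_hom S.mkQ.toAddMonoidHom⟩
  let Q0 : I → ℤ → S := fun i t => ⟨Q i t - σ (S.mkQ (Q i t)), by
    rw [← Submodule.Quotient.mk_eq_zero, Submodule.Quotient.mk_sub, sub_eq_zero]
    exact (hσ' _).symm⟩
  have hQ0PD : ∀ i, PD k (Q0 i) := by
    intro i
    refine PD.of_comp_hom S.subtype.toAddMonoidHom S.injective_subtype ?_
    exact (hQ i).sub ((hQ i).comp_hom (σ.comp S.mkQ).toAddMonoidHom)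
  set s : Finset (PQ (Λ ⧸ S)) := Finset.univ.image Q1 with hs
  set g : PQ (Λ ⧸ S) → ℤ → P := fun R' t => ∑ i ∈ Finset.univ.filter (fun i => Q1 i = R'),
    u (Multiplicative.ofAdd (q • (Q0 i t : Λ))) • φ i with hg
  have hev : ∀ t, ev α s g t = ∑ i, u (Multiplicative.ofAdd (q • Q i t)) • φ i := by
    intro t
    unfold ev
    rw [← Finset.sum_fiberwise_of_maps_to (t := s) (g := Q1)
      (fun i _ => Finset.mem_image_of_mem _ (Finset.mem_univ i))]
    refine Finset.sum_congr rfl fun R' _ => ?_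
    simp only [hg]
    rw [Finset.smul_sum]
    refine Finset.sum_congr rfl fun i hi => ?_
    rw [(Finset.mem_filter.1 hi).2.symm, hαapp, smul_smul, ← map_mul, ← ofAdd_add, ← smul_add]
    have h1 : σ ((Q1 i : ℤ → Λ ⧸ S) t) + (Q0 i t : Λ) = Q i t := by
      change σ (S.mkQ (Q i t)) + (Q i t - σ (S.mkQ (Q i t))) = Q i t
      abel
    rw [h1]
  rw [← hev]
  have hg0 : g = 0 := by
    refine hD s ?_ (by rw [hs, ← Finset.card_univ]; exact Finset.card_image_le) g ?_ ?_ ?_
    · intro R' hR'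
      obtain ⟨i, -, rfl⟩ := Finset.mem_image.1 hR'
      exact (hQ i).comp_hom S.mkQ.toAddMonoidHom
    · intro R' hR'
      funext t
      simp only [hg]
      refine Finset.sum_eq_zero fun i hi => ?_
      exact absurd (Finset.mem_image.2 ⟨i, Finset.mem_univ i, (Finset.mem_filter.1 hi).2⟩) hR'
    · intro R'
      have h1 : g R' = ∑ i ∈ Finset.univ.filter (fun i => Q1 i = R'),
          fun t => u (Multiplicative.ofAdd (q • (Q0 i t : Λ))) • φ i := by
        funext t
        simp only [hg, Finset.sum_apply]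
      rw [h1]
      exact PD.sum _ fun i _ => hpoly _ (hQ0PD i) _
    · refine hc.mono fun t ht => ?_
      simp only [Set.mem_ofPred_eq] at ht ⊢
      rw [hev, ht]
  rw [hg0]
  unfold ev
  exact Finset.sum_eq_zero fun R' _ => by rw [Pi.zero_apply, Pi.zero_apply, smul_zero]

/-- good exponents exist in Noetherian modules -/
theorem exists_goodP [IsNoetherianRing R] {N : Type*} [AddCommGroup N] [Module R N]
    [IsNoetherian R N] (u : Multiplicative Λ →* Rˣ) (I : Type*) [Fintype I] (k : ℕ) :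
    ∃ D q : ℕ, 0 < q ∧ GoodP N u I k D q := by
  classical
  obtain ⟨S, hS, hprim⟩ := Submodule.isLasker R N ⊥
  have h1 : ∀ Q : S, CoPrim R (N ⧸ (Q : Submodule R N)) := by
    intro Q r
    obtain ⟨-, hQ⟩ := hprim Q.2
    by_cases h : ∃ x : N, r • x ∈ (Q : Submodule R N) ∧ x ∉ (Q : Submodule R N)
    · right
      obtain ⟨x, hx, hx'⟩ := h
      obtain ⟨e, he⟩ := (hQ hx).resolve_left hx'
      refine ⟨e, fun y => ?_⟩
      obtain ⟨y, rfl⟩ := Submodule.Quotient.mk_surjective _ y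
      rw [← Submodule.Quotient.mk_smul, Submodule.Quotient.mk_eq_zero]
      exact he (Submodule.smul_mem_pointwise_smul _ _ _ Submodule.mem_top)
    · left
      push Not at h
      intro y hy
      obtain ⟨y, rfl⟩ := Submodule.Quotient.mk_surjective _ y
      rw [← Submodule.Quotient.mk_smul, Submodule.Quotient.mk_eq_zero] at hy
      rw [Submodule.Quotient.mk_eq_zero]
      exact h y hy
  choose D q hq0 hq using fun Q : S => exists_goodP_coprim (h1 Q) u I k
  refine ⟨∑ Q, D Q, ∏ Q, q Q, Finset.prod_pos fun Q _ => hq0 Q, fun Q hQ hQ0 φ hc t => ?_⟩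
  set x := ∑ i, u (Multiplicative.ofAdd ((∏ Q, q Q) • Q i t)) • φ i with hx
  have h2 : ∀ Q : S, x ∈ (Q : Submodule R N) := by
    intro K
    obtain ⟨c, hc'⟩ := Finset.dvd_prod_of_mem q (Finset.mem_univ K)
    have h3 := ((hq K).mul c).mono (D' := ∑ Q, D Q)
      (Finset.single_le_sum (f := D) (fun _ _ => Nat.zero_le _) (Finset.mem_univ K))
    rw [← hc'] at h3
    rw [← Submodule.Quotient.mk_eq_zero]
    have hmk : ∀ t : ℤ, (Submodule.Quotient.mk (∑ i, u (Multiplicative.ofAdd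
        ((∏ Q, q Q) • Q i t)) • φ i) : N ⧸ (K : Submodule R N)) =
        ∑ i, u (Multiplicative.ofAdd ((∏ Q, q Q) • Q i t)) • (Submodule.Quotient.mk (φ i) :
          N ⧸ (K : Submodule R N)) := by
      intro t
      rw [← Submodule.mkQ_apply, map_sum]
      rfl
    rw [hx, hmk]
    refine h3 Q hQ hQ0 _ (hc.mono fun t ht => ?_) t
    simp only [Set.mem_ofPred_eq] at ht ⊢
    rw [← hmk, ht, Submodule.Quotient.mk_zero]
  have h4 : x ∈ S.inf id := by
    rw [Submodule.mem_finsetInf]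
    intro Q hQ
    exact h2 ⟨Q, hQ⟩
  rw [hS] at h4
  exact (Submodule.mem_bot R).1 h4

end Pool.Agent.Lib.Pf720ae.Aff
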