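import Pool.Agent.Lib.Pf720ae.Aff.LinesPoly

/-!
# Integer polynomials in several variables as polynomial maps
-/

set_option autoImplicit false
set_option linter.unusedSectionVars false

open Finset

namespace Pool.Agent.Lib.Pf720ae.Aff

variable {k : ℕ}

lemma mv_pd (p : MvPolynomial (Fin k) ℤ) :
    ∃ K : ℕ, PD K (fun n : Fin k → ℤ => MvPolynomial.eval n p) := by
  induction p using MvPolynomial.induction_on with
  | C a =>
    refine ⟨1, ?_⟩
    simp only [MvPolynomial.eval_C]
    exact PD.const a
  | add p q hp hq =>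
    obtain ⟨K, hK⟩ := hp
    obtain ⟨K', hK'⟩ := hq
    refine ⟨max K K', ?_⟩
    simp only [map_add]
    exact (hK.mono (le_max_left _ _)).add (hK'.mono (le_max_right _ _))
  | mul_X p i hp =>
    obtain ⟨K, hK⟩ := hp
    refine ⟨K + 2, ?_⟩
    simp only [map_mul, MvPolynomial.eval_X]
    have h1 : PD 2 (fun n : Fin k → ℤ => n i) := by
      intro h h'
      funext n
      simp only [df_apply, Pi.add_apply, Pi.zero_apply]
      ring
    exact PD.bilin (AddMonoidHom.mul (R := ℤ)) hK h1

lemma mv_dvd (p : MvPolynomial (Fin k) ℤ) (q : ℕ) (n r : Fin k → ℤ) :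
    ∃ b : ℤ, MvPolynomial.eval (q • n + r) p - MvPolynomial.eval r p = q • b := by
  induction p using MvPolynomial.induction_on with
  | C a => exact ⟨0, by simp⟩
  | add p p' hp hp' =>
    obtain ⟨b, hb⟩ := hp
    obtain ⟨b', hb'⟩ := hp'
    refine ⟨b + b', ?_⟩
    rw [smul_add, ← hb, ← hb', map_add, map_add]
    ring
  | mul_X p i hp =>
    obtain ⟨b, hb⟩ := hp
    refine ⟨b * (q • n + r) i + MvPolynomial.eval r p * n i, ?_⟩
    rw [map_mul, map_mul, MvPolynomial.eval_X, MvPolynomial.eval_X]
    have h1 : MvPolynomial.eval (q • n + r) p = q • b + MvPolynomial.eval r p := by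
      rw [← hb]; ring
    have h2 : (q • n + r) i = (q : ℤ) * n i + r i := by
      rw [Pi.add_apply, Pi.smul_apply, nsmul_eq_mul]
    rw [h1, h2]
    simp only [nsmul_eq_mul]
    ring

lemma mv_nice {d : ℕ} (p : Fin d → MvPolynomial (Fin k) ℤ) :
    ∃ K : ℕ, Nice K (fun n : Fin k → ℤ => fun i => MvPolynomial.eval n (p i)) := by
  choose K hK using fun i => mv_pd (p i)
  refine ⟨∑ i, K i, ⟨?_, ?_⟩⟩
  · have h1 : (fun n : Fin k → ℤ => fun i => MvPolynomial.eval n (p i)) =
        ∑ i, fun n : Fin k → ℤ => AddMonoidHom.single (fun _ : Fin d => ℤ) i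
          (MvPolynomial.eval n (p i)) := by
      funext n i
      rw [Finset.sum_apply, Finset.sum_apply]
      simp only [AddMonoidHom.single_apply]
      rw [Finset.sum_eq_single i]
      · rw [Pi.single_eq_same]
      · intro j _ hj
        rw [Pi.single_eq_of_ne hj.symm]
      · intro h
        exact absurd (Finset.mem_univ i) h
    rw [h1]
    refine PD.sum _ fun i _ => ?_
    refine PD.comp_hom ?_ _
    exact (hK i).mono (Finset.single_le_sum (fun _ _ => Nat.zero_le _) (Finset.mem_univ i))
  · intro q n r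
    choose b hb using fun i => mv_dvd (p i) q n r
    exact ⟨b, funext fun i => hb i⟩

/-- polynomials of degree at most one are affine -/
lemma mv_affine (p : MvPolynomial (Fin k) ℤ) (hp : p.totalDegree ≤ 1) (a b : Fin k → ℤ) :
    MvPolynomial.eval (a + b) p + MvPolynomial.eval 0 p =
      MvPolynomial.eval a p + MvPolynomial.eval b p := by
  simp only [MvPolynomial.eval_eq]
  rw [← Finset.sum_add_distrib, ← Finset.sum_add_distrib]
  refine Finset.sum_congr rfl fun s hs => ?_
  have h1 : s.degree ≤ 1 := (MvPolynomial.le_totalDegree hs).trans hp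
  rcases Nat.le_one_iff_eq_zero_or_eq_one.1 h1 with h | h
  · have : s = 0 := by
      rwa [Finsupp.degree_eq_zero_iff] at h
    subst this
    simp
  · have h2 : s ∈ Set.range (fun a : Fin k => Finsupp.single a 1) := by
      rw [Finsupp.range_single_one]
      exact h
    obtain ⟨i, rfl⟩ := h2
    simp only [Finsupp.support_single i one_ne_zero, Finset.prod_singleton,
      Finsupp.single_eq_same, pow_one, Pi.add_apply, Pi.zero_apply]
    ring

end Pool.Agent.Lib.Pf720ae.Aff
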