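import Pool.Agent.Lib.Pf720ae.Aff.Riem
import Pool.Agent.Lib.Pf720ae.Aff.Mv

/-!
# Multiple averages along polynomial orbits of affine maps
-/

set_option autoImplicit false
set_option linter.unusedSectionVars false

open Finset MeasureTheory Filter Topology
open scoped ENNReal ComplexConjugate
open Pool.Agent.Lib.Pf720ae.Alg (LR prt tsp tsp_dense cz prt_true prt_false coe_inv' eq_zero_of_orth
  norm_prod_le_one)

namespace Pool.Agent.Lib.Pf720ae.Aff

variable {X : Type} [CommGroup X] [TopologicalSpace X] [IsTopologicalGroup X] [CompactSpace X]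
  [T2Space X] [MeasurableSpace X] [BorelSpace X] {μ : Measure X} [IsProbabilityMeasure μ]
  {κ : Type} [Fintype κ] [DecidableEq κ] {d : ℕ} {J : Type} [Fintype J] [DecidableEq J]

lemma affc_mp [μ.IsHaarMeasure] (σ : affc X) : MeasurePreserving ((σ : Equiv.Perm X) : X → X) μ μ := by
  have h1 : MeasurePreserving (linf σ) μ μ := by
    refine MonoidHom.measurePreserving (f := ((linf σ : X →ₜ* X) : X →* X))
      (linf σ).continuous_toFun ?_ rfl
    intro y
    obtain ⟨x, hx⟩ := (σ : Equiv.Perm X).surjective (y * (σ : Equiv.Perm X) 1)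
    refine ⟨x, ?_⟩
    change linf σ x = y
    rw [linf_apply, hx, mul_div_cancel_right]
  have h2 := (measurePreserving_mul_left μ ((σ : Equiv.Perm X) 1)).comp h1
  have h3 : ((fun x => (σ : Equiv.Perm X) 1 * x) ∘ ⇑(linf σ)) = ((σ : Equiv.Perm X) : X → X) := by
    funext x
    change (σ : Equiv.Perm X) 1 * linf σ x = _
    rw [linf_apply, mul_div_cancel]
  rwa [h3] at h2

/-- a family of maps given by an action, up to a fixed map -/
def LinFam (μ : Measure X) (S : (κ → ℕ) → X → X) : Prop :=
  ∃ (U : (κ → ℕ) → X → X) (τ : affc X), (∀ x, U 0 x = x) ∧ (∀ m n x, U (m + n) x = U m (U n x)) ∧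
    (∀ m, MeasurePreserving (U m) μ μ) ∧ ∀ m x, S m x = (τ : Equiv.Perm X) (U m x)

/-- from both parts of affine characters to the functions `prt` -/
lemma Cv_prt {S : (κ → ℕ) → X → X} {Rm : X → (κ → ℕ) → ℂ}
    (h : ∀ χ : X →ₜ* Circle, ∀ᵐ x ∂μ,
        Cvg (fun m : κ → ℕ => (((χ (S m x) : Circle) : ℂ) * Rm x m).re) ∧
        Cvg (fun m : κ → ℕ => (((χ (S m x) : Circle) : ℂ) * Rm x m).im)) (b : Bool)
    (χ : X →ₜ* Circle) :
    Cv μ S (fun x => {fun m => (Rm x m).re, fun m => (Rm x m).im}) (prt b χ) := by
  filter_upwards [h χ, h χ⁻¹] with x h1 h2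
  have hinv : ∀ y : X, ((χ⁻¹ y : Circle) : ℂ) = conj ((χ y : Circle) : ℂ) := coe_inv' χ
  simp only [hinv] at h2
  have e1 := (h1.1.add h2.1).smul (1 / 2)
  have e2 := (h2.1.add (h1.1.smul (-1))).smul (1 / 2)
  have e3 := (h1.2.add h2.2).smul (1 / 2)
  have e4 := (h1.2.add (h2.2.smul (-1))).smul (1 / 2)
  rintro w (rfl | rfl)
  · cases b
    · refine e4.congr fun m => ?_
      rw [prt_false]
      simp only [Complex.mul_im, Complex.conj_re, Complex.conj_im]
      ring
    · refine e1.congr fun m => ?_
      rw [prt_true]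
      simp only [Complex.mul_re, Complex.conj_re, Complex.conj_im]
      ring
  · cases b
    · refine e2.congr fun m => ?_
      rw [prt_false]
      simp only [Complex.mul_re, Complex.conj_re, Complex.conj_im]
      ring
    · refine e3.congr fun m => ?_
      rw [prt_true]
      simp only [Complex.mul_im, Complex.conj_re, Complex.conj_im]
      ring

/-- some of the functions are affine characters, the others are real and bounded -/
theorem mixed_aff [μ.WeaklyRegular] [μ.IsHaarMeasure]
    (hsep : ∀ x : X, x ≠ 1 → ∃ χ : X →ₜ* Circle, χ x ≠ 1)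
    (horth : ∀ χ : X →ₜ* Circle, χ ≠ 1 → ∫ x, ((χ x : Circle) : ℂ) ∂μ = 0)
    (T : Fin d → affc X) (hlin : ∀ i j x, linf (T i) (linf (T j) x) = linf (T j) (linf (T i) x))
    (hnil : Group.IsNilpotent (Subgroup.closure (Set.range fun i => ((T i : affc X) : Equiv.Perm X))))
    {k : ℕ} (P : J → (κ → ℤ) → (Fin d → ℤ)) (hP : ∀ j, Nice k (P j)) (s : Finset J)
    (g : J → X → ℂ)
    (hgs : ∀ j ∈ s, ∃ F : X → ℝ, (∀ x, |F x| ≤ 1) ∧ (∀ x, g j x = F x) ∧
      (Riem μ F ∨ (Measurable F ∧
        LinFam μ (fun (m : κ → ℕ) x => ((oprod T (P j (cz m)) : affc X) : Equiv.Perm X) x))))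
    (hgc : ∀ j ∉ s, ∃ ψ : Gam X, ∀ x, g j x = ((evg ψ x : Circle) : ℂ)) :
    ∀ᵐ x ∂μ,
      Cvg (fun m : κ → ℕ => (∏ j, g j (((oprod T (P j (cz m)) : affc X) : Equiv.Perm X) x)).re) ∧
      Cvg (fun m : κ → ℕ => (∏ j, g j (((oprod T (P j (cz m)) : affc X) : Equiv.Perm X) x)).im) := by
  set S : J → (κ → ℕ) → X → X := fun j m x =>
    ((oprod T (P j (cz m)) : affc X) : Equiv.Perm X) x with hS
  have hSmp : ∀ j m, MeasurePreserving (S j m) μ μ := fun j m => affc_mp _
  induction s using Finset.induction_on generalizing g with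
  | empty =>
    choose χ hχ using fun j => hgc j (Finset.notMem_empty j)
    have h1 := chars_aff (μ := μ) horth T hlin hnil P hP χ (Tt := Complex.re) (Or.inl rfl)
    have h2 := chars_aff (μ := μ) horth T hlin hnil P hP χ (Tt := Complex.im) (Or.inr rfl)
    filter_upwards [h1, h2] with x hx1 hx2
    constructor
    · refine hx1.congr fun m => ?_
      congr 1
      exact Finset.prod_congr rfl fun j _ => (hχ j _).symm
    · refine hx2.congr fun m => ?_
      congr 1
      exact Finset.prod_congr rfl fun j _ => (hχ j _).symm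
  | insert a s ha ih =>
    obtain ⟨F, hF1, hF, hFt⟩ := hgs a (Finset.mem_insert_self _ _)
    have hg1 : ∀ j x, ‖g j x‖ ≤ 1 := by
      intro j x
      by_cases hj : j ∈ insert a s
      · obtain ⟨F', hF'1, hF', -⟩ := hgs j hj
        rw [hF', Complex.norm_real]
        exact hF'1 x
      · obtain ⟨χ, hχ⟩ := hgc j hj
        rw [hχ]
        exact (Circle.norm_coe _).le
    set Rm : X → (κ → ℕ) → ℂ := fun x m => ∏ j ∈ Finset.univ.erase a, g j (S j m x) with hRm
    have hR1 : ∀ x m, ‖Rm x m‖ ≤ 1 := fun x m => norm_prod_le_one _ _ fun j => hg1 j _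
    -- replace the function `a` by an affine character
    have hcharA : ∀ ψ : Gam X, ∀ᵐ x ∂μ,
        Cvg (fun m : κ → ℕ => (((evg ψ (S a m x) : Circle) : ℂ) * Rm x m).re) ∧
        Cvg (fun m : κ → ℕ => (((evg ψ (S a m x) : Circle) : ℂ) * Rm x m).im) := by
      intro ψ
      have h1 := ih (Function.update g a fun x => ((evg ψ x : Circle) : ℂ)) (by
        intro j hj
        have hja : j ≠ a := fun h => ha (h ▸ hj)
        rw [Function.update_of_ne hja]
        exact hgs j (Finset.mem_insert_of_mem hj)) (by
        intro j hj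
        by_cases hja : j = a
        · subst hja
          exact ⟨ψ, fun x => by rw [Function.update_self]⟩
        · rw [Function.update_of_ne hja]
          exact hgc j fun h => (Finset.mem_insert.1 h).elim hja hj)
      have h2 : ∀ x (m : κ → ℕ), ∏ j, (Function.update g a fun x => ((evg ψ x : Circle) : ℂ)) j
          (S j m x) = ((evg ψ (S a m x) : Circle) : ℂ) * Rm x m := by
        intro x m
        rw [← Finset.mul_prod_erase Finset.univ _ (Finset.mem_univ a), Function.update_self]
        congr 1
        refine Finset.prod_congr rfl fun j hj => ?_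
        rw [Function.update_of_ne (Finset.ne_of_mem_erase hj)]
      filter_upwards [h1] with x hx
      exact ⟨hx.1.congr fun m => congrArg Complex.re (h2 x m),
        hx.2.congr fun m => congrArg Complex.im (h2 x m)⟩
    set Wt : X → Set ((κ → ℕ) → ℝ) := fun x => {fun m => (Rm x m).re, fun m => (Rm x m).im} with hWt
    have hWt1 : ∀ x, ∀ w ∈ Wt x, ∀ m, |w m| ≤ 1 := by
      rintro x w (rfl | rfl) m
      · exact (Complex.abs_re_le_norm _).trans (hR1 x m)
      · exact (Complex.abs_im_le_norm _).trans (hR1 x m)
    have hmain : Cv μ (S a) Wt F := by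
      rcases hFt with hFr | ⟨hFm, hLin⟩
      · -- Riemann integrable functions
        refine Cv_riem hsep (hSmp a) hWt1 (fun b χ => Cv_prt (fun χ => ?_) b χ) (fun b χ => ?_) hFr
        · have h1 := hcharA (Additive.ofMul (1, χ))
          filter_upwards [h1] with x hx
          simpa only [evg, toMul_ofMul, one_mul] using hx
        · have h1 := Cv_prt (μ := μ) (S := S a) (Rm := fun _ _ => 1) (fun χ => by
            have h2 := chars_aff (μ := μ) (J := Unit) horth T hlin hnil (fun _ => P a)
              (fun _ => hP a) (fun _ => Additive.ofMul (1, χ)) (Tt := Complex.re) (Or.inl rfl)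
            have h3 := chars_aff (μ := μ) (J := Unit) horth T hlin hnil (fun _ => P a)
              (fun _ => hP a) (fun _ => Additive.ofMul (1, χ)) (Tt := Complex.im) (Or.inr rfl)
            filter_upwards [h2, h3] with x hx2 hx3
            simp only [Finset.univ_unique, Finset.prod_singleton, evg, toMul_ofMul, one_mul]
              at hx2 hx3
            exact ⟨hx2.congr fun m => by rw [mul_one], hx3.congr fun m => by rw [mul_one]⟩) b χ
          filter_upwards [h1] with x hx w hw
          rw [Set.mem_singleton_iff] at hw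
          have h2 := hx (fun m => ((1 : ℂ)).re) (Set.mem_insert _ _)
          refine h2.congr fun m => ?_
          rw [hw, Complex.one_re]
      · -- bounded functions and actions
        obtain ⟨U, τ, hU0, hUadd, hUmp, hSU⟩ := hLin
        have hF'm : Measurable fun x => F ((τ : Equiv.Perm X) x) :=
          hFm.comp τ.2.1.measurable
        have hgood : ∀ (b : Bool) (χ : X →ₜ* Circle), Cv μ U Wt (prt b χ) := by
          refine Cv_prt (fun χ => ?_)
          have h1 := hcharA (pull τ⁻¹ (Additive.ofMul (1, χ)))
          filter_upwards [h1] with x hx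
          have h2 : ∀ m, evg (pull τ⁻¹ (Additive.ofMul (1, χ))) (S a m x) = χ (U m x) := by
            intro m
            rw [evg_pull]
            have h3 : ((τ⁻¹ : affc X) : Equiv.Perm X) (S a m x) = U m x := by
              rw [show S a m x = (τ : Equiv.Perm X) (U m x) from hSU m x]
              exact Equiv.symm_apply_apply (τ : Equiv.Perm X) _
            rw [h3]
            exact one_mul _
          simp only [h2] at hx
          exact hx
        have hFL : MemLp (fun x => F ((τ : Equiv.Perm X) x)) 2 μ :=
          MemLp.of_bound hF'm.aestronglyMeasurable 1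
            (Eventually.of_forall fun x => by simpa using hF1 _)
        have h1 : Cv μ U Wt (fun x => F ((τ : Equiv.Perm X) x)) := by
          refine principle hU0 hUadd hUmp hWt1 (fun φ hφm hφL hφ => ?_) _ hFL
          have hzero : φ =ᵐ[μ] 0 := by
            refine eq_zero_of_orth hsep hφL fun b χ => ?_
            refine hφ _ (prt b χ).continuous.measurable (fun x => ?_) (hgood b χ)
            have hn : ‖((χ x : Circle) : ℂ)‖ = 1 := Circle.norm_coe _
            cases b
            · rw [prt_false]; exact (Complex.abs_im_le_norm _).trans hn.le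
            · rw [prt_true]; exact (Complex.abs_re_le_norm _).trans hn.le
          exact Cv.congr hUmp hzero.symm Cv.zero
        filter_upwards [h1] with x hx w hw
        refine (hx w hw).congr fun m => ?_
        rw [show S a m x = (τ : Equiv.Perm X) (U m x) from hSU m x]
    have hprod : ∀ x (m : κ → ℕ), ∏ j, g j (S j m x) = (F (S a m x) : ℂ) * Rm x m := by
      intro x m
      rw [← Finset.mul_prod_erase Finset.univ _ (Finset.mem_univ a), hF]
    filter_upwards [hmain] with x hx
    constructor
    · refine (hx _ (Set.mem_insert _ _)).congr fun m => ?_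
      refine Eq.trans ?_ (congrArg Complex.re (hprod x m)).symm
      rw [Complex.re_ofReal_mul]
    · refine (hx _ (Set.mem_insert_of_mem _ rfl)).congr fun m => ?_
      refine Eq.trans ?_ (congrArg Complex.im (hprod x m)).symm
      rw [Complex.im_ofReal_mul]

end Pool.Agent.Lib.Pf720ae.Aff
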