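import Pool.Agent.Lib.Pf720ae.Aff.AffSeq2
import Pool.Agent.Lib.Pf720ae.Alg.Dual

/-!
# Polynomial phases for nilpotent groups of affine maps, algebraic part
-/

set_option autoImplicit false
set_option linter.unusedSectionVars false

open Finset
open Pool.Agent.Lib.Pf720ae.Alg (LR)

namespace Pool.Agent.Lib.Pf720ae.Aff

section chom

variable {G : Type*} [Group G] {d : ℕ}

/-- ordered product of powers -/
def oprod (g : Fin d → G) (p : Fin d → ℤ) : G := (List.ofFn fun i => g i ^ p i).prod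

lemma oprod_zero (g : Fin d → G) : oprod g 0 = 1 := by
  unfold oprod
  simp

lemma oprod_add (g : Fin d → G) (hg : ∀ i j, g i * g j = g j * g i) (p p' : Fin d → ℤ) :
    oprod g (p + p') = oprod g p * oprod g p' := by
  unfold oprod
  induction d with
  | zero => simp
  | succ d ih =>
    have h := ih (fun i => g i.succ) (fun i j => hg _ _) (fun i => p i.succ) (fun i => p' i.succ)
    rw [List.ofFn_succ, List.ofFn_succ, List.ofFn_succ, List.prod_cons, List.prod_cons,
      List.prod_cons]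
    have h' : (List.ofFn fun i : Fin d => g i.succ ^ ((p + p') i.succ)).prod
        = (List.ofFn fun i : Fin d => g i.succ ^ (p i.succ)).prod
          * (List.ofFn fun i : Fin d => g i.succ ^ (p' i.succ)).prod := h
    rw [h']
    have hcm : Commute (g 0 ^ p' 0) (List.ofFn fun i : Fin d => g i.succ ^ (p i.succ)).prod := by
      refine Commute.list_prod_right _ _ fun y hy => ?_
      rw [List.mem_ofFn] at hy
      obtain ⟨i, rfl⟩ := hy
      exact ((show Commute (g 0) (g i.succ) from hg _ _).zpow_left _).zpow_right _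
    rw [Pi.add_apply, zpow_add]
    have e := hcm.eq
    calc g 0 ^ p 0 * g 0 ^ p' 0 * ((List.ofFn fun i : Fin d => g i.succ ^ (p i.succ)).prod
          * (List.ofFn fun i : Fin d => g i.succ ^ (p' i.succ)).prod)
        = g 0 ^ p 0 * (g 0 ^ p' 0 * (List.ofFn fun i : Fin d => g i.succ ^ (p i.succ)).prod)
          * (List.ofFn fun i : Fin d => g i.succ ^ (p' i.succ)).prod := by group
      _ = _ := by rw [e]; group

/-- a commuting family gives a homomorphism -/
def cHom (g : Fin d → G) (hg : ∀ i j, g i * g j = g j * g i) : Multiplicative (Fin d → ℤ) →* G where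
  toFun p := oprod g p.toAdd
  map_one' := oprod_zero g
  map_mul' _ _ := oprod_add g hg _ _

lemma map_oprod {H : Type*} [Group H] (φ : G →* H) (g : Fin d → G) (p : Fin d → ℤ) :
    φ (oprod g p) = oprod (fun i => φ (g i)) p := by
  unfold oprod
  rw [map_list_prod, List.map_ofFn]
  congr 2
  funext i
  simp

lemma ofAdd_eq_oprod (p : Fin d → ℤ) :
    Multiplicative.ofAdd p = oprod (fun i => Multiplicative.ofAdd (Pi.single i (1 : ℤ))) p := by
  unfold oprod
  rw [List.prod_ofFn]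
  apply Multiplicative.toAdd.injective
  rw [toAdd_prod, toAdd_ofAdd]
  funext j
  rw [Finset.sum_apply]
  simp only [toAdd_zpow, toAdd_ofAdd, Pi.smul_apply, smul_eq_mul]
  rw [Finset.sum_eq_single j]
  · simp
  · intro i _ hij
    rw [Pi.single_eq_of_ne hij.symm, mul_zero]
  · intro h
    exact absurd (Finset.mem_univ j) h

lemma hom_eq_oprod (φ : Multiplicative (Fin d → ℤ) →* G) (p : Fin d → ℤ) :
    φ (Multiplicative.ofAdd p) = oprod (fun i => φ (Multiplicative.ofAdd (Pi.single i 1))) p := by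
  rw [ofAdd_eq_oprod, map_oprod]

lemma oprod_mem {S : Subgroup G} {g : Fin d → G} (hg : ∀ i, g i ∈ S) (p : Fin d → ℤ) :
    oprod g p ∈ S := by
  unfold oprod
  refine Subgroup.list_prod_mem _ fun σ hσ => ?_
  rw [List.mem_ofFn] at hσ
  obtain ⟨i, rfl⟩ := hσ
  exact Subgroup.zpow_mem _ (hg i) _

lemma oprod_single (g : Fin d → G) (hg : ∀ i j, g i * g j = g j * g i) (i : Fin d) (z : ℤ) :
    oprod g (Pi.single i z) = g i ^ z := by
  have h1 : ∀ z : ℤ, cHom g hg (Multiplicative.ofAdd (Pi.single i z)) =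
      (cHom g hg (Multiplicative.ofAdd (Pi.single i 1))) ^ z := by
    intro z
    rw [← map_zpow, ← ofAdd_zsmul]
    congr 2
    rw [← Pi.single_smul, smul_eq_mul, mul_one]
  have h2 : cHom g hg (Multiplicative.ofAdd (Pi.single i 1)) = g i := by
    change (List.ofFn fun j => g j ^ (Pi.single i (1 : ℤ) : Fin d → ℤ) j).prod = g i
    clear h1
    induction d with
    | zero => exact i.elim0
    | succ d ih =>
      rw [List.ofFn_succ, List.prod_cons]
      refine Fin.cases ?_ (fun i' => ?_) i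
      · rw [Pi.single_eq_same, zpow_one]
        have : (List.ofFn fun j : Fin d => g j.succ ^ (Pi.single (0 : Fin (d + 1)) (1 : ℤ) : Fin (d + 1) → ℤ) j.succ).prod = 1 := by
          refine List.prod_eq_one fun x hx => ?_
          rw [List.mem_ofFn] at hx
          obtain ⟨j, rfl⟩ := hx
          rw [Pi.single_eq_of_ne (Fin.succ_ne_zero j), zpow_zero]
        rw [this, mul_one]
      · have h3 := ih (fun j => g j.succ) (fun a b => hg _ _) i'
        rw [Pi.single_eq_of_ne (Fin.succ_ne_zero i').symm, zpow_zero, one_mul]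
        rw [← h3]
        congr 2
        funext j
        congr 1
        simp [Pi.single_apply]
  have h3 := h1 z
  rw [h2] at h3
  exact h3

end chom

section nil

variable {d : ℕ} {N : Type*} [AddCommGroup N] [Module (LR d) N]
  {Γ Γ' : Type*} [AddCommGroup Γ] [AddCommGroup Γ']

/-- canonical units of the group ring -/
noncomputable def uu (d : ℕ) : Multiplicative (Fin d → ℤ) →* (LR d)ˣ :=
  (MonoidAlgebra.of ℤ (Multiplicative (Fin d → ℤ))).toHomUnits

lemma uu_val (g : Multiplicative (Fin d → ℤ)) :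
    ((uu d g : (LR d)ˣ) : LR d) = MonoidAlgebra.of ℤ (Multiplicative (Fin d → ℤ)) g := rfl

/-- augmentation ideal -/
noncomputable def aug (d : ℕ) : Ideal (LR d) :=
  Ideal.span (Set.range fun g => ((uu d g : LR d) - 1))

lemma sub_one_mem_aug (g : Multiplicative (Fin d → ℤ)) : ((uu d g : LR d) - 1) ∈ aug d :=
  Ideal.subset_span ⟨g, rfl⟩

/-- A subgroup of `Γ`, invariant, transversal to the kernel of `π`, large. -/
theorem exists_K [IsNoetherian (LR d) N] (π : Γ →+ Γ') (ι : N →+ Γ') (hι : Function.Injective ι)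
    (hsurj : ∀ ν, ∃ ψ, π ψ = ι ν)
    (τ : Fin d → (AddMonoid.End Γ)ˣ)
    (hτc : ∀ i ψ, π ψ = 0 → (τ i : AddMonoid.End Γ) ψ = ψ)
    (hτπ : ∀ i (z : ℤ) ψ ν, π ψ = ι ν → π (((τ i ^ z : (AddMonoid.End Γ)ˣ) : AddMonoid.End Γ) ψ) =
      ι (uu d (Multiplicative.ofAdd (Pi.single i z)) • ν))
    {s : ℕ} (hs : ∀ ν ∈ aug d ^ s • (⊤ : Submodule (LR d) N), ∀ ψ, π ψ = ι ν → ∀ i j,
      (τ i : AddMonoid.End Γ) ((τ j : AddMonoid.End Γ) ψ) =
        (τ j : AddMonoid.End Γ) ((τ i : AddMonoid.End Γ) ψ)) :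
    ∃ (S : ℕ) (K : AddSubgroup Γ),
      (∀ i (z : ℤ), ∀ ψ ∈ K, ((τ i ^ z : (AddMonoid.End Γ)ˣ) : AddMonoid.End Γ) ψ ∈ K) ∧
      (∀ ψ ∈ K, π ψ = 0 → ψ = 0) ∧
      (∀ ν ∈ aug d ^ S • (⊤ : Submodule (LR d) N), ∃ ψ ∈ K, π ψ = ι ν) := by
  classical
  set Ns : Submodule (LR d) N := aug d ^ s • (⊤ : Submodule (LR d) N) with hNs
  -- the subgroup
  let Γs : AddSubgroup Γ := (AddSubgroup.map ι Ns.toAddSubgroup).comap π
  have hmem : ∀ ψ, ψ ∈ Γs ↔ ∃ ν ∈ Ns, π ψ = ι ν := by
    intro ψ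
    constructor
    · rintro ⟨ν, hν, hh⟩
      exact ⟨ν, hν, hh.symm⟩
    · rintro ⟨ν, hν, hh⟩
      exact ⟨ν, hν, hh.symm⟩
  have hinv : ∀ i (z : ℤ) (ψ : Γs), ((τ i ^ z : (AddMonoid.End Γ)ˣ) : AddMonoid.End Γ) ψ ∈ Γs := by
    intro i z ψ
    obtain ⟨ν, hν, hh⟩ := (hmem _).1 ψ.2
    exact (hmem _).2 ⟨_, Ns.smul_mem _ hν, hτπ i z ψ ν hh⟩
  let rs : Fin d → ℤ → AddMonoid.End Γs := fun i z =>
    (((τ i ^ z : (AddMonoid.End Γ)ˣ) : AddMonoid.End Γ).comp Γs.subtype).codRestrict Γs (hinv i z)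
  have hrs : ∀ i z (ψ : Γs), ((rs i z ψ : Γs) : Γ) =
      ((τ i ^ z : (AddMonoid.End Γ)ˣ) : AddMonoid.End Γ) ψ := fun _ _ _ => rfl
  have hrs_add : ∀ i z z', rs i z * rs i z' = rs i (z + z') := by
    intro i z z'
    refine AddMonoidHom.ext fun ψ => Subtype.ext ?_
    refine Eq.trans ?_ (hrs i (z + z') ψ).symm
    change ((τ i ^ z : (AddMonoid.End Γ)ˣ) : AddMonoid.End Γ)
      (((τ i ^ z' : (AddMonoid.End Γ)ˣ) : AddMonoid.End Γ) ψ) = _
    rw [zpow_add]
    rfl
  have hrs_zero : ∀ i, rs i 0 = 1 := by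
    intro i
    refine AddMonoidHom.ext fun ψ => Subtype.ext ?_
    refine (hrs i 0 ψ).trans ?_
    rw [zpow_zero]
    rfl
  let τs : Fin d → (AddMonoid.End Γs)ˣ := fun i =>
    { val := rs i 1
      inv := rs i (-1)
      val_inv := by rw [hrs_add]; exact hrs_zero i
      inv_val := by rw [hrs_add]; exact hrs_zero i }
  have hτs : ∀ i (z : ℤ), ((τs i ^ z : (AddMonoid.End Γs)ˣ) : AddMonoid.End Γs) = rs i z := by
    intro i z
    let f : Multiplicative ℤ →* (AddMonoid.End Γs) :=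
      { toFun := fun z => rs i z.toAdd
        map_one' := hrs_zero i
        map_mul' := fun a b => (hrs_add i _ _).symm }
    have h1 : f.toHomUnits (Multiplicative.ofAdd 1) = τs i := Units.ext rfl
    have h2 : f.toHomUnits (Multiplicative.ofAdd z) = τs i ^ z := by
      rw [← h1, ← map_zpow, ← ofAdd_zsmul, smul_eq_mul, mul_one]
    rw [← h2]
    rfl
  have hcomm : ∀ i j, τs i * τs j = τs j * τs i := by
    intro i j
    refine Units.ext (AddMonoidHom.ext fun ψ => Subtype.ext ?_)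
    obtain ⟨ν, hν, hh⟩ := (hmem _).1 ψ.2
    have := hs ν hν ψ hh i j
    change ((τ i ^ (1 : ℤ) : (AddMonoid.End Γ)ˣ) : AddMonoid.End Γ)
      (((τ j ^ (1 : ℤ) : (AddMonoid.End Γ)ˣ) : AddMonoid.End Γ) ψ) =
      ((τ j ^ (1 : ℤ) : (AddMonoid.End Γ)ˣ) : AddMonoid.End Γ)
      (((τ i ^ (1 : ℤ) : (AddMonoid.End Γ)ˣ) : AddMonoid.End Γ) ψ)
    rw [zpow_one, zpow_one]
    exact this
  set φ : Multiplicative (Fin d → ℤ) →* AddMonoid.End Γs :=
    (Units.coeHom _).comp (cHom τs hcomm) with hφ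
  let _ : Module (LR d) Γs := Module.compHom Γs (MonoidAlgebra.lift ℤ _ _ φ).toRingHom
  have hsmul : ∀ (g : Multiplicative (Fin d → ℤ)) (ψ : Γs),
      (MonoidAlgebra.of ℤ (Multiplicative (Fin d → ℤ)) g : LR d) • ψ = φ g ψ := by
    intro g ψ
    change (MonoidAlgebra.lift ℤ _ _ φ) (MonoidAlgebra.of ℤ (Multiplicative (Fin d → ℤ)) g) ψ = _
    rw [MonoidAlgebra.lift_of]
  -- the projection
  have hπg : ∀ (g : Multiplicative (Fin d → ℤ)) (ψ : Γs) (ν : N), π ψ = ι ν →
      π (φ g ψ : Γs) = ι (uu d g • ν) := by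
    intro g ψ ν hψ
    have key : ∀ (l : List (Fin d)) (p : Fin d → ℤ) (ψ : Γs) (ν : N), π ψ = ι ν →
        π ((((l.map fun i => τs i ^ p i).prod : (AddMonoid.End Γs)ˣ) : AddMonoid.End Γs) ψ : Γs) =
          ι ((l.map fun i => uu d (Multiplicative.ofAdd (Pi.single i (p i)))).prod • ν) := by
      intro l p
      induction l with
      | nil =>
        intro ψ ν h
        simp only [List.map_nil, List.prod_nil, one_smul]
        exact h
      | cons i l ih =>
        intro ψ ν h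
        rw [List.map_cons, List.prod_cons, List.map_cons, List.prod_cons, mul_smul]
        have h1 := ih ψ ν h
        have h2 := hτπ i (p i) _ _ h1
        refine Eq.trans ?_ h2
        congr 1
        rw [Units.val_mul]
        change ((((τs i ^ p i : (AddMonoid.End Γs)ˣ) : AddMonoid.End Γs)
          ((((l.map fun i => τs i ^ p i).prod : (AddMonoid.End Γs)ˣ) : AddMonoid.End Γs) ψ) : Γs) : Γ)
            = _
        rw [hτs]
        exact hrs _ _ _
    have h1 := key (List.finRange d) g.toAdd ψ ν hψ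
    have h2 : φ g = (((List.finRange d).map fun i => τs i ^ g.toAdd i).prod :
        (AddMonoid.End Γs)ˣ) := by
      change ((oprod τs g.toAdd : (AddMonoid.End Γs)ˣ) : AddMonoid.End Γs) = _
      unfold oprod
      rw [List.ofFn_eq_map]
    have h3 : uu d g = ((List.finRange d).map fun i =>
        uu d (Multiplicative.ofAdd (Pi.single i (g.toAdd i)))).prod := by
      have h4 := hom_eq_oprod (uu d) g.toAdd
      rw [ofAdd_toAdd] at h4
      refine h4.trans ?_
      unfold oprod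
      rw [List.ofFn_eq_map]
      congr 2
      funext i
      rw [← map_zpow, ← ofAdd_zsmul]
      congr 2
      rw [← Pi.single_smul, smul_eq_mul, mul_one]
    rw [h2, h3]
    exact h1
  have hπr : ∀ (r : LR d) (ψ : Γs) (ν : N), π ψ = ι ν → π (r • ψ : Γs) = ι (r • ν) := by
    intro r
    induction r using MonoidAlgebra.induction_on with
    | of g =>
      intro ψ ν h
      rw [hsmul]
      exact hπg g ψ ν h
    | add a b ha hb =>
      intro ψ ν h
      rw [add_smul, add_smul, map_add, ← ha ψ ν h, ← hb ψ ν h]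
      exact map_add π _ _
    | smul c a ha =>
      intro ψ ν h
      rw [smul_assoc, smul_assoc, map_zsmul, ← ha ψ ν h]
      exact map_zsmul π _ _
  choose πf hπf1 hπf2 using fun ψ : Γs => (hmem _).1 ψ.2
  let πs : Γs →ₗ[LR d] N :=
    { toFun := πf
      map_add' := by
        intro a b
        apply hι
        rw [map_add, ← hπf2, ← hπf2, ← hπf2]
        exact map_add π _ _
      map_smul' := by
        intro r a
        apply hι
        rw [← hπf2, RingHom.id_apply]
        exact hπr r a _ (hπf2 a) }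
  have hπs : ∀ ψ : Γs, π ψ = ι (πs ψ) := hπf2
  have hπsmem : ∀ ψ : Γs, πs ψ ∈ Ns := hπf1
  -- generators
  obtain ⟨S0, hS0⟩ := IsNoetherian.noetherian Ns
  choose lift hlift using hsurj
  have hliftmem : ∀ ν ∈ Ns, lift ν ∈ Γs := fun ν hν => (hmem _).2 ⟨ν, hν, hlift ν⟩
  have hS0N : ∀ ν ∈ S0, ν ∈ Ns := fun ν hν => hS0 ▸ Submodule.subset_span hν
  let G0 : Set Γs := Set.range fun ν : S0 => (⟨lift ν, hliftmem _ (hS0N _ ν.2)⟩ : Γs)
  let Nt : Submodule (LR d) Γs := Submodule.span (LR d) G0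
  have hfin : Module.Finite (LR d) Nt :=
    Module.Finite.iff_fg.2 (Submodule.fg_span (Set.finite_range _))
  let πt : Nt →ₗ[LR d] N := πs.comp Nt.subtype
  have hrange : Submodule.map πt ⊤ = Ns := by
    rw [Submodule.map_top, LinearMap.range_comp, Submodule.range_subtype, Submodule.map_span]
    rw [← hS0]
    congr 1
    ext ν
    constructor
    · rintro ⟨_, ⟨ν', rfl⟩, rfl⟩
      have : πs (⟨lift ν', hliftmem _ (hS0N _ ν'.2)⟩ : Γs) = ν' := by
        apply hι
        rw [← hπs]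
        exact hlift _
      rw [this]
      exact ν'.2
    · intro hν
      refine ⟨_, ⟨⟨ν, hν⟩, rfl⟩, ?_⟩
      apply hι
      rw [← hπs]
      exact hlift _
  set C : Submodule (LR d) Nt := LinearMap.ker πt with hC
  have hker : ∀ (r : LR d), r ∈ aug d → ∀ c ∈ C, r • c = 0 := by
    intro r hr c hc
    induction hr using Submodule.span_induction with
    | mem r hr =>
      obtain ⟨g, rfl⟩ := hr
      refine (sub_smul (uu d g : LR d) 1 c).trans ?_
      rw [one_smul, sub_eq_zero]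
      have h0 : π (c : Γs) = 0 := by
        rw [hπs]
        have : πs (c : Γs) = 0 := hc
        rw [this, map_zero]
      have key : ∀ (l : List (Fin d)) (p : Fin d → ℤ),
          ((l.map fun i => τs i ^ p i).prod : (AddMonoid.End Γs)ˣ).val (c : Γs) = (c : Γs) := by
        intro l p
        induction l with
        | nil => rfl
        | cons i l ih =>
          rw [List.map_cons, List.prod_cons, Units.val_mul]
          change ((τs i ^ p i : (AddMonoid.End Γs)ˣ) : AddMonoid.End Γs)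
            (((l.map fun i => τs i ^ p i).prod : (AddMonoid.End Γs)ˣ).val (c : Γs)) = _
          rw [ih]
          have hfix : ∀ i, ((τs i : (AddMonoid.End Γs)ˣ) : AddMonoid.End Γs) (c : Γs) = c := by
            intro i
            apply Subtype.ext
            refine (hrs i 1 _).trans ?_
            rw [zpow_one]
            exact hτc i _ h0
          let St : Subgroup (AddMonoid.End Γs)ˣ :=
            { carrier := {t | (t : AddMonoid.End Γs) (c : Γs) = c}
              mul_mem' := by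
                intro a b ha hb
                change (a : AddMonoid.End Γs) ((b : AddMonoid.End Γs) (c : Γs)) = c
                rw [show (b : AddMonoid.End Γs) (c : Γs) = c from hb]
                exact ha
              one_mem' := rfl
              inv_mem' := by
                intro a ha
                change ((a⁻¹ : (AddMonoid.End Γs)ˣ) : AddMonoid.End Γs) (c : Γs) = c
                conv_lhs => rw [← show (a : AddMonoid.End Γs) (c : Γs) = c from ha]
                change (((a⁻¹ : (AddMonoid.End Γs)ˣ) : AddMonoid.End Γs) * a) (c : Γs) = c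
                rw [Units.inv_mul]
                rfl }
          exact Subgroup.zpow_mem St (show τs i ∈ St from hfix i) (p i)
      apply Subtype.ext
      change (MonoidAlgebra.of ℤ (Multiplicative (Fin d → ℤ)) g : LR d) • (c : Γs) = c
      rw [hsmul]
      have h1 := key (List.finRange d) g.toAdd
      rw [← List.ofFn_eq_map] at h1
      exact h1
    | zero => rw [zero_smul]
    | add a b _ _ ha hb => rw [add_smul, ha, hb, add_zero]
    | smul a b _ hb => rw [smul_assoc, hb, smul_zero]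
  obtain ⟨E, hE⟩ := Ideal.exists_pow_inf_eq_pow_smul (aug d) C
  set S' : Submodule (LR d) Nt := aug d ^ (E + 1) • ⊤ with hS'
  have hSC : S' ⊓ C = ⊥ := by
    rw [hS', hE (E + 1) (Nat.le_succ E), eq_bot_iff, Nat.add_sub_cancel_left, pow_one,
      Submodule.smul_le]
    intro r hr c hc
    rw [hker r hr c hc.2]
    exact Submodule.zero_mem _
  refine ⟨s + (E + 1), AddSubgroup.map (Γs.subtype.comp Nt.subtype.toAddMonoidHom)
    S'.toAddSubgroup, ?_, ?_, ?_⟩
  · rintro i z _ ⟨x, hx, rfl⟩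
    refine ⟨(MonoidAlgebra.of ℤ (Multiplicative (Fin d → ℤ)) (Multiplicative.ofAdd (Pi.single i z)) :
      LR d) • x, S'.smul_mem _ hx, ?_⟩
    change (((MonoidAlgebra.of ℤ (Multiplicative (Fin d → ℤ))
      (Multiplicative.ofAdd (Pi.single i z)) : LR d) • (x : Γs) : Γs) : Γ) =
      ((τ i ^ z : (AddMonoid.End Γ)ˣ) : AddMonoid.End Γ) (x : Γs)
    rw [hsmul]
    have h1 : φ (Multiplicative.ofAdd (Pi.single i z)) = rs i z := by
      rw [← hτs]
      change ((oprod τs (Pi.single i z) : (AddMonoid.End Γs)ˣ) : AddMonoid.End Γs) = _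
      rw [oprod_single τs hcomm]
    rw [h1]
    exact hrs i z x
  · rintro _ ⟨x, hx, rfl⟩ h0
    have h1 : x ∈ C := by
      change πs (x : Γs) = 0
      apply hι
      rw [map_zero, ← hπs]
      exact h0
    have h2 : x ∈ S' ⊓ C := ⟨hx, h1⟩
    rw [hSC, Submodule.mem_bot] at h2
    rw [h2]
    rfl
  · intro ν hν
    rw [pow_add, mul_comm, Submodule.mul_smul, ← hNs, ← hrange, ← Submodule.map_smul''] at hν
    obtain ⟨x, hx, rfl⟩ := hν
    exact ⟨_, ⟨x, hx, rfl⟩, hπs _⟩

/-- successive application of powers -/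
def wl (τ : Fin d → (AddMonoid.End Γ)ˣ) (l : List (Fin d)) (p : Fin d → ℤ) (ψ : Γ) : Γ :=
  l.foldl (fun ψ i => ((τ i ^ p i : (AddMonoid.End Γ)ˣ) : AddMonoid.End Γ) ψ) ψ

/-- the phases of a nilpotent action are polynomial -/
theorem hpoly_nil [IsNoetherian (LR d) N] {J : Type*} [Fintype J] (π : Γ →+ Γ') (ι : N →+ Γ')
    (hι : Function.Injective ι) (hsurj : ∀ ν, ∃ ψ, π ψ = ι ν)
    (τ : Fin d → (AddMonoid.End Γ)ˣ)
    (hτc : ∀ i (z : ℤ) ψ, π ψ = 0 → ((τ i ^ z : (AddMonoid.End Γ)ˣ) : AddMonoid.End Γ) ψ = ψ)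
    (hτπ : ∀ i (z : ℤ) ψ ν, π ψ = ι ν → π (((τ i ^ z : (AddMonoid.End Γ)ˣ) : AddMonoid.End Γ) ψ) =
      ι (uu d (Multiplicative.ofAdd (Pi.single i z)) • ν))
    {s : ℕ} (hs : ∀ ν ∈ aug d ^ s • (⊤ : Submodule (LR d) N), ∀ ψ, π ψ = ι ν → ∀ i j,
      (τ i : AddMonoid.End Γ) ((τ j : AddMonoid.End Γ) ψ) =
        (τ j : AddMonoid.End Γ) ((τ i : AddMonoid.End Γ) ψ))
    (χ : J → Γ) (hχ : ∀ j, ∃ ν : N, π (χ j) = ι ν) (V : Type) [AddCommGroup V] (k : ℕ) :
    ∃ e' : ℕ, ∀ P : J → V → (Fin d → ℤ), (∀ j, PD k (P j)) → ∀ (ex : V →+ V)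
      (h : ∀ n, Fw (fun j p => wl τ (List.finRange d) p (χ j)) P n -
        Fw (fun j p => wl τ (List.finRange d) p (χ j)) P (ex n) ∈ π.ker),
      PD e' (fun n => (⟨_, h n⟩ : π.ker)) := by
  classical
  obtain ⟨S, K, hK1, hK2, hK3⟩ := exists_K π ι hι hsurj τ
    (fun i ψ h => by have := hτc i 1 ψ h; rwa [zpow_one] at this) hτπ hs
  let β : Fin d → ℤ → (Γ ⧸ K →+ Γ ⧸ K) := fun i z =>
    QuotientAddGroup.map K K ((τ i ^ z : (AddMonoid.End Γ)ˣ) : AddMonoid.End Γ)
      (fun ψ hψ => hK1 i z ψ hψ)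
  have hβmk : ∀ i z (ψ : Γ), β i z (ψ : Γ ⧸ K) =
      ((((τ i ^ z : (AddMonoid.End Γ)ˣ) : AddMonoid.End Γ) ψ : Γ) : Γ ⧸ K) := fun _ _ _ => rfl
  let Γi : ℕ → AddSubgroup Γ := fun i =>
    (AddSubgroup.map ι (aug d ^ i • (⊤ : Submodule (LR d) N)).toAddSubgroup).comap π
  have hmem : ∀ i ψ, ψ ∈ Γi i ↔ ∃ ν ∈ aug d ^ i • (⊤ : Submodule (LR d) N), π ψ = ι ν := by
    intro i ψ
    constructor
    · rintro ⟨ν, hν, hh⟩
      exact ⟨ν, hν, hh.symm⟩
    · rintro ⟨ν, hν, hh⟩
      exact ⟨ν, hν, hh.symm⟩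
  let Φ : ℕ → AddSubgroup (Γ ⧸ K) := fun i =>
    if i ≤ S then AddSubgroup.map (QuotientAddGroup.mk' K) (Γi i) else ⊥
  have hΦ0 : ∀ x, x ∈ Φ 0 ↔ ∃ ψ ν, π ψ = ι ν ∧ x = (ψ : Γ ⧸ K) := by
    intro x
    simp only [Φ, Nat.zero_le, if_true]
    constructor
    · rintro ⟨ψ, hψ, rfl⟩
      obtain ⟨ν, -, hν⟩ := (hmem 0 ψ).1 hψ
      exact ⟨ψ, ν, hν, rfl⟩
    · rintro ⟨ψ, ν, hν, rfl⟩
      refine ⟨ψ, (hmem 0 ψ).2 ⟨ν, ?_, hν⟩, rfl⟩
      rw [pow_zero, Ideal.one_eq_top, Submodule.top_smul]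
      exact Submodule.mem_top
  have hΦE : Φ (S + 1) = ⊥ := by
    simp only [Φ]
    rw [if_neg (by omega)]
  have hβΦ : ∀ i (z : ℤ) m, ∀ x ∈ Φ m, β i z x - x ∈ Φ (m + 1) := by
    intro i z m x hx
    by_cases hm : m ≤ S
    · simp only [Φ, if_pos hm] at hx
      obtain ⟨ψ, hψ, rfl⟩ := hx
      obtain ⟨ν, hν, hψν⟩ := (hmem m ψ).1 hψ
      rw [QuotientAddGroup.mk'_apply, hβmk, ← QuotientAddGroup.mk_sub]
      rcases hm.lt_or_eq with hm | rfl
      · simp only [Φ, if_pos (Nat.succ_le_of_lt hm)]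
        refine ⟨_, (hmem (m + 1) _).2 ⟨((uu d (Multiplicative.ofAdd (Pi.single i z)) : LR d) - 1) • ν,
          ?_, ?_⟩, rfl⟩
        · rw [pow_succ', Submodule.mul_smul]
          exact Submodule.smul_mem_smul (sub_one_mem_aug _) hν
        · rw [map_sub, hτπ i z ψ ν hψν, hψν, sub_smul, one_smul, map_sub]
          rfl
      · obtain ⟨κ, hκ, hκν⟩ := hK3 ν hν
        have h1 : π (ψ - κ) = 0 := by rw [map_sub, hψν, hκν, sub_self]
        have h2 := hτc i z _ h1
        rw [map_sub] at h2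
        have h3 : ((τ i ^ z : (AddMonoid.End Γ)ˣ) : AddMonoid.End Γ) ψ - ψ =
            ((τ i ^ z : (AddMonoid.End Γ)ˣ) : AddMonoid.End Γ) κ - κ := by
          rw [sub_eq_sub_iff_add_eq_add] at h2 ⊢
          rw [h2, add_comm]
        have h4 : ((τ i ^ z : (AddMonoid.End Γ)ˣ) : AddMonoid.End Γ) ψ - ψ ∈ K := by
          rw [h3]
          exact K.sub_mem (hK1 i z κ hκ) hκ
        rw [(QuotientAddGroup.eq_zero_iff _).2 h4]
        exact AddSubgroup.zero_mem _
    · simp only [Φ, if_neg hm] at hx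
      rw [AddSubgroup.mem_bot] at hx
      rw [hx, map_zero, sub_zero]
      exact AddSubgroup.zero_mem _
  have hβ0 : ∀ i x, β i 0 x = x := by
    intro i x
    obtain ⟨ψ, rfl⟩ := QuotientAddGroup.mk_surjective x
    rw [hβmk, zpow_zero]
    rfl
  have hβadd : ∀ i z z' x, β i (z + z') x = β i z (β i z' x) := by
    intro i z z' x
    obtain ⟨ψ, rfl⟩ := QuotientAddGroup.mk_surjective x
    rw [hβmk, hβmk, hβmk, zpow_add]
    rfl
  have hβ0Φ : ∀ i z, ∀ x ∈ Φ 0, β i z x ∈ Φ 0 := by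
    intro i z x hx
    obtain ⟨ψ, ν, hν, rfl⟩ := (hΦ0 x).1 hx
    exact (hΦ0 _).2 ⟨_, _, hτπ i z ψ ν hν, rfl⟩
  -- polynomiality along lists
  have key : ∀ (l : List (Fin d)) (e : ℕ), ∃ e' : ℕ, ∀ Q : V → (Fin d → ℤ), PD k Q →
      ∀ y : V → Γ ⧸ K, PD e y → (∀ n, y n ∈ Φ 0) →
        PD e' fun n => l.foldl (fun x i => β i (Q n i) x) (y n) := by
    intro l
    induction l with
    | nil =>
      intro e
      exact ⟨e, fun Q _ y hy _ => hy⟩
    | cons i l ih =>
      intro e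
      obtain ⟨e₁, he₁⟩ := unipF (V := V) (β i) (hβ0 i) (hβadd i) Φ (hβΦ i) hΦE (S + 1) 0 k e (by omega)
      obtain ⟨e₂, he₂⟩ := ih e₁
      refine ⟨e₂, fun Q hQ y hy hy0 => ?_⟩
      have hQi : PD k fun n => Q n i := hQ.comp_hom (Pi.evalAddMonoidHom (fun _ : Fin d => ℤ) i)
      exact he₂ Q hQ _ (he₁ _ hQi y hy hy0) fun n => hβ0Φ i _ _ (hy0 n)
  obtain ⟨e', he'⟩ := key (List.finRange d) 1
  have hfold : ∀ (l : List (Fin d)) (p : Fin d → ℤ) (ψ : Γ), ((wl τ l p ψ : Γ) : Γ ⧸ K) =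
      l.foldl (fun x i => β i (p i) x) (ψ : Γ ⧸ K) := by
    intro l p
    induction l with
    | nil => intro ψ; rfl
    | cons i l ih =>
      intro ψ
      exact ih _
  refine ⟨e', fun P hP ex h => ?_⟩
  let φ : π.ker →+ Γ ⧸ K := (QuotientAddGroup.mk' K).comp π.ker.subtype
  have hφ : Function.Injective φ := by
    rw [injective_iff_map_eq_zero]
    intro c hc
    have h1 : (c : Γ) ∈ K := (QuotientAddGroup.eq_zero_iff _).1 hc
    exact Subtype.ext (hK2 _ h1 c.2)
  refine PD.of_comp_hom φ hφ ?_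
  have h1 : (fun n => φ (⟨_, h n⟩ : π.ker)) =
      (∑ j, fun n => (List.finRange d).foldl (fun x i => β i (P j n i) x) (χ j : Γ ⧸ K)) -
        ∑ j, fun n => (List.finRange d).foldl (fun x i => β i (P j (ex n) i) x) (χ j : Γ ⧸ K) := by
    funext n
    change QuotientAddGroup.mk' K (Fw (fun j p => wl τ (List.finRange d) p (χ j)) P n -
        Fw (fun j p => wl τ (List.finRange d) p (χ j)) P (ex n)) = _
    unfold Fw
    rw [map_sub, map_sum, map_sum, Pi.sub_apply, Finset.sum_apply, Finset.sum_apply]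
    simp only [QuotientAddGroup.mk'_apply, hfold]
  have hχ0 : ∀ j, (χ j : Γ ⧸ K) ∈ Φ 0 := fun j => (hΦ0 _).2 ⟨χ j, (hχ j).choose,
    (hχ j).choose_spec, rfl⟩
  rw [h1]
  refine PD.sub (PD.sum _ fun j _ => ?_) (PD.sum _ fun j _ => ?_)
  · exact he' (P j) (hP j) (fun _ => (χ j : Γ ⧸ K)) (PD.const _) fun _ => hχ0 j
  · have h2 := (hP j).comp_affine ex 0
    simp only [add_zero] at h2
    exact he' _ h2 (fun _ => (χ j : Γ ⧸ K)) (PD.const _) fun _ => hχ0 j

end nil

end Pool.Agent.Lib.Pf720ae.Aff
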