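import Pool.Agent.Lib.Pf720ae.Aff.PolyMap

/-!
# Periodic polynomial maps
-/

set_option autoImplicit false
set_option linter.unusedSectionVars false

open Finset

namespace Pool.Agent.Lib.Pf720ae.Aff

variable {V A : Type*} [AddCommGroup V] [AddCommGroup A]

/-- `f` is periodic with period `q` in all directions -/
def Per (q : ℕ) (f : V → A) : Prop := ∀ n h : V, f (n + q • h) = f n

lemma Per.mul {q : ℕ} {f : V → A} (h : Per q f) (q' : ℕ) : Per (q * q') f := by
  intro n v
  rw [mul_smul]
  exact h n _

lemma Per.mul' {q : ℕ} {f : V → A} (h : Per q f) (q' : ℕ) : Per (q' * q) f := by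
  rw [mul_comm]; exact h.mul q'

lemma Per.df {q : ℕ} {f : V → A} (h : Per q f) (v : V) : Per q (df v f) := by
  intro n w
  simp only [df_apply]
  rw [h n w, add_right_comm, h]

lemma Per.nsmul {q : ℕ} {f : V → A} (h : Per q f) (m : ℕ) : Per q (m • f) := by
  intro n w
  simp only [Pi.smul_apply]
  rw [h]

lemma df_nsmul (h : V) (m : ℕ) (f : V → A) : df h (m • f) = m • df h f := by
  funext n
  simp only [df_apply, Pi.smul_apply, smul_sub]

lemma PD.nsmul {k : ℕ} {f : V → A} (hf : PD k f) (m : ℕ) : PD k (m • f) := by
  induction k generalizing f with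
  | zero => rw [show f = 0 from hf, smul_zero]; rfl
  | succ k ih => intro h; rw [df_nsmul]; exact ih (hf h)

/-- a multiple of a periodic polynomial map is constant -/
lemma PD.const_of_per {k q : ℕ} {f : V → A} (hf : PD (k + 1) f) (hq : Per q f) :
    PD 1 (q ^ k • f) := by
  induction k generalizing f with
  | zero => rw [pow_zero, one_smul]; exact hf
  | succ k ih =>
    set b := q ^ k • f with hb
    have hbper : Per q b := hq.nsmul _
    have hb2 : PD 2 b := by
      intro h
      rw [hb, df_nsmul]
      exact ih (hf h) (hq.df h)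
    have h1 : ∀ h : V, ∀ j : ℕ, b (j • h) - b 0 = j • (b h - b 0) := by
      intro h j
      induction j with
      | zero => simp
      | succ j ihj =>
        have := const_df_add hb2 (j • h) h 0
        rw [zero_add] at this
        rw [succ_nsmul, this, ihj, succ_nsmul]
    have h2 : ∀ h : V, q • (b h - b 0) = 0 := by
      intro h
      rw [← h1]
      have := hbper 0 h
      rw [zero_add] at this
      rw [this, sub_self]
    have h3 : q ^ (k + 1) • f = q • b := by
      rw [hb, smul_smul, pow_succ']
    rw [h3]
    intro h
    funext n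
    have h4 := (hb2 h).one_const n 0
    simp only [df_apply, zero_add] at h4
    rw [df_nsmul, Pi.smul_apply, df_apply, h4, h2]
    rfl

/-- a polynomial map with values in a group of finite exponent is periodic -/
lemma PD.per_of_torsion {k N : ℕ} {f : V → A} (hf : PD k f) (hN : N • f = 0) : Per (N ^ k) f := by
  induction k generalizing f with
  | zero =>
    intro n h
    rw [show f = 0 from hf]
    rfl
  | succ k ih =>
    intro n h
    set p := N ^ k with hp
    have hg : Per p (Aff.df h f) := ih (hf h) (by rw [← df_nsmul, hN, df_zero_fun])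
    -- telescoping
    have htel : ∀ (j : ℕ) (n : V), f (n + j • h) = f n + ∑ i ∈ range j, Aff.df h f (n + i • h) := by
      intro j
      induction j with
      | zero => intro n; simp
      | succ j ihj =>
        intro n
        rw [Finset.sum_range_succ, ← add_assoc, ← ihj, df_apply, succ_nsmul, ← add_assoc]
        abel
    have hb1 : ∀ n : V, f (n + h + p • h) - f (n + h) = f (n + p • h) - f n := by
      intro n
      have h1 := hg n h
      simp only [df_apply] at h1
      rw [add_right_comm] at h1
      rw [sub_eq_sub_iff_sub_eq_sub]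
      exact h1
    have hb2 : ∀ (j : ℕ) (n : V), f (n + j • h + p • h) - f (n + j • h) = f (n + p • h) - f n := by
      intro j
      induction j with
      | zero => intro n; simp
      | succ j ihj =>
        intro n
        rw [succ_nsmul, ← add_assoc, hb1, ihj]
    have hb3 : ∀ (m : ℕ), f (n + (m * p) • h) = f n + m • (f (n + p • h) - f n) := by
      intro m
      induction m with
      | zero => simp
      | succ m ihm =>
        have h1 := hb2 (m * p) n
        have h2 : n + ((m + 1) * p) • h = n + (m * p) • h + p • h := by
          rw [add_mul, one_mul, add_smul, add_assoc]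
        rw [h2, sub_eq_iff_eq_add.1 h1, ihm, succ_nsmul]
        abel
    rw [pow_succ', hb3 N]
    have h4 : ∀ n : V, N • f n = 0 := fun n => congrFun hN n
    rw [smul_sub, h4, h4, sub_self, add_zero]

/-- a polynomial map vanishing on a sublattice is torsion -/
lemma PD.torsion_of_zero (q k : ℕ) : ∃ N : ℕ, (0 < q → 0 < N) ∧ ∀ f : V → A, PD k f →
    (∀ m : V, f (q • m) = 0) → N • f = 0 := by
  induction k with
  | zero =>
    refine ⟨1, fun _ => one_pos, fun f hf _ => ?_⟩
    rw [show f = 0 from hf, smul_zero]
  | succ k ih =>
    obtain ⟨N, hN0, hN⟩ := ih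
    refine ⟨q ^ k * N, fun hq => Nat.mul_pos (pow_pos hq _) (hN0 hq), fun f hf h0 => ?_⟩
    have h1 : Per q (N • f) := by
      intro n h
      have h2 := hN (Aff.df (q • h) f) (hf _) (fun m => by
        rw [df_apply, h0, ← smul_add, h0, sub_zero])
      rw [← df_nsmul] at h2
      have h3 := congrFun h2 n
      rw [df_apply] at h3
      exact sub_eq_zero.1 h3
    have h2 := (hf.nsmul N).const_of_per h1
    funext n
    rw [mul_smul, h2.one_const n 0, Pi.smul_apply, Pi.smul_apply]
    have h3 := h0 0
    rw [smul_zero] at h3
    rw [h3, smul_zero, smul_zero]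
    rfl

/-- a polynomial map which is constant on a coset of a sublattice is periodic -/
theorem PD.per_of_coset {k q : ℕ} (hq : 0 < q) {f : V → A} (hf : PD k f) (s : V)
    (h : ∀ m : V, f (q • m + s) = f s) : ∃ p : ℕ, 0 < p ∧ Per p f := by
  obtain ⟨N, hN0, hN⟩ := PD.torsion_of_zero (V := V) (A := A) q (k + 1)
  have h1 : PD (k + 1) (fun n => f (n + s) - f s) :=
    (hf.shift s).succ.sub ((PD.const (V := V) (f s)).mono (by omega))
  have h2 := hN _ h1 (fun m => by simp only [h, sub_self])
  have h3 := h1.per_of_torsion h2
  refine ⟨N ^ (k + 1), pow_pos (hN0 hq) _, fun n v => ?_⟩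
  have h4 := h3 (n - s) v
  simp only [sub_left_inj] at h4
  have e1 : n - s + N ^ (k + 1) • v + s = n + N ^ (k + 1) • v := by abel
  have e2 : n - s + s = n := by abel
  rwa [e1, e2] at h4

end Pool.Agent.Lib.Pf720ae.Aff
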