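import Pool.Agent.Lib.Pf720ae.Aff.PolyMap
import Pool.Agent.Lib.Pf720ae.Alg.Roots

/-!
# Independence of exponential polynomials on Hilbert cubes
-/

set_option autoImplicit false
set_option linter.unusedSectionVars false

open Finset
open Pool.Agent.Lib.Pf720ae.Alg (HasCube Inj)

namespace Pool.Agent.Lib.Pf720ae.Aff

variable {A : Type*} [AddCommGroup A]

/-- polynomial maps `ℤ → A` which vanish at `0` -/
def PQ (A : Type*) [AddCommGroup A] : AddSubgroup (ℤ → A) where
  carrier := {Q | Q 0 = 0 ∧ ∃ k, PD k Q}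
  add_mem' := by
    rintro Q Q' ⟨h1, k, h2⟩ ⟨h3, k', h4⟩
    exact ⟨by simp [h1, h3], max k k', (h2.mono (le_max_left _ _)).add (h4.mono (le_max_right _ _))⟩
  zero_mem' := ⟨rfl, 0, rfl⟩
  neg_mem' := by
    rintro Q ⟨h1, k, h2⟩
    exact ⟨by simp [h1], k, h2.neg⟩

lemma PQ.zero' (Q : PQ A) : (Q : ℤ → A) 0 = 0 := Q.2.1

/-- the normalised shift -/
def sg (d : ℤ) (Q : PQ A) : PQ A :=
  ⟨fun t => (Q : ℤ → A) (t + d) - (Q : ℤ → A) d, by simp, by
    obtain ⟨k, hk⟩ := Q.2.2
    refine ⟨k + 1, (hk.shift d).succ.sub ((PD.const (V := ℤ) ((Q : ℤ → A) d)).mono (by omega))⟩⟩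

lemma sg_apply (d : ℤ) (Q : PQ A) (t : ℤ) :
    (sg d Q : ℤ → A) t = (Q : ℤ → A) (t + d) - (Q : ℤ → A) d := rfl

lemma sg_sg (d d' : ℤ) (Q : PQ A) : sg d (sg d' Q) = sg (d + d') Q := by
  apply Subtype.ext
  funext t
  simp only [sg_apply]
  rw [add_assoc]
  abel

lemma sg_zero (Q : PQ A) : sg 0 Q = Q := by
  apply Subtype.ext
  funext t
  simp [sg_apply, PQ.zero']

lemma sg_neg_sg (d : ℤ) (Q : PQ A) : sg (-d) (sg d Q) = Q := by
  rw [sg_sg, neg_add_cancel, sg_zero]

lemma sg_sg_neg (d : ℤ) (Q : PQ A) : sg d (sg (-d) Q) = Q := by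
  rw [sg_sg, add_neg_cancel, sg_zero]

lemma sg_injective (d : ℤ) : Function.Injective (sg (A := A) d) := fun Q Q' h => by
  rw [← sg_neg_sg d Q, h, sg_neg_sg]

lemma sg_zero_fun (d : ℤ) : sg d (0 : PQ A) = 0 := by
  apply Subtype.ext
  funext t
  simp [sg_apply]

lemma sg_sub (d : ℤ) (Q R : PQ A) : sg d (Q - R) = sg d Q - sg d R := by
  apply Subtype.ext
  funext t
  simp only [sg_apply, AddSubgroup.coe_sub, Pi.sub_apply]
  abel

lemma PD_sg_sub {j : ℕ} (d : ℤ) {Q : PQ A} (h : PD (j + 1) (Q : ℤ → A)) (hj : 0 < j) :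
    PD j ((sg d Q - Q : PQ A) : ℤ → A) := by
  have h1 : ((sg d Q - Q : PQ A) : ℤ → A) = df d (Q : ℤ → A) - fun _ => (Q : ℤ → A) d := by
    funext t
    simp only [sg_apply, AddSubgroup.coe_sub, Pi.sub_apply, df_apply]
    abel
  rw [h1]
  exact (h d).sub ((PD.const (V := ℤ) _).mono hj)

lemma PD_sg {j : ℕ} (d : ℤ) {Q : PQ A} (h : PD (j + 1) (Q : ℤ → A)) :
    PD (j + 1) ((sg d Q : PQ A) : ℤ → A) := by
  have h1 : ((sg d Q : PQ A) : ℤ → A) = (fun t => (Q : ℤ → A) (t + d)) - fun _ => (Q : ℤ → A) d := by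
    funext t
    simp only [sg_apply, Pi.sub_apply]
  rw [h1]
  exact (h.shift d).sub ((PD.const (V := ℤ) _).mono (by omega))

lemma eq_zero_of_PD_one {Q : PQ A} (h : PD 1 (Q : ℤ → A)) : Q = 0 := by
  apply Subtype.ext
  funext t
  rw [h.one_const t 0, PQ.zero']
  rfl

variable {R : Type*} [CommRing R] {P : Type*} [AddCommGroup P] [Module R P]
  (α : Multiplicative A →* Rˣ)

/-- the exponential polynomial with coefficients `g` -/
def ev (s : Finset (PQ A)) (g : PQ A → ℤ → P) (t : ℤ) : P :=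
  ∑ Q ∈ s, α (Multiplicative.ofAdd ((Q : ℤ → A) t)) • g Q t

/-- the shift on coefficients -/
def Sh (d : ℤ) (g : PQ A → ℤ → P) : PQ A → ℤ → P := fun Q t =>
  α (Multiplicative.ofAdd ((sg (-d) Q : ℤ → A) d)) • g (sg (-d) Q) (t + d)

lemma Sh_sg (d : ℤ) (g : PQ A → ℤ → P) (Q : PQ A) (t : ℤ) :
    Sh α d g (sg d Q) t = α (Multiplicative.ofAdd ((Q : ℤ → A) d)) • g Q (t + d) := by
  unfold Sh
  rw [sg_neg_sg]

lemma ev_congr {s s' : Finset (PQ A)} (h : s ⊆ s') {g : PQ A → ℤ → P} (hg : ∀ Q ∉ s, g Q = 0)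
    (t : ℤ) : ev α s g t = ev α s' g t := by
  unfold ev
  refine Finset.sum_subset h fun Q _ hQ => ?_
  rw [hg Q hQ, Pi.zero_apply, smul_zero]

variable [DecidableEq (PQ A)]

lemma ev_Sh (d : ℤ) (s : Finset (PQ A)) (g : PQ A → ℤ → P) (t : ℤ) :
    ev α (s.image (sg d)) (Sh α d g) t = ev α s g (t + d) := by
  unfold ev
  rw [Finset.sum_image fun Q _ Q' _ h => sg_injective d h]
  refine Finset.sum_congr rfl fun Q _ => ?_
  rw [Sh_sg, smul_smul, ← map_mul, ← ofAdd_add, sg_apply, sub_add_cancel]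

lemma Sh_support {d : ℤ} {s : Finset (PQ A)} {g : PQ A → ℤ → P} (hg : ∀ Q ∉ s, g Q = 0) :
    ∀ Q ∉ s.image (sg d), Sh α d g Q = 0 := by
  intro Q hQ
  funext t
  unfold Sh
  rw [hg (sg (-d) Q) fun h => hQ (Finset.mem_image.2 ⟨_, h, sg_sg_neg d Q⟩), Pi.zero_apply,
    smul_zero]
  rfl

lemma ev_diff (d : ℤ) {s : Finset (PQ A)} {g : PQ A → ℤ → P} (hg : ∀ Q ∉ s, g Q = 0) (t : ℤ) :
    ev α (s ∪ s.image (sg d)) (Sh α d g - g) t = ev α s g (t + d) - ev α s g t := by
  rw [← ev_Sh, ev_congr α Finset.subset_union_left hg,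
    ev_congr α Finset.subset_union_right (Sh_support α hg)]
  unfold ev
  rw [← Finset.sum_sub_distrib]
  refine Finset.sum_congr rfl fun Q _ => ?_
  rw [Pi.sub_apply, Pi.sub_apply, smul_sub]

lemma diff_support (d : ℤ) {s : Finset (PQ A)} {g : PQ A → ℤ → P} (hg : ∀ Q ∉ s, g Q = 0) :
    ∀ Q ∉ s ∪ s.image (sg d), (Sh α d g - g) Q = 0 := by
  intro Q hQ
  rw [Finset.mem_union, not_or] at hQ
  rw [Pi.sub_apply, Sh_support α hg Q hQ.2, hg Q hQ.1, sub_zero]

lemma PD.unit_smul {V : Type*} [AddCommGroup V] {e : ℕ} {g : V → P} (hg : PD e g) (u : Rˣ) :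
    PD e (fun t => u • g t) :=
  hg.comp_hom (DistribSMul.toAddMonoidHom P u)

lemma PD_Sh {e : ℕ} {g : PQ A → ℤ → P} (hg : ∀ Q, PD e (g Q)) (d : ℤ) (Q : PQ A) :
    PD e (Sh α d g Q) :=
  ((hg (sg (-d) Q)).shift d).unit_smul _

/-- a polynomial map with `G t = c • G (t + d)` vanishes if `c - 1` acts injectively -/
lemma eq_zero_of_twist {e : ℕ} {G : ℤ → P} (hG : PD e G) {c : Rˣ} (hc : Inj P ((c : R) - 1))
    {d : ℤ} (h : ∀ t, G t = c • G (t + d)) : G = 0 := by
  induction e generalizing G with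
  | zero => exact hG
  | succ e ih =>
    have h1 : PD 1 G := by
      intro h'
      refine ih (hG h') fun t => ?_
      simp only [df_apply]
      rw [h (t + h'), h t, smul_sub, add_right_comm]
    funext t
    have h2 := h t
    rw [h1.one_const (t + d) t] at h2
    refine hc _ ?_
    rw [sub_smul, one_smul, ← Units.smul_def, ← h2, sub_self]

/-- Coefficient families that are invariant under the shift are concentrated at `0`. -/
lemma rigid (htf : ∀ (n : ℕ) (a : A), 0 < n → n • a = 0 → a = 0)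
    (hα : ∀ a : A, a ≠ 0 → Inj P ((α (Multiplicative.ofAdd a) : R) - 1)) {d : ℕ} (hd : 0 < d)
    {e : ℕ} {s : Finset (PQ A)} {g : PQ A → ℤ → P} (hg : ∀ Q ∉ s, g Q = 0)
    (hge : ∀ Q, PD e (g Q)) (hinv : Sh α d g = g) (Q : PQ A) (hQ : Q ≠ 0) : g Q = 0 := by
  by_contra hne
  -- the orbit of `Q` stays in `s`
  have h1 : ∀ Q : PQ A, g Q ≠ 0 → g (sg d Q) ≠ 0 := by
    intro Q hQ h0
    apply hQ
    funext t
    have h2 := Sh_sg α d g Q (t - d)
    rw [hinv, h0, sub_add_cancel, Pi.zero_apply] at h2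
    exact (smul_eq_zero_iff_eq _).1 h2.symm
  have h2 : ∀ m : ℕ, g (sg ((m : ℤ) * d) Q) ≠ 0 := by
    intro m
    induction m with
    | zero => simpa [sg_zero] using hne
    | succ m ih =>
      have := h1 _ ih
      rw [sg_sg] at this
      have h3 : ((m + 1 : ℕ) : ℤ) * d = d + m * d := by push_cast; ring
      rw [h3]
      exact this
  have h3 : ∀ m : ℕ, sg ((m : ℤ) * d) Q ∈ s := fun m => by
    by_contra h
    exact h2 m (hg _ h)
  obtain ⟨m, m', hmm, heq⟩ : ∃ m m' : ℕ, m < m' ∧ sg ((m : ℤ) * d) Q = sg ((m' : ℤ) * d) Q := by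
    have hni : ¬ Function.Injective (fun m : ℕ => (⟨sg ((m : ℤ) * d) Q, h3 m⟩ : s)) :=
      fun h => Set.infinite_univ (α := ℕ) |>.not_finite (Set.finite_univ_iff.2 (Finite.of_injective _ h))
    unfold Function.Injective at hni
    push Not at hni
    obtain ⟨m, m', h4, h5⟩ := hni
    have h6 := congrArg Subtype.val h4
    simp only at h6
    rcases lt_or_gt_of_ne h5 with h | h
    · exact ⟨m, m', h, h6⟩
    · exact ⟨m', m, h, h6.symm⟩
  -- a period of `Q` up to a constant
  obtain ⟨j, hj⟩ : ∃ j : ℕ, m' = m + (j + 1) := ⟨m' - m - 1, by omega⟩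
  have hper : sg (((j + 1) * d : ℕ) : ℤ) Q = Q := by
    have h4 := congrArg (sg (-((m : ℤ) * d))) heq
    rw [sg_neg_sg, sg_sg, hj] at h4
    have h5 : sg (((j + 1) * d : ℕ) : ℤ) Q = sg (-((m : ℤ) * d) + ((m + (j + 1) : ℕ) : ℤ) * d) Q := by
      congr 1
      push_cast
      ring
    rw [h5]
    exact h4.symm
  set D := (j + 1) * d with hD
  have hD0 : 0 < D := Nat.mul_pos (Nat.succ_pos _) hd
  have hper' : ∀ t : ℤ, (Q : ℤ → A) (t + D) = (Q : ℤ → A) t + (Q : ℤ → A) D := by
    intro t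
    have := congrFun (congrArg Subtype.val hper) t
    rw [sg_apply] at this
    exact (sub_eq_iff_eq_add.1 this)
  obtain ⟨k, hk⟩ := Q.2.2
  have hper2 : ∀ (m : ℕ) (t : ℤ), (Q : ℤ → A) (t + m * D) = (Q : ℤ → A) t + m • (Q : ℤ → A) D := by
    intro m
    induction m with
    | zero => intro t; simp
    | succ m ih =>
      intro t
      have : t + ((m + 1 : ℕ) : ℤ) * D = t + m * D + D := by push_cast; ring
      rw [this, hper', ih, succ_nsmul, add_assoc]
  have hper3 : ∀ (h t : ℤ), df 1 (Q : ℤ → A) (t + D • h) = df 1 (Q : ℤ → A) t := by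
    intro h t
    simp only [df_apply]
    rcases Int.le_total 0 h with hh | hh
    · obtain ⟨m, rfl⟩ := Int.eq_ofNat_of_zero_le hh
      have e1 : t + D • (m : ℤ) = t + m * D := by rw [nsmul_eq_mul]; ring
      have e2 : t + D • (m : ℤ) + 1 = t + 1 + m * D := by rw [nsmul_eq_mul]; ring
      rw [e2, e1, hper2, hper2]
      abel
    · obtain ⟨m, hm⟩ := Int.eq_ofNat_of_zero_le (Int.neg_nonneg_of_nonpos hh)
      have e1 : t = t + D • h + m * D := by
        rw [nsmul_eq_mul, ← hm]; ring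
      have e2 : t + 1 = t + D • h + 1 + m * D := by
        rw [nsmul_eq_mul, ← hm]; ring
      have e3 : (Q : ℤ → A) t = (Q : ℤ → A) (t + D • h) + m • (Q : ℤ → A) D := by
        conv_lhs => rw [e1]
        exact hper2 m _
      have e4 : (Q : ℤ → A) (t + 1) = (Q : ℤ → A) (t + D • h + 1) + m • (Q : ℤ → A) D := by
        conv_lhs => rw [e2]
        exact hper2 m _
      rw [e3, e4]
      abel
  have hlin1 : ∀ t : ℤ, (Q : ℤ → A) (t + 1) = (Q : ℤ → A) t + (Q : ℤ → A) 1 := by
    intro t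
    have h4 := (hk.df 1).const_of_periodic htf hD0 (fun n h => hper3 h n) t 0
    simp only [df_apply, zero_add, PQ.zero', sub_zero] at h4
    rw [← h4]
    abel
  have hlin : ∀ t : ℤ, (Q : ℤ → A) t = t • (Q : ℤ → A) 1 := by
    intro t
    induction t using Int.induction_on with
    | zero => rw [PQ.zero', zero_smul]
    | succ n ih => rw [hlin1, ih, add_smul, one_smul]
    | pred n ih =>
      have h4 := hlin1 (-(n : ℤ) - 1)
      rw [sub_add_cancel, ih] at h4
      rw [sub_smul, one_smul, h4]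
      abel
  have hsg : sg d Q = Q := by
    apply Subtype.ext
    funext t
    rw [sg_apply, hlin (t + d), hlin d, hlin t, add_smul]
    abel
  have ha : (Q : ℤ → A) d ≠ 0 := by
    intro h0
    rw [hlin, natCast_zsmul] at h0
    apply hQ
    apply Subtype.ext
    funext t
    rw [hlin, htf d _ hd h0, smul_zero]
    rfl
  apply hne
  refine eq_zero_of_twist (hge Q) (hα _ ha) (d := d) fun t => ?_
  have := Sh_sg α d g Q t
  rw [hinv, hsg] at this
  exact this

/-- the size bounded independence property of a class of finite sets of polynomial maps -/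
def Hind (P : Type*) [AddCommGroup P] [Module R P] (α : Multiplicative A →* Rˣ) (e : ℕ)
    (T : Finset (PQ A) → Prop) : Prop :=
  ∀ N : ℕ, ∃ D : ℕ, ∀ s : Finset (PQ A), T s → s.card ≤ N → ∀ g : PQ A → ℤ → P,
    (∀ Q ∉ s, g Q = 0) → (∀ Q, PD e (g Q)) → HasCube D {t | ev α s g t = 0} → g = 0

/-- closure properties of classes of finite sets of polynomial maps -/
structure Cl (j : ℕ) (T : Finset (PQ A) → Prop) : Prop where
  sub : ∀ s s', s' ⊆ s → T s → T s'
  shift : ∀ s (d : ℤ), T s → T (s ∪ s.image (sg d))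
  trans : ∀ s (R : PQ A), PD (j + 1) (R : ℤ → A) → T s → T (s.image fun Q => Q - R)

/-- the induction base -/
lemma step_zero (htf : ∀ (n : ℕ) (a : A), 0 < n → n • a = 0 → a = 0)
    (hα : ∀ a : A, a ≠ 0 → Inj P ((α (Multiplicative.ofAdd a) : R) - 1)) {e : ℕ}
    (he : e ≤ 1 ∨ ∀ b : ℕ, 0 < b → Inj P (b : R)) {T : Finset (PQ A) → Prop} (hT : Cl 0 T)
    (hH : Hind P α e T) :
    Hind P α e fun s => T (s.filter fun Q => Q ≠ 0) := by
  have key : ∀ e₀ N : ℕ, ∃ D : ℕ, ∀ s : Finset (PQ A), T (s.filter fun Q => Q ≠ 0) → s.card ≤ N →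
      ∀ g : PQ A → ℤ → P, (∀ Q ∉ s, g Q = 0) → (∀ Q, PD e (g Q)) → PD e₀ (g 0) →
        HasCube D {t | ev α s g t = 0} → g = 0 := by
    intro e₀
    induction e₀ with
    | zero =>
      intro N
      obtain ⟨D, hD⟩ := hH N
      refine ⟨D, fun s hs hsN g hg hge hg0 hc => ?_⟩
      have hg' : ∀ Q ∉ s.filter (fun Q => Q ≠ 0), g Q = 0 := by
        intro Q hQ
        by_cases h0 : Q = 0
        · rw [h0]; exact hg0
        · exact hg Q fun h => hQ (Finset.mem_filter.2 ⟨h, h0⟩)
      refine hD _ hs ((Finset.card_filter_le _ _).trans hsN) g hg' hge (hc.mono fun t ht => ?_)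
      simp only [Set.mem_ofPred_eq] at ht ⊢
      rw [ev_congr α (Finset.filter_subset _ s) hg', ht]
    | succ e₀ ih =>
      intro N
      obtain ⟨D, hD⟩ := ih (2 * N)
      refine ⟨D + 1, fun s hs hsN g hg hge hg0 hc => ?_⟩
      obtain ⟨d, hd, hc⟩ := hc
      have hfix : Sh α d g - g = 0 := by
        refine hD (s ∪ s.image (sg d)) ?_ ?_ _ (diff_support α d hg)
          (fun Q => (PD_Sh α hge d Q).sub (hge Q)) ?_ (hc.mono fun t ht => ?_)
        · refine hT.sub _ _ ?_ (hT.shift _ d hs)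
          intro Q hQ
          rw [Finset.mem_filter, Finset.mem_union, Finset.mem_image] at hQ
          rw [Finset.mem_union, Finset.mem_image, Finset.mem_filter]
          obtain ⟨h1 | ⟨Q', h1, rfl⟩, h2⟩ := hQ
          · exact Or.inl ⟨h1, h2⟩
          · refine Or.inr ⟨Q', Finset.mem_filter.2 ⟨h1, ?_⟩, rfl⟩
            rintro rfl
            exact h2 (sg_zero_fun _)
        · refine (Finset.card_union_le _ _).trans ?_
          have := Finset.card_image_le (s := s) (f := sg (A := A) d)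
          omega
        · have h1 : (Sh α d g - g) 0 = df (d : ℤ) (g 0) := by
            funext t
            have h2 := Sh_sg α d g 0 t
            rw [sg_zero_fun] at h2
            rw [Pi.sub_apply, Pi.sub_apply, h2, df_apply]
            simp
          rw [h1]
          exact hg0 d
        · obtain ⟨h1, h2⟩ := ht
          simp only [Set.mem_ofPred_eq] at h1 h2 ⊢
          rw [ev_diff α d hg, h1, h2, sub_zero]
      have hinv : Sh α d g = g := sub_eq_zero.1 hfix
      have hne : ∀ Q, Q ≠ 0 → g Q = 0 := fun Q hQ => rigid α htf hα hd hg hge hinv Q hQ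
      -- `g 0` is constant
      have hconst : ∀ t t' : ℤ, g 0 t = g 0 t' := by
        rcases he with h1 | h1
        · exact ((hge 0).mono h1).one_const
        · intro t t'
          refine (hge 0).const_of_periodic (fun n a hn ha => h1 n hn a ?_) hd (fun n h => ?_) t t'
          · rw [Nat.cast_smul_eq_nsmul]; exact ha
          · have h3 : ∀ n : ℤ, g 0 (n + d) = g 0 n := by
              intro n
              have h2 := Sh_sg α d g 0 n
              rw [sg_zero_fun, hinv] at h2
              rw [h2]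
              simp
            have h4 : ∀ (m : ℕ) (n : ℤ), g 0 (n + m * d) = g 0 n := by
              intro m
              induction m with
              | zero => intro n; simp
              | succ m ihm =>
                intro n
                have : n + ((m + 1 : ℕ) : ℤ) * d = n + m * d + d := by push_cast; ring
                rw [this, h3, ihm]
            rcases Int.le_total 0 h with hh | hh
            · obtain ⟨m, rfl⟩ := Int.eq_ofNat_of_zero_le hh
              have e1 : n + d • (m : ℤ) = n + m * d := by rw [nsmul_eq_mul]; ring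
              rw [e1, h4]
            · obtain ⟨m, hm⟩ := Int.eq_ofNat_of_zero_le (Int.neg_nonneg_of_nonpos hh)
              have e1 : n = n + d • h + m * d := by rw [nsmul_eq_mul, ← hm]; ring
              conv_rhs => rw [e1, h4]
      obtain ⟨a, ha⟩ := hc.nonempty
      have ha1 : ev α s g a = 0 := ha.1
      have h5 : g 0 a = 0 := by
        have h6 : ev α s g a = g 0 a := by
          by_cases h0 : (0 : PQ A) ∈ s
          · unfold ev
            rw [Finset.sum_eq_single_of_mem 0 h0]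
            · simp
            · intro Q _ hQ
              rw [hne Q hQ, Pi.zero_apply, smul_zero]
          · unfold ev
            rw [hg 0 h0]
            refine Finset.sum_eq_zero fun Q hQ => ?_
            rw [hne Q fun h => h0 (h ▸ hQ), Pi.zero_apply, smul_zero]
        rw [← h6, ha1]
      funext Q t
      by_cases hQ : Q = 0
      · rw [hQ, hconst t a, h5]; rfl
      · rw [hne Q hQ]; rfl
  intro N
  obtain ⟨D, hD⟩ := key e N
  exact ⟨D, fun s hs hsN g hg hge hc => hD s hs hsN g hg hge (hge 0) hc⟩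

open Classical in
/-- adding the polynomial maps of degree at most `j` -/
def hi (j : ℕ) (T : Finset (PQ A) → Prop) (s : Finset (PQ A)) : Prop :=
  T (s.filter fun Q => ¬ PD (j + 1) (Q : ℤ → A))

open Classical in
/-- adding at most `m` classes of polynomial maps modulo degree at most `j` -/
def Tm (j : ℕ) (T : Finset (PQ A) → Prop) (m : ℕ) (s : Finset (PQ A)) : Prop :=
  ∃ c : Finset (PQ A), c.card ≤ m ∧ (∀ R ∈ c, PD (j + 2) (R : ℤ → A)) ∧
    T (s.filter fun Q => ∀ R ∈ c, ¬ PD (j + 1) ((Q - R : PQ A) : ℤ → A))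

lemma Tm_cl {j : ℕ} {T : Finset (PQ A) → Prop} (hT : Cl (j + 1) T) (m : ℕ) : Cl j (Tm j T m) where
  sub := by
    classical
    rintro s s' hss ⟨c, h1, h2, h3⟩
    exact ⟨c, h1, h2, hT.sub _ _ (Finset.filter_subset_filter _ hss) h3⟩
  shift := by
    classical
    rintro s d ⟨c, h1, h2, h3⟩
    refine ⟨c, h1, h2, hT.sub _ _ ?_ (hT.shift _ d h3)⟩
    intro Q hQ
    rw [Finset.mem_filter, Finset.mem_union, Finset.mem_image] at hQ
    rw [Finset.mem_union, Finset.mem_image, Finset.mem_filter]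
    obtain ⟨h4 | ⟨Q', h4, rfl⟩, h5⟩ := hQ
    · exact Or.inl ⟨h4, h5⟩
    · refine Or.inr ⟨Q', Finset.mem_filter.2 ⟨h4, fun R hR hPD => h5 R hR ?_⟩, rfl⟩
      -- `sg d Q' - R = (sg d Q' - Q') + (Q' - R)`
      have h6 : PD (j + 2) (Q' : ℤ → A) := by
        have h7 := hPD.succ.add (h2 R hR)
        rw [← AddSubgroup.coe_add, sub_add_cancel] at h7
        exact h7
      have h8 := (PD_sg_sub d h6 (Nat.succ_pos j)).add hPD
      rw [← AddSubgroup.coe_add, sub_add_sub_cancel] at h8
      exact h8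
  trans := by
    classical
    rintro s R' hR' ⟨c, h1, h2, h3⟩
    refine ⟨c.image fun R => R - R', Finset.card_image_le.trans h1, ?_, ?_⟩
    · intro R hR
      obtain ⟨R₀, hR₀, rfl⟩ := Finset.mem_image.1 hR
      exact (h2 R₀ hR₀).sub hR'.succ
    · refine hT.sub _ _ ?_ (hT.trans _ R' hR'.succ h3)
      intro Q hQ
      rw [Finset.mem_filter, Finset.mem_image] at hQ
      obtain ⟨⟨Q', hQ', rfl⟩, h4⟩ := hQ
      refine Finset.mem_image.2 ⟨Q', Finset.mem_filter.2 ⟨hQ', fun R hR => ?_⟩, rfl⟩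
      have := h4 (R - R') (Finset.mem_image_of_mem _ hR)
      rwa [sub_sub_sub_cancel_right] at this

lemma PD.unit_smul_iff {V : Type*} [AddCommGroup V] {e : ℕ} {g : V → P} (u : Rˣ) :
    PD e (fun t => u • g t) ↔ PD e g := by
  refine ⟨fun h => ?_, fun h => h.unit_smul u⟩
  have := h.unit_smul u⁻¹
  simpa [smul_smul] using this

/-- translation of the exponents -/
lemma ev_translate (R₀ : PQ A) (s : Finset (PQ A)) (g : PQ A → ℤ → P) (t : ℤ) :
    ev α (s.image fun Q => Q - R₀) (fun Q => g (Q + R₀)) t =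
      α (Multiplicative.ofAdd (-(R₀ : ℤ → A) t)) • ev α s g t := by
  unfold ev
  rw [Finset.sum_image fun Q _ Q' _ h => sub_left_injective h, Finset.smul_sum]
  refine Finset.sum_congr rfl fun Q _ => ?_
  simp only [sub_add_cancel]
  rw [smul_smul, ← map_mul, ← ofAdd_add, AddSubgroup.coe_sub, Pi.sub_apply, neg_add_eq_sub]

theorem step (htf : ∀ (n : ℕ) (a : A), 0 < n → n • a = 0 → a = 0)
    (hα : ∀ a : A, a ≠ 0 → Inj P ((α (Multiplicative.ofAdd a) : R) - 1)) {e : ℕ}
    (he : e ≤ 1 ∨ ∀ b : ℕ, 0 < b → Inj P (b : R)) (j : ℕ) :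
    ∀ T : Finset (PQ A) → Prop, Cl j T → Hind P α e T → Hind P α e (hi j T) := by
  classical
  induction j with
  | zero =>
    intro T hT hH N
    obtain ⟨D, hD⟩ := step_zero α htf hα he hT hH N
    refine ⟨D, fun s hs => hD s ?_⟩
    unfold hi at hs
    refine hT.sub _ _ ?_ hs
    intro Q hQ
    rw [Finset.mem_filter] at hQ ⊢
    exact ⟨hQ.1, fun h => hQ.2 (eq_zero_of_PD_one h)⟩
  | succ j ih =>
    intro T hT hH
    have hm : ∀ m : ℕ, Hind P α e (Tm j T m) := by
      intro m
      induction m with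
      | zero =>
        intro N
        obtain ⟨D, hD⟩ := hH N
        refine ⟨D, fun s hs => hD s ?_⟩
        obtain ⟨c, h1, -, h3⟩ := hs
        have hc : c = ∅ := by
          rw [← Finset.card_eq_zero]; omega
        subst hc
        simpa using h3
      | succ m ihm =>
        intro N
        obtain ⟨D, hD⟩ := ih _ (Tm_cl hT m) ihm N
        obtain ⟨D', hD'⟩ := ihm N
        refine ⟨max D D', fun s hs hsN g hg hge hc => ?_⟩
        obtain ⟨c, h1, h2, h3⟩ := hs
        rcases Nat.lt_or_ge m c.card with hcm | hcm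
        · obtain ⟨R₀, hR₀⟩ : c.Nonempty := by
            rw [← Finset.card_pos]; omega
          have h4 : (fun Q => g (Q + R₀)) = 0 := by
            refine hD (s.image fun Q => Q - R₀) ?_ (Finset.card_image_le.trans hsN)
              (fun Q => g (Q + R₀)) ?_ (fun Q => hge _) ?_
            · refine ⟨(c.erase R₀).image fun R => R - R₀, ?_, ?_, ?_⟩
              · refine Finset.card_image_le.trans ?_
                rw [Finset.card_erase_of_mem hR₀]
                omega
              · intro R hR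
                obtain ⟨R₁, hR₁, rfl⟩ := Finset.mem_image.1 hR
                exact (h2 R₁ (Finset.mem_of_mem_erase hR₁)).sub (h2 R₀ hR₀)
              · refine hT.sub _ _ ?_ (hT.trans _ R₀ (h2 R₀ hR₀) h3)
                intro Q hQ
                rw [Finset.mem_filter, Finset.mem_filter, Finset.mem_image] at hQ
                obtain ⟨⟨⟨Q', hQ', rfl⟩, h5⟩, h6⟩ := hQ
                refine Finset.mem_image.2 ⟨Q', Finset.mem_filter.2 ⟨hQ', fun R hR => ?_⟩, rfl⟩
                by_cases hRR : R = R₀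
                · subst hRR; exact h5
                · have := h6 (R - R₀) (Finset.mem_image_of_mem _
                    (Finset.mem_erase.2 ⟨hRR, hR⟩))
                  rwa [sub_sub_sub_cancel_right] at this
            · intro Q hQ
              refine hg _ fun h => hQ (Finset.mem_image.2 ⟨_, h, add_sub_cancel_right _ _⟩)
            · refine (hc.of_le (le_max_left _ _)).mono fun t ht => ?_
              simp only [Set.mem_ofPred_eq] at ht ⊢
              rw [ev_translate, ht, smul_zero]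
          funext Q
          have := congrFun h4 (Q - R₀)
          simpa using this
        · exact hD' s ⟨c, hcm, h2, h3⟩ hsN g hg hge (hc.of_le (le_max_right _ _))
    intro N
    obtain ⟨D, hD⟩ := hm N N
    refine ⟨D, fun s hs hsN => hD s ?_ hsN⟩
    refine ⟨s.filter fun Q => PD (j + 2) (Q : ℤ → A), (Finset.card_filter_le _ _).trans hsN,
      fun R hR => (Finset.mem_filter.1 hR).2, hT.sub _ _ ?_ hs⟩
    intro Q hQ
    rw [Finset.mem_filter] at hQ ⊢
    refine ⟨hQ.1, fun h => hQ.2 Q (Finset.mem_filter.2 ⟨hQ.1, h⟩) ?_⟩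
    rw [sub_self]
    exact PD.zero _

/-- **Independence of exponential polynomials on cubes.** -/
theorem indep (htf : ∀ (n : ℕ) (a : A), 0 < n → n • a = 0 → a = 0)
    (hα : ∀ a : A, a ≠ 0 → Inj P ((α (Multiplicative.ofAdd a) : R) - 1)) {e : ℕ}
    (he : e ≤ 1 ∨ ∀ b : ℕ, 0 < b → Inj P (b : R)) (k N : ℕ) :
    ∃ D : ℕ, ∀ s : Finset (PQ A), (∀ Q ∈ s, PD k (Q : ℤ → A)) → s.card ≤ N →
      ∀ g : PQ A → ℤ → P, (∀ Q ∉ s, g Q = 0) → (∀ Q, PD e (g Q)) →
        HasCube D {t | ev α s g t = 0} → g = 0 := by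
  classical
  have h0 : Hind P α e fun s : Finset (PQ A) => s = ∅ := by
    intro N
    refine ⟨0, fun s hs _ g hg _ _ => ?_⟩
    subst hs
    funext Q
    exact hg Q (Finset.notMem_empty _)
  have hcl : Cl k fun s : Finset (PQ A) => s = ∅ :=
    ⟨fun s s' h hs => by subst hs; exact Finset.subset_empty.1 h,
      fun s d hs => by subst hs; simp, fun s R _ hs => by subst hs; simp⟩
  obtain ⟨D, hD⟩ := step α htf hα he k _ hcl h0 N
  refine ⟨D, fun s hs hsN => hD s ?_ hsN⟩
  unfold hi
  refine Finset.filter_eq_empty_iff.2 fun Q hQ => ?_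
  rw [not_not]
  exact (hs Q hQ).succ

end Pool.Agent.Lib.Pf720ae.Aff
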