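import Pool.Agent.Lib.Pf720ae.Aff.Weyl

/-!
# Phases depending polynomially on some of the coordinates
-/

set_option autoImplicit false
set_option linter.unusedSectionVars false

open Finset Filter Topology
open scoped ComplexConjugate
open Pool.Agent.Lib.Pf720ae.Alg (cz)

namespace Pool.Agent.Lib.Pf720ae.Aff

variable {κ : Type} [Fintype κ] [DecidableEq κ]

lemma cavg_sum_type {κ' : Type} [Fintype κ'] [DecidableEq κ'] (M : κ → ℕ) (M' : κ' → ℕ)
    (Ψ : (κ ⊕ κ' → ℕ) → ℂ) :
    cavg (Sum.elim M M' : κ ⊕ κ' → ℕ) Ψ =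
      cavg M fun m => cavg M' fun m' => Ψ (Sum.elim m m') := by
  unfold cavg
  have h1 : ∑ m ∈ box (Sum.elim M M' : κ ⊕ κ' → ℕ), Ψ m =
      ∑ m ∈ box M, ∑ m' ∈ box M', Ψ (Sum.elim m m') := by
    rw [← Finset.sum_product']
    refine Finset.sum_bij' (fun m _ => (m ∘ Sum.inl, m ∘ Sum.inr))
      (fun p _ => Sum.elim p.1 p.2) ?_ ?_ ?_ ?_ ?_
    · intro m hm
      rw [mem_box] at hm
      rw [Finset.mem_product, mem_box, mem_box]
      exact ⟨fun l => hm (Sum.inl l), fun l => hm (Sum.inr l)⟩
    · rintro ⟨m, m'⟩ hm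
      rw [Finset.mem_product, mem_box, mem_box] at hm
      rw [mem_box]
      rintro (l | l)
      · exact hm.1 l
      · exact hm.2 l
    · intro m _
      exact Sum.elim_comp_inl_inr m
    · rintro ⟨m, m'⟩ _
      rfl
    · intro m _
      rw [Sum.elim_comp_inl_inr]
  rw [h1, Fintype.prod_sum_type]
  simp only [Sum.elim_inl, Sum.elim_inr]
  rw [mul_inv, mul_assoc, ← Finset.mul_sum]

/-- combine the coordinates in `L` of the first vector with the others of the second -/
def mix {A : Type*} (L : Finset κ) (m m' : κ → A) : κ → A := fun l => if l ∈ L then m l else m' l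

lemma cz_mix (L : Finset κ) (m m' : κ → ℕ) : cz (mix L m m') = mix L (cz m) (cz m') := by
  funext l
  simp only [mix, cz]
  split_ifs <;> rfl

lemma cavg_mul_const (M : κ → ℕ) (c : ℂ) (Φ : (κ → ℕ) → ℂ) :
    cavg M (fun m => Φ m * c) = cavg M Φ * c := by
  simp only [cavg, ← Finset.sum_mul]; ring

lemma cavg_mix (L : Finset κ) {M : κ → ℕ} (hM : ∀ l, 0 < M l) (Φ : (κ → ℕ) → ℂ) :
    cavg M Φ = cavg M fun m => cavg M fun m' => Φ (mix L m m') := by
  have h1 : ∑ m ∈ box M, ∑ m' ∈ box M, Φ (mix L m m') = ∑ m ∈ box M, ∑ _m' ∈ box M, Φ m := by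
    rw [← Finset.sum_product', ← Finset.sum_product']
    refine Finset.sum_bij' (fun p _ => (mix L p.1 p.2, mix L p.2 p.1))
      (fun p _ => (mix L p.1 p.2, mix L p.2 p.1)) ?_ ?_ ?_ ?_ ?_
    · rintro ⟨m, m'⟩ hm
      simp only [Finset.mem_product, mem_box] at hm ⊢
      constructor
      · intro l
        unfold mix
        split_ifs
        · exact hm.1 l
        · exact hm.2 l
      · intro l
        unfold mix
        split_ifs
        · exact hm.2 l
        · exact hm.1 l
    · rintro ⟨m, m'⟩ hm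
      simp only [Finset.mem_product, mem_box] at hm ⊢
      constructor
      · intro l
        unfold mix
        split_ifs
        · exact hm.1 l
        · exact hm.2 l
      · intro l
        unfold mix
        split_ifs
        · exact hm.2 l
        · exact hm.1 l
    · rintro ⟨m, m'⟩ _
      ext l <;> simp only [mix] <;> split_ifs <;> rfl
    · rintro ⟨m, m'⟩ _
      ext l <;> simp only [mix] <;> split_ifs <;> rfl
    · rintro ⟨m, m'⟩ _
      rfl
  have hne : (∏ l, (M l : ℂ)) ≠ 0 := by
    refine Finset.prod_ne_zero_iff.2 fun l _ => ?_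
    exact_mod_cast (hM l).ne'
  unfold cavg
  rw [← Finset.mul_sum, h1]
  simp only [Finset.sum_const, card_box, nsmul_eq_mul]
  rw [← Finset.mul_sum]
  push_cast
  field_simp

/-- The dichotomy for phases in some of the coordinates. -/
theorem phase_dichotomy (L : Finset κ) {k : ℕ} {θ : (κ → ℤ) → Additive Circle} (hθ : PD k θ) :
    (∃ q : ℕ, 0 < q ∧ ∀ n h : κ → ℤ, (∀ l ∈ L, h l = 0) → θ (n + q • h) = θ n) ∨
      ∀ w : (κ → ℕ) → ℂ, (∀ m, ‖w m‖ ≤ 1) → (∀ m m', w (mix L m m') = w m) →
        Tendsto (fun M : κ → ℕ => cavg M fun m => cv (θ (cz m)) * w m) atTop (𝓝 0) := by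
  -- the phase in three copies of the coordinates
  let ι₁ : (κ ⊕ (κ ⊕ κ) → ℤ) →+ (κ → ℤ) :=
    { toFun := fun ν => mix L (fun l => ν (Sum.inl l)) (fun l => ν (Sum.inr (Sum.inl l)))
      map_zero' := by funext l; simp [mix]
      map_add' := by
        intro a b
        funext l
        simp only [mix, Pi.add_apply]
        split_ifs <;> rfl }
  let ι₂ : (κ ⊕ (κ ⊕ κ) → ℤ) →+ (κ → ℤ) :=
    { toFun := fun ν => mix L (fun l => ν (Sum.inl l)) (fun l => ν (Sum.inr (Sum.inr l)))
      map_zero' := by funext l; simp [mix]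
      map_add' := by
        intro a b
        funext l
        simp only [mix, Pi.add_apply]
        split_ifs <;> rfl }
  have hPD : PD k (fun ν : κ ⊕ (κ ⊕ κ) → ℤ => θ (ι₁ ν) - θ (ι₂ ν)) := by
    have h1 := (hθ.comp_affine ι₁ 0).sub (hθ.comp_affine ι₂ 0)
    simp only [add_zero] at h1
    exact h1
  rcases weyl k hPD with h | ⟨q, hq0, hq⟩
  · right
    intro w hw1 hw
    have htend : Tendsto (fun M : κ → ℕ => (Sum.elim M (Sum.elim M M) : κ ⊕ (κ ⊕ κ) → ℕ)) atTop
        atTop := by
      rw [tendsto_atTop]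
      intro b
      filter_upwards [eventually_ge_atTop (fun l => max (b (Sum.inl l))
        (max (b (Sum.inr (Sum.inl l))) (b (Sum.inr (Sum.inr l)))))] with M hM
      rintro (l | l | l)
      · exact (le_max_left _ _).trans (hM l)
      · exact ((le_max_left _ _).trans (le_max_right _ _)).trans (hM l)
      · exact ((le_max_right _ _).trans (le_max_right _ _)).trans (hM l)
    have h1 := (Complex.continuous_re.tendsto _).comp (h.comp htend)
    rw [Complex.zero_re] at h1
    have h2 : Tendsto (fun M : κ → ℕ => avg M fun m =>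
        ‖cavg M fun m' => cv (θ (cz (mix L m m')))‖ ^ 2) atTop (𝓝 0) := by
      refine h1.congr fun M => ?_
      rw [Function.comp_apply, Function.comp_apply, cavg_sum_type, cavg_re]
      congr 1
      funext m
      rw [cavg_sum_type]
      have h3 : (cavg M fun m' => cavg M fun m'' =>
          cv ((fun ν : κ ⊕ (κ ⊕ κ) → ℤ => θ (ι₁ ν) - θ (ι₂ ν))
            (cz (Sum.elim m (Sum.elim m' m''))))) =
          (cavg M fun m' => cv (θ (cz (mix L m m')))) *
            conj (cavg M fun m' => cv (θ (cz (mix L m m')))) := by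
        have h4 : ∀ m' m'' : κ → ℕ, cv ((fun ν : κ ⊕ (κ ⊕ κ) → ℤ => θ (ι₁ ν) - θ (ι₂ ν))
            (cz (Sum.elim m (Sum.elim m' m'')))) =
            cv (θ (cz (mix L m m'))) * conj (cv (θ (cz (mix L m m'')))) := by
          intro m' m''
          rw [cz_mix, cz_mix]
          exact cv_sub _ _
        simp only [h4, cavg_smul, cavg_conj, cavg_mul_const]
      rw [h3, Complex.mul_conj, Complex.normSq_eq_norm_sq, Complex.ofReal_re]
    have h3 : Tendsto (fun M : κ → ℕ => ‖cavg M fun m => cv (θ (cz m)) * w m‖ ^ 2) atTop (𝓝 0) := by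
      refine squeeze_zero' (Eventually.of_forall fun M => by positivity) ?_ h2
      filter_upwards [eventually_pos] with M hM
      rw [cavg_mix L hM]
      refine (norm_cavg_sq_le hM _).trans (avg_mono M fun m => ?_)
      have h4 : (cavg M fun m' => cv (θ (cz (mix L m m'))) * w (mix L m m')) =
          w m * cavg M fun m' => cv (θ (cz (mix L m m'))) := by
        rw [← cavg_smul]
        congr 1
        funext m'
        rw [hw, mul_comm]
      rw [h4, norm_mul, mul_pow]
      have h5 : ‖w m‖ ^ 2 ≤ 1 := pow_le_one₀ (norm_nonneg _) (hw1 m)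
      nlinarith [sq_nonneg ‖cavg M fun m' => cv (θ (cz (mix L m m')))‖]
    rw [tendsto_zero_iff_norm_tendsto_zero]
    have h4 := h3.sqrt
    rw [Real.sqrt_zero] at h4
    refine h4.congr fun M => ?_
    rw [Real.sqrt_sq (norm_nonneg _)]
  · left
    refine ⟨q, hq0, fun n h hh => ?_⟩
    have h1 := hq (Sum.elim n (Sum.elim n n)) (Sum.elim (0 : κ → ℤ) (Sum.elim h (0 : κ → ℤ)))
    have e1 : ι₁ (Sum.elim n (Sum.elim n n) + q • Sum.elim (0 : κ → ℤ) (Sum.elim h (0 : κ → ℤ))) = n + q • h := by
      funext l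
      change (if l ∈ L then _ else _) = _
      by_cases hl : l ∈ L
      · rw [if_pos hl]
        simp [hh l hl]
      · rw [if_neg hl]
        simp
    have e2 : ι₂ (Sum.elim n (Sum.elim n n) + q • Sum.elim (0 : κ → ℤ) (Sum.elim h (0 : κ → ℤ))) = n := by
      funext l
      change (if l ∈ L then _ else _) = _
      by_cases hl : l ∈ L
      · rw [if_pos hl]
        simp
      · rw [if_neg hl]
        simp
    have e3 : ι₁ (Sum.elim n (Sum.elim n n)) = n := by
      funext l
      change (if l ∈ L then _ else _) = _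
      split_ifs <;> simp
    have e4 : ι₂ (Sum.elim n (Sum.elim n n)) = n := by
      funext l
      change (if l ∈ L then _ else _) = _
      split_ifs <;> simp
    simp only at h1
    rw [e1, e2, e3, e4, sub_self, sub_eq_zero] at h1
    exact h1

end Pool.Agent.Lib.Pf720ae.Aff
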