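import Mathlib

/-!
# Polynomial maps between abelian groups

`PD k f`: all `k`-fold differences of `f` vanish, that is, `f` is a polynomial map of degree
less than `k`.
-/

set_option autoImplicit false
set_option linter.unusedSectionVars false

open Finset

namespace Pool.Agent.Lib.Pf720ae.Aff

variable {V W A B C : Type*} [AddCommGroup V] [AddCommGroup W] [AddCommGroup A] [AddCommGroup B]
  [AddCommGroup C]

/-- the difference in direction `h` -/
def df (h : V) (f : V → A) : V → A := fun n => f (n + h) - f n

lemma df_apply (h : V) (f : V → A) (n : V) : df h f n = f (n + h) - f n := rfl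

/-- polynomial maps of degree less than `k` -/
def PD : ℕ → (V → A) → Prop
  | 0, f => f = 0
  | k + 1, f => ∀ h, PD k (df h f)

lemma df_zero_fun (h : V) : df h (0 : V → A) = 0 := by
  funext n; simp [df]

lemma df_add (h : V) (f g : V → A) : df h (f + g) = df h f + df h g := by
  funext n; simp only [df, Pi.add_apply]; abel

lemma df_neg (h : V) (f : V → A) : df h (-f) = -df h f := by
  funext n; simp only [df, Pi.neg_apply]; abel

lemma df_sub (h : V) (f g : V → A) : df h (f - g) = df h f - df h g := by
  rw [sub_eq_add_neg, df_add, df_neg, ← sub_eq_add_neg]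

lemma df_comm (h h' : V) (f : V → A) : df h (df h' f) = df h' (df h f) := by
  funext n
  simp only [df]
  rw [add_right_comm n h h']
  abel

lemma PD.zero (k : ℕ) : PD k (0 : V → A) := by
  induction k with
  | zero => rfl
  | succ k ih => intro h; rw [df_zero_fun]; exact ih

lemma PD.succ {k : ℕ} {f : V → A} (hf : PD k f) : PD (k + 1) f := by
  induction k generalizing f with
  | zero => intro h; rw [show f = 0 from hf]; exact df_zero_fun h
  | succ k ih => intro h; exact ih (hf h)

lemma PD.mono {k k' : ℕ} (hk : k ≤ k') {f : V → A} (hf : PD k f) : PD k' f := by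
  induction k', hk using Nat.le_induction with
  | base => exact hf
  | succ n _ ih => exact ih.succ

lemma PD.df {k : ℕ} {f : V → A} (hf : PD k f) (h : V) : PD k (df h f) := by
  cases k with
  | zero => rw [show f = 0 from hf, df_zero_fun]; rfl
  | succ k => exact (hf h).succ

lemma PD.add {k : ℕ} {f g : V → A} (hf : PD k f) (hg : PD k g) : PD k (f + g) := by
  induction k generalizing f g with
  | zero => rw [show f = 0 from hf, show g = 0 from hg]; simp [PD]
  | succ k ih => intro h; rw [df_add]; exact ih (hf h) (hg h)

lemma PD.neg {k : ℕ} {f : V → A} (hf : PD k f) : PD k (-f) := by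
  induction k generalizing f with
  | zero => rw [show f = 0 from hf]; simp [PD]
  | succ k ih => intro h; rw [df_neg]; exact ih (hf h)

lemma PD.sub {k : ℕ} {f g : V → A} (hf : PD k f) (hg : PD k g) : PD k (f - g) := by
  rw [sub_eq_add_neg]; exact hf.add hg.neg

lemma PD.sum {ι : Type*} {k : ℕ} (s : Finset ι) {f : ι → V → A} (hf : ∀ i ∈ s, PD k (f i)) :
    PD k (∑ i ∈ s, f i) := by
  classical
  induction s using Finset.induction_on with
  | empty => rw [Finset.sum_empty]; exact PD.zero k
  | insert a s ha ih =>
    rw [Finset.sum_insert ha]
    exact (hf a (Finset.mem_insert_self _ _)).add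
      (ih fun i hi => hf i (Finset.mem_insert_of_mem hi))

lemma PD.const (c : A) : PD 1 (fun _ : V => c) := by
  intro h
  funext n
  simp [df_apply]

lemma PD.comp_affine {k : ℕ} {f : V → A} (hf : PD k f) (ι : W →+ V) (a : V) :
    PD k (fun w => f (ι w + a)) := by
  induction k generalizing f with
  | zero => rw [show f = 0 from hf]; rfl
  | succ k ih =>
    intro h
    have : Aff.df h (fun w => f (ι w + a)) = fun w => (Aff.df (ι h) f) (ι w + a) := by
      funext w
      simp only [df_apply, map_add]
      congr 2
      abel
    rw [this]
    exact ih (hf _)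

lemma PD.shift {k : ℕ} {f : V → A} (hf : PD k f) (a : V) : PD k (fun n => f (n + a)) :=
  hf.comp_affine (AddMonoidHom.id V) a

lemma PD.comp_hom {k : ℕ} {f : V → A} (hf : PD k f) (φ : A →+ B) : PD k (fun n => φ (f n)) := by
  induction k generalizing f with
  | zero => rw [show f = 0 from hf]; funext n; simp
  | succ k ih =>
    intro h
    have : Aff.df h (fun n => φ (f n)) = fun n => φ (Aff.df h f n) := by
      funext n
      simp only [df_apply, map_sub]
    rw [this]
    exact ih (hf _)

lemma PD.of_comp_hom {k : ℕ} {f : V → A} (φ : A →+ B) (hφ : Function.Injective φ)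
    (hf : PD k (fun n => φ (f n))) : PD k f := by
  induction k generalizing f with
  | zero =>
    funext n
    have := congrFun hf n
    simp only [Pi.zero_apply] at this
    exact hφ (by rw [this, Pi.zero_apply, map_zero])
  | succ k ih =>
    intro h
    refine ih ?_
    have : (fun n => φ (Aff.df h f n)) = Aff.df h (fun n => φ (f n)) := by
      funext n
      simp only [df_apply, map_sub]
    rw [this]
    exact hf h

/-- products of polynomial maps -/
lemma PD.bilin {a b : ℕ} {f : V → A} {g : V → B} (β : A →+ B →+ C) (hf : PD a f) (hg : PD b g) :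
    PD (a + b) (fun n => β (f n) (g n)) := by
  induction hN : a + b generalizing a b f g with
  | zero =>
    obtain ⟨rfl, rfl⟩ : a = 0 ∧ b = 0 := by omega
    rw [show f = 0 from hf]
    funext n
    simp
  | succ N ih =>
    intro h
    have hd : Aff.df h (fun n => β (f n) (g n)) =
        (fun n => β (Aff.df h f n) (g (n + h))) + fun n => β (f n) (Aff.df h g n) := by
      funext n
      simp only [df_apply, Pi.add_apply, map_sub, AddMonoidHom.sub_apply]
      abel
    rw [hd]
    refine PD.add ?_ ?_
    · rcases Nat.eq_zero_or_pos a with h0 | h0
      · subst h0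
        have : f = 0 := hf
        rw [this, df_zero_fun]
        have h1 : (fun n => β ((0 : V → A) n) (g (n + h))) = (0 : V → C) := by
          funext n; simp
        rw [h1]
        exact PD.zero _
      · obtain ⟨a', rfl⟩ : ∃ a', a = a' + 1 := ⟨a - 1, by omega⟩
        exact ih (hf h) (hg.shift h) (by omega)
    · rcases Nat.eq_zero_or_pos b with h0 | h0
      · subst h0
        have : g = 0 := hg
        rw [this, df_zero_fun]
        have h1 : (fun n => β (f n) ((0 : V → B) n)) = (0 : V → C) := by
          funext n; simp
        rw [h1]
        exact PD.zero _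
      · obtain ⟨b', rfl⟩ : ∃ b', b = b' + 1 := ⟨b - 1, by omega⟩
        exact ih hf (hg h) (by omega)

lemma PD.one_const {f : V → A} (hf : PD 1 f) (n m : V) : f n = f m := by
  have := congrFun (hf (m - n)) n
  simp only [df_apply, Pi.zero_apply, add_sub_cancel] at this
  exact (sub_eq_zero.1 this).symm

/-- maps whose differences are constant are additive up to a constant -/
lemma const_df_add {f : V → A} (hf : PD 2 f) (h h' n : V) :
    f (n + (h + h')) - f n = (f h - f 0) + (f h' - f 0) := by
  have h1 := (hf h').one_const (n + h) 0
  have h2 := (hf h).one_const n 0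
  simp only [df_apply, zero_add] at h1 h2
  rw [← add_assoc]
  rw [← h1, ← h2]
  abel

/-- a periodic polynomial map is constant when the target has no torsion -/
lemma PD.const_of_periodic (htf : ∀ (n : ℕ) (a : A), 0 < n → n • a = 0 → a = 0) {k : ℕ}
    {f : V → A} (hf : PD k f) {d : ℕ} (hd : 0 < d) (hper : ∀ n h : V, f (n + d • h) = f n)
    (n m : V) : f n = f m := by
  have key : ∀ k : ℕ, ∀ f : V → A, PD k f → (∀ n h : V, f (n + d • h) = f n) → PD 1 f := by
    intro k
    induction k with
    | zero => intro f hf _; exact hf.succ
    | succ k ih =>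
      intro f hf hper
      have h1 : PD 2 f := by
        intro h
        refine ih _ (hf h) fun n h' => ?_
        simp only [df_apply]
        rw [hper n h', add_right_comm, hper]
      intro h
      funext n
      have h2 : ∀ j : ℕ, f (j • h) - f 0 = j • (f h - f 0) := by
        intro j
        induction j with
        | zero => simp
        | succ j ihj =>
          have := const_df_add h1 (j • h) h 0
          rw [zero_add] at this
          rw [succ_nsmul, this, ihj, succ_nsmul]
      have h3 := h2 d
      have h4 := hper 0 h
      rw [zero_add] at h4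
      rw [h4, sub_self] at h3
      have h5 := htf d _ hd h3.symm
      have h6 := (h1 h).one_const n 0
      simp only [df_apply, zero_add] at h6 ⊢
      rw [h6, h5]
      rfl
  exact (key k f hf hper).one_const n m

end Pool.Agent.Lib.Pf720ae.Aff
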