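import Pool.Agent.Lib.Pf720ae.Aff.Chars

/-!
# From characters to continuous and Riemann integrable functions
-/

set_option autoImplicit false
set_option linter.unusedSectionVars false

open Finset MeasureTheory Filter Topology
open scoped ENNReal ComplexConjugate
open Pool.Agent.Lib.Pf720ae.Alg (LR prt tsp tsp_dense)

namespace Pool.Agent.Lib.Pf720ae.Aff

variable {X : Type} [CommGroup X] [TopologicalSpace X] [IsTopologicalGroup X] [CompactSpace X]
  [T2Space X] [MeasurableSpace X] [BorelSpace X] {μ : Measure X} [IsProbabilityMeasure μ]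
  {κ : Type} [Fintype κ] [DecidableEq κ]

/-- uniform approximation -/
lemma Cv_unif {S : (κ → ℕ) → X → X} {W : X → Set ((κ → ℕ) → ℝ)}
    (hW : ∀ x, ∀ w ∈ W x, ∀ m, |w m| ≤ 1) {φ : X → ℝ}
    (h : ∀ ε > 0, ∃ ψ : X → ℝ, Cv μ S W ψ ∧ ∀ x, |φ x - ψ x| ≤ ε) : Cv μ S W φ := by
  have h1 : ∀ n : ℕ, ∃ ψ : X → ℝ, Cv μ S W ψ ∧ ∀ x, |φ x - ψ x| ≤ 1 / (n + 1 : ℝ) := fun n =>
    h _ (by positivity)
  choose ψ hψ1 hψ2 using h1
  filter_upwards [ae_all_iff.2 hψ1] with x hx w hw
  refine exists_tendsto_of_approx _ fun ε hε => ?_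
  obtain ⟨n, hn⟩ := exists_nat_one_div_lt hε
  refine ⟨fun M => avg M fun m => ψ n (S m x) * w m, hx n w hw, ?_⟩
  filter_upwards [eventually_pos] with M hM
  rw [← avg_sub]
  have h2 : |avg M fun m => φ (S m x) * w m - ψ n (S m x) * w m| ≤ avg M fun _ => ε := by
    refine (abs_avg_le _ _).trans (avg_mono M fun m => ?_)
    rw [← sub_mul, abs_mul]
    calc |φ (S m x) - ψ n (S m x)| * |w m| ≤ (1 / (n + 1 : ℝ)) * 1 :=
          mul_le_mul (hψ2 n _) (hW x w hw m) (abs_nonneg _) (by positivity)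
      _ ≤ ε := by rw [mul_one]; exact hn.le
  rwa [avg_const hM] at h2

/-- continuous functions -/
lemma Cv_cont (hsep : ∀ x : X, x ≠ 1 → ∃ χ : X →ₜ* Circle, χ x ≠ 1)
    {S : (κ → ℕ) → X → X} {W : X → Set ((κ → ℕ) → ℝ)}
    (hW : ∀ x, ∀ w ∈ W x, ∀ m, |w m| ≤ 1)
    (hchar : ∀ b (χ : X →ₜ* Circle), Cv μ S W (prt b χ)) (φ : C(X, ℝ)) : Cv μ S W φ := by
  have h1 : ∀ g ∈ tsp X, Cv μ S W g := by
    intro g hg
    induction hg using Submodule.span_induction with
    | mem x hx =>
      obtain ⟨p, rfl⟩ := hx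
      exact hchar p.1 p.2
    | zero => exact Cv.zero
    | add x y _ _ hx hy => exact Cv.add hx hy
    | smul c x _ hx => exact Cv.smul hx c
  refine Cv_unif hW fun ε hε => ?_
  have hg : φ ∈ closure (tsp X : Set C(X, ℝ)) := by
    rw [← Submodule.topologicalClosure_coe, tsp_dense hsep]
    trivial
  obtain ⟨g, hg1, hg2⟩ := Metric.mem_closure_iff.1 hg ε hε
  refine ⟨g, h1 g hg1, fun x => ?_⟩
  have := ContinuousMap.dist_lt_iff hε |>.1 hg2 x
  rw [Real.dist_eq] at this
  exact this.le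

/-- real functions which are Riemann integrable -/
def Riem (μ : Measure X) (F : X → ℝ) : Prop :=
  ∀ ε > 0, ∃ g h : C(X, ℝ), (∀ x, |F x - g x| ≤ h x) ∧ ∫ x, h x ∂μ < ε

/-- Riemann integrable functions -/
lemma Cv_riem (hsep : ∀ x : X, x ≠ 1 → ∃ χ : X →ₜ* Circle, χ x ≠ 1)
    {S : (κ → ℕ) → X → X} (hS : ∀ m, MeasurePreserving (S m) μ μ) {W : X → Set ((κ → ℕ) → ℝ)}
    (hW : ∀ x, ∀ w ∈ W x, ∀ m, |w m| ≤ 1)
    (hchar : ∀ b (χ : X →ₜ* Circle), Cv μ S W (prt b χ))
    (hchar1 : ∀ b (χ : X →ₜ* Circle), Cv μ S (fun _ => {fun _ => 1}) (prt b χ))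
    {F : X → ℝ} (hF : Riem μ F) : Cv μ S W F := by
  have h1 : ∀ n : ℕ, ∃ g h : C(X, ℝ), (∀ x, |F x - g x| ≤ h x) ∧ ∫ x, h x ∂μ < 1 / (n + 1 : ℝ) :=
    fun n => hF _ (by positivity)
  choose g h hgh hh using h1
  have hh0 : ∀ n x, 0 ≤ h n x := fun n x => (abs_nonneg _).trans (hgh n x)
  have hcg : ∀ n, Cv μ S W (g n) := fun n => Cv_cont hsep hW hchar (g n)
  have hch : ∀ n, Cv μ S (fun _ => {fun _ => 1}) (h n) := fun n =>
    Cv_cont hsep (fun x w hw m => by
      rw [Set.mem_singleton_iff] at hw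
      rw [hw]; simp) hchar1 (h n)
  set a : ℕ → ℕ → X → ℝ≥0∞ := fun n N x =>
    ENNReal.ofReal (avg (fun _ : κ => N) fun m => h n (S m x)) with ha
  have hSm : ∀ m, Measurable (S m) := fun m => (hS m).measurable
  have hmeas : ∀ n (m : κ → ℕ), Measurable fun x => h n (S m x) := fun n m =>
    (h n).continuous.measurable.comp (hSm m)
  have ham : ∀ n N, Measurable (a n N) := by
    intro n N
    refine Measurable.ennreal_ofReal ?_
    unfold avg
    exact (Finset.measurable_sum _ fun m _ => hmeas n m).const_mul _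
  have hint : ∀ n, Integrable (h n) μ := fun n => (h n).continuous.integrable_of_hasCompactSupport
    (HasCompactSupport.of_compactSpace _)
  have hai : ∀ n N, 0 < N → ∫⁻ x, a n N x ∂μ ≤ ENNReal.ofReal (1 / (n + 1 : ℝ)) := by
    intro n N hN
    have hint2 : ∀ m : κ → ℕ, Integrable (fun x => h n (S m x)) μ := fun m =>
      (hS m).integrable_comp_of_integrable (hint n)
    have hint3 : Integrable (fun x => avg (fun _ : κ => N) fun m => h n (S m x)) μ := by
      unfold avg
      exact (integrable_finsetSum _ fun m _ => hint2 m).const_mul _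
    simp only [ha]
    rw [← ofReal_integral_eq_lintegral_ofReal hint3
      (Eventually.of_forall fun x => avg_nonneg _ fun m => hh0 n _)]
    refine ENNReal.ofReal_le_ofReal ?_
    have h2 : ∫ x, avg (fun _ : κ => N) (fun m => h n (S m x)) ∂μ =
        avg (fun _ : κ => N) fun m => ∫ x, h n (S m x) ∂μ := by
      unfold avg
      rw [integral_const_mul, integral_finsetSum _ fun m _ => hint2 m]
    have h3 : ∀ m : κ → ℕ, ∫ x, h n (S m x) ∂μ = ∫ x, h n x ∂μ := by
      intro m
      conv_rhs => rw [← (hS m).map_eq]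
      rw [integral_map (hSm m).aemeasurable]
      exact (h n).continuous.measurable.aestronglyMeasurable
    rw [h2]
    simp only [h3]
    rw [avg_const (fun _ => hN)]
    exact (hh n).le
  set H : ℕ → X → ℝ≥0∞ := fun n x => liminf (fun N => a n N x) atTop with hH
  have hHm : ∀ n, Measurable (H n) := fun n => Measurable.liminf (ham n)
  have hHi : ∀ n, ∫⁻ x, H n x ∂μ ≤ ENNReal.ofReal (1 / (n + 1 : ℝ)) := by
    intro n
    refine (lintegral_liminf_le (ham n)).trans ?_
    refine liminf_le_of_frequently_le' (Eventually.frequently ?_)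
    filter_upwards [eventually_gt_atTop 0] with N hN
    exact hai n N hN
  have hlim : ∫⁻ x, liminf (fun n => H n x) atTop ∂μ = 0 := by
    refine le_antisymm ?_ zero_le
    refine (lintegral_liminf_le hHm).trans ?_
    have h2 : Tendsto (fun n : ℕ => ∫⁻ x, H n x ∂μ) atTop (𝓝 0) := by
      have h3 : Tendsto (fun n : ℕ => ENNReal.ofReal (1 / (n + 1 : ℝ))) atTop (𝓝 0) := by
        have := ENNReal.tendsto_ofReal (tendsto_one_div_add_atTop_nhds_zero_nat (𝕜 := ℝ))
        rwa [ENNReal.ofReal_zero] at this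
      exact tendsto_of_tendsto_of_tendsto_of_le_of_le tendsto_const_nhds h3
        (fun _ => zero_le) hHi
    rw [h2.liminf_eq]
  have hae : ∀ᵐ x ∂μ, liminf (fun n => H n x) atTop = 0 := by
    rw [lintegral_eq_zero_iff (Measurable.liminf hHm)] at hlim
    exact hlim
  filter_upwards [hae, ae_all_iff.2 hcg, ae_all_iff.2 hch] with x hx hxg hxh w hw
  refine exists_tendsto_of_approx _ fun ε hε => ?_
  have h1 : liminf (fun n => H n x) atTop < ENNReal.ofReal ε := by
    rw [hx]
    exact ENNReal.ofReal_pos.2 hε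
  obtain ⟨n, hn⟩ := (frequently_lt_of_liminf_lt (by isBoundedDefault) h1).exists
  obtain ⟨L, hL⟩ := hxh n _ (Set.mem_singleton _)
  simp only [mul_one] at hL
  have hconst : Tendsto (fun N : ℕ => (fun _ : κ => N)) atTop atTop := by
    refine tendsto_atTop.2 fun b => ?_
    filter_upwards [eventually_ge_atTop (Finset.univ.sup b)] with N hN l
    exact (Finset.le_sup (Finset.mem_univ l)).trans hN
  have h2 : Tendsto (fun N => a n N x) atTop (𝓝 (ENNReal.ofReal L)) :=
    ENNReal.tendsto_ofReal (hL.comp hconst)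
  have h3 : ENNReal.ofReal L < ENNReal.ofReal ε := by
    have : H n x = ENNReal.ofReal L := h2.liminf_eq
    rwa [← this]
  have h4 : L < ε := (ENNReal.ofReal_lt_ofReal_iff hε).1 h3
  refine ⟨fun M => avg M fun m => g n (S m x) * w m, hxg n w hw, ?_⟩
  filter_upwards [hL.eventually (gt_mem_nhds h4)] with M hM
  rw [← avg_sub]
  refine ((abs_avg_le _ _).trans (avg_mono M fun m => ?_)).trans hM.le
  rw [← sub_mul, abs_mul]
  calc |F (S m x) - g n (S m x)| * |w m| ≤ h n (S m x) * 1 :=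
        mul_le_mul (hgh n _) (hW x w hw m) (abs_nonneg _) (hh0 n _)
    _ = h n (S m x) := mul_one _

end Pool.Agent.Lib.Pf720ae.Aff
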