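import Pool.Agent.Lib.Pf720ae.Aff.Pet

/-!
# Unipotent actions along polynomial maps are polynomial
-/

set_option autoImplicit false
set_option linter.unusedSectionVars false

open Finset
open Pool.Agent.Lib.Pf720ae.Alg (HasCube Inj)

namespace Pool.Agent.Lib.Pf720ae.Aff

variable {B : Type*} [AddCommGroup B] {R : Type*} [CommRing R] {M : Type*} [AddCommGroup M]
  [Module R M] {V : Type*} [AddCommGroup V]

/-- `β (P n) • y n` is polynomial when `β - 1` takes values in an ideal acting nilpotently -/
theorem unip (β : Multiplicative B →* Rˣ) {I : Ideal R}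
    (hβ : ∀ b : B, ((β (Multiplicative.ofAdd b) : R) - 1) ∈ I) {E : ℕ}
    (hE : I ^ E • (⊤ : Submodule R M) = ⊥) :
    ∀ (j i K e : ℕ), i + j = E → ∃ e' : ℕ, ∀ Q : V → B, PD K Q → ∀ y : V → M, PD e y →
      (∀ n, y n ∈ I ^ i • (⊤ : Submodule R M)) →
      PD e' fun n => β (Multiplicative.ofAdd (Q n)) • y n := by
  intro j
  induction j with
  | zero =>
    intro i K e hij
    refine ⟨0, fun Q _ y _ hy => ?_⟩
    funext n
    have := hy n
    rw [show i = E by omega, hE, Submodule.mem_bot] at this
    simp [this]
  | succ j ihj =>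
    intro i K
    induction K with
    | zero =>
      intro e _
      refine ⟨e, fun Q hQ y hy _ => ?_⟩
      have h1 : (fun n => β (Multiplicative.ofAdd (Q n)) • y n) = y := by
        funext n
        rw [show Q = 0 from hQ]
        simp
      rw [h1]
      exact hy
    | succ K ihK =>
      intro e
      induction e with
      | zero =>
        intro _
        refine ⟨0, fun Q _ y hy _ => ?_⟩
        funext n
        rw [show y = 0 from hy]
        simp
      | succ e ihe =>
        intro hij
        obtain ⟨e₁, he₁⟩ := ihK (e + 1) hij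
        obtain ⟨e₂, he₂⟩ := ihj (i + 1) (K + 1) (max e₁ (e + 1)) (by omega)
        obtain ⟨e₃, he₃⟩ := ihe hij
        refine ⟨max e₂ e₃ + 1, fun Q hQ y hy hyI h => ?_⟩
        have hyI' : ∀ n, y (n + h) ∈ I ^ i • (⊤ : Submodule R M) := fun n => hyI _
        set z : V → M := fun n => β (Multiplicative.ofAdd (df h Q n)) • y (n + h) - y (n + h)
          with hz
        have hz1 : PD (max e₁ (e + 1)) z :=
          ((he₁ (df h Q) (hQ h) (fun n => y (n + h)) (hy.shift h) hyI').mono
            (le_max_left _ _)).sub ((hy.shift h).mono (le_max_right _ _))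
        have hz2 : ∀ n, z n ∈ I ^ (i + 1) • (⊤ : Submodule R M) := by
          intro n
          have h1 : z n = ((β (Multiplicative.ofAdd (df h Q n)) : R) - 1) • y (n + h) := by
            rw [sub_smul, one_smul]; rfl
          rw [h1, pow_succ', Submodule.mul_smul]
          exact Submodule.smul_mem_smul (hβ _) (hyI' n)
        have h2 : df h (fun n => β (Multiplicative.ofAdd (Q n)) • y n) =
            (fun n => β (Multiplicative.ofAdd (Q n)) • z n) +
              fun n => β (Multiplicative.ofAdd (Q n)) • df h y n := by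
          funext n
          have h3 : Q (n + h) = Q n + df h Q n := by rw [df_apply]; abel
          simp only [Pi.add_apply, hz]
          rw [df_apply, h3, ofAdd_add, map_mul, mul_smul, smul_sub, df_apply h y, smul_sub]
          abel
        rw [h2]
        refine PD.add ?_ ?_
        · exact (he₂ Q hQ z hz1 hz2).mono (le_max_left _ _)
        · refine (he₃ Q hQ (df h y) (hy h) fun n => ?_).mono (le_max_right _ _)
          rw [df_apply]
          exact Submodule.sub_mem _ (hyI _) (hyI _)

/-- `β (P n) • x` is polynomial of uniform degree -/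
theorem unip' (β : Multiplicative B →* Rˣ) {I : Ideal R}
    (hβ : ∀ b : B, ((β (Multiplicative.ofAdd b) : R) - 1) ∈ I) {E : ℕ}
    (hE : I ^ E • (⊤ : Submodule R M) = ⊥) (K : ℕ) :
    ∃ e' : ℕ, ∀ Q : V → B, PD K Q → ∀ x : M,
      PD e' fun n => β (Multiplicative.ofAdd (Q n)) • x := by
  obtain ⟨e', he'⟩ := unip (V := V) β hβ hE E 0 K 1 (by omega)
  refine ⟨e', fun Q hQ x => he' Q hQ (fun _ => x) (PD.const x) fun n => ?_⟩
  rw [pow_zero, Ideal.one_eq_top, Submodule.top_smul]
  exact Submodule.mem_top

end Pool.Agent.Lib.Pf720ae.Aff
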