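import Pool.Agent.Lib.Pf720ae.Aff.Cavg
import Pool.Agent.Lib.Pf720ae.Aff.Period

/-!
# A multiparameter Weyl dichotomy

Averages over boxes of a polynomial phase tend to zero or the phase is periodic.
-/

set_option autoImplicit false
set_option linter.unusedSectionVars false

open Finset Filter Topology
open scoped ComplexConjugate
open Pool.Agent.Lib.Pf720ae.Alg (cz)

namespace Pool.Agent.Lib.Pf720ae.Aff

variable {κ : Type} [Fintype κ] [DecidableEq κ]

/-- the complex value of an element of the additive circle -/
noncomputable def cv (a : Additive Circle) : ℂ := ((a.toMul : Circle) : ℂ)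

lemma norm_cv (a : Additive Circle) : ‖cv a‖ = 1 := Circle.norm_coe _

lemma cv_add (a b : Additive Circle) : cv (a + b) = cv a * cv b := by
  unfold cv; rw [toMul_add, Circle.coe_mul]

lemma cv_neg (a : Additive Circle) : cv (-a) = conj (cv a) := by
  unfold cv; rw [toMul_neg, Circle.coe_inv_eq_conj]

lemma cv_sub (a b : Additive Circle) : cv (a - b) = cv a * conj (cv b) := by
  rw [sub_eq_add_neg, cv_add, cv_neg]

lemma cv_zero : cv 0 = 1 := by unfold cv; simp

lemma cv_injective : Function.Injective cv := fun a b h => by
  have : a.toMul = b.toMul := Circle.ext h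
  exact Additive.toMul.injective this

lemma cz_add (m n : κ → ℕ) : cz (m + n) = cz m + cz n := by
  funext l; simp [cz]

lemma cz_single (l : κ) (i : ℕ) : cz (Pi.single l i : κ → ℕ) = Pi.single l (i : ℤ) := by
  funext l'
  by_cases h : l' = l
  · subst h; simp [cz]
  · simp [cz, Pi.single_eq_of_ne h]

lemma nsmul_single_one (H : ℕ) (l : κ) : H • (Pi.single l 1 : κ → ℤ) = Pi.single l (H : ℤ) := by
  funext l'
  by_cases h : l' = l
  · subst h; simp
  · simp [Pi.single_eq_of_ne h]

lemma nsmul_single_int (H : ℕ) (l : κ) (c : ℤ) :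
    H • (Pi.single l c : κ → ℤ) = Pi.single l ((H : ℤ) * c) := by
  funext l'
  by_cases h : l' = l
  · subst h; simp
  · simp [Pi.single_eq_of_ne h]

lemma per_df_nsmul {V A : Type*} [AddCommGroup V] [AddCommGroup A] {q : ℕ} {f : V → A} {v : V}
    (h : Per q (df v f)) (c : ℕ) : Per q (df (c • v) f) := by
  induction c with
  | zero =>
    intro n w
    simp [df_apply]
  | succ c ih =>
    intro n w
    have h1 : ∀ n, df ((c + 1) • v) f n = df (c • v) f n + df v f (n + c • v) := by
      intro n
      simp only [df_apply, succ_nsmul]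
      rw [← add_assoc]
      abel
    rw [h1, h1, ih n w, add_right_comm, h]

/-- averages of geometric sequences -/
lemma cavg_geom {a : (κ → ℕ) → ℂ} (ha : ∀ n, ‖a n‖ ≤ 1) {z : ℂ} (hz : z ≠ 1) (l : κ)
    (h : ∀ n, a (n + Pi.single l 1) = z * a n) :
    Tendsto (fun M : κ → ℕ => cavg M a) atTop (𝓝 0) := by
  have h1 := cavg_shift ha (Pi.single l 1)
  have h2 : ∀ M : κ → ℕ, cavg M (fun m => a (m + Pi.single l 1)) - cavg M a =
      (z - 1) * cavg M a := by
    intro M
    have : (fun m => a (m + Pi.single l 1)) = fun m => z * a m := funext h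
    rw [this, cavg_smul]
    ring
  simp only [h2] at h1
  have h3 := h1.const_mul ((z - 1)⁻¹)
  rw [mul_zero] at h3
  refine h3.congr fun M => ?_
  rw [← mul_assoc, inv_mul_cancel₀ (sub_ne_zero.2 hz), one_mul]

/-- maps invariant under the unit vectors are constant -/
lemma const_of_unit {A : Type*} {φ : (κ → ℤ) → A}
    (h : ∀ (l : κ) (m : κ → ℤ), φ (m + Pi.single l 1) = φ m) (m : κ → ℤ) : φ m = φ 0 := by
  let S : AddSubgroup (κ → ℤ) :=
    { carrier := {v | ∀ m, φ (m + v) = φ m}
      add_mem' := by
        intro v w hv hw m
        rw [← add_assoc, hw, hv]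
      zero_mem' := by intro m; rw [add_zero]
      neg_mem' := by
        intro v hv m
        have := hv (m + -v)
        rw [neg_add_cancel_right] at this
        exact this.symm }
  have hS : ∀ v : κ → ℤ, v ∈ S := by
    intro v
    have : v = ∑ l, v l • (Pi.single l 1 : κ → ℤ) := by
      funext l'
      rw [Finset.sum_apply]
      simp [Pi.single_apply]
    rw [this]
    exact S.sum_mem fun l _ => S.zsmul_mem (h l) _
  have := hS m 0
  rwa [zero_add] at this

theorem weyl (k : ℕ) {θ : (κ → ℤ) → Additive Circle} (hθ : PD k θ) :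
    Tendsto (fun M : κ → ℕ => cavg M fun m => cv (θ (cz m))) atTop (𝓝 0) ∨
      ∃ q : ℕ, 0 < q ∧ Per q θ := by
  induction k generalizing θ with
  | zero =>
    right
    refine ⟨1, one_pos, fun n h => ?_⟩
    rw [show θ = 0 from hθ]
    rfl
  | succ k ih =>
    by_cases hA : ∃ l : κ, ∀ i : ℕ, 0 < i → Tendsto (fun M : κ → ℕ => cavg M fun m =>
        cv (df (Pi.single l (i : ℤ)) θ (cz m))) atTop (𝓝 0)
    · left
      obtain ⟨l, hl⟩ := hA
      refine vdc (a := fun m => cv (θ (cz m))) (fun m => norm_cv _) l fun i hi => ?_
      refine (hl i hi).congr fun M => ?_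
      congr 1
      funext m
      rw [df_apply, cv_sub, cz_add, cz_single]
    · push Not at hA
      choose i hi hni using hA
      have hper : ∀ l, ∃ q : ℕ, 0 < q ∧ Per q (df (Pi.single l (i l : ℤ)) θ) := fun l =>
        (ih (hθ _)).resolve_left (hni l)
      choose p hp0 hp using hper
      set q := ∏ l, p l with hq
      have hq0 : 0 < q := Finset.prod_pos fun l _ => hp0 l
      set H := q * ∏ l, i l with hH
      have hH0 : 0 < H := Nat.mul_pos hq0 (Finset.prod_pos fun l _ => hi l)
      have hR : ∀ l, Per H (df (Pi.single l (H : ℤ)) θ) := by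
        intro l
        obtain ⟨c, hc⟩ := Finset.dvd_prod_of_mem p (Finset.mem_univ l)
        obtain ⟨c', hc'⟩ := Finset.dvd_prod_of_mem i (Finset.mem_univ l)
        have h1 : Per q (df (Pi.single l (i l : ℤ)) θ) := by
          rw [hq, hc]; exact (hp l).mul c
        have h2 := per_df_nsmul (h1.mul (∏ l, i l)) (q * c')
        have h3 : (q * c') • (Pi.single l (i l : ℤ) : κ → ℤ) = Pi.single l (H : ℤ) := by
          rw [nsmul_single_int, hH, hc']
          congr 1
          push_cast
          ring
        rwa [h3] at h2
      by_cases hs : ∃ s : κ → ℕ, ∀ l, df (Pi.single l (H : ℤ)) θ (cz s) = 0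
      · right
        obtain ⟨s, hs⟩ := hs
        refine PD.per_of_coset hH0 hθ (cz s) fun m => ?_
        have h1 := const_of_unit (φ := fun m : κ → ℤ => θ (H • m + cz s)) (fun l m => by
          have h2 := hR l (cz s) m
          rw [hs l, df_apply, sub_eq_zero] at h2
          rw [smul_add, add_comm (H • m) (cz s), ← h2, nsmul_single_one]
          congr 1
          abel) m
        simpa using h1
      · left
        push Not at hs
        refine cavg_zero_of_cosets hH0 fun s => ?_
        obtain ⟨l, hl⟩ := hs s
        have hz : cv (df (Pi.single l (H : ℤ)) θ (cz s)) ≠ 1 := by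
          intro h
          apply hl
          apply cv_injective
          rw [h, cv_zero]
        have hgeo : ∀ n : κ → ℕ, cv (θ (cz (H • (n + Pi.single l 1) + s))) =
            cv (df (Pi.single l (H : ℤ)) θ (cz s)) * cv (θ (cz (H • n + s))) := by
          intro n
          rw [← cv_add]
          congr 1
          have h2 := hR l (cz s) (cz n)
          have h3 : cz (H • (n + Pi.single l 1) + s) = cz (H • n + s) + Pi.single l (H : ℤ) := by
            funext l'
            by_cases h : l' = l
            · subst h; simp [cz]; ring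
            · simp [cz, Pi.single_eq_of_ne h]
          have h4 : cz (H • n + s) = cz s + H • cz n := by
            funext l'
            simp [cz]
            ring
          rw [h3, ← h2, df_apply, h4]
          abel
        exact cavg_geom (fun n => (norm_cv _).le) hz l hgeo

end Pool.Agent.Lib.Pf720ae.Aff
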